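import Mathlib

set_option autoImplicit false

namespace Pool.Agent.H443Z.Good

open Finset

/-- permutations with prescribed values on `S`. -/
theorem card_fiber {α : Type*} [Fintype α] [DecidableEq α] (S : Finset α) (g : S → α) :
    (univ.filter (fun π : Equiv.Perm α => ∀ v : S, π v = g v)).card
      ≤ (Fintype.card α - S.card).factorial := by
  classical
  rcases (univ.filter (fun π : Equiv.Perm α => ∀ v : S, π v = g v)).eq_empty_or_nonempty with h | ⟨π₀, h₀⟩
  · rw [h]; simp
  have h₀' : ∀ v : S, π₀ v = g v := by simpa using h₀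
  have hc : Fintype.card {f : Equiv.Perm α // ∀ a, ¬ (a ∉ S) → f a = a}
      = (Fintype.card α - S.card).factorial := by
    rw [← Fintype.card_congr (Equiv.Perm.subtypeEquivSubtypePerm (fun a => a ∉ S)),
      Fintype.card_perm]
    congr 1
    rw [Fintype.card_subtype_compl]
    simp
  rw [← hc, Fintype.card_subtype]
  refine Finset.card_le_card_of_injOn (fun π => π₀⁻¹ * π) ?_ ?_
  · intro π hπ
    have hπ' : ∀ v : S, π v = g v := by simpa using hπ
    simp only [coe_filter, mem_univ, true_and, Set.mem_ofPred_eq]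
    intro a ha
    have ha' : a ∈ S := by simpa using ha
    have h1 := hπ' ⟨a, ha'⟩
    have h2 := h₀' ⟨a, ha'⟩
    simp only at h1 h2
    rw [Equiv.Perm.mul_apply, h1, ← h2]
    simp
  · intro π _ π' _ h
    exact mul_left_cancel h

theorem card_perm_le {α : Type*} [Fintype α] [DecidableEq α] (S : Finset α) (T : α → Finset α)
    (ρ : ℕ) (hT : ∀ v ∈ S, (T v).card ≤ ρ) :
    (univ.filter (fun π : Equiv.Perm α => ∀ v, π v ∈ T v)).card
      ≤ ρ ^ S.card * (Fintype.card α - S.card).factorial := by
  classical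
  have h1 := Finset.card_le_mul_card_image_of_maps_to
    (f := fun (π : Equiv.Perm α) (v : S) => π v)
    (s := univ.filter (fun π : Equiv.Perm α => ∀ v, π v ∈ T v))
    (t := Fintype.piFinset (fun v : S => T v)) ?_ ((Fintype.card α - S.card).factorial) ?_
  · refine h1.trans ?_
    rw [mul_comm]
    gcongr
    rw [Fintype.card_piFinset]
    calc ∏ v : S, (T v).card ≤ ∏ _v : S, ρ := Finset.prod_le_prod' (fun v _ => hT v v.2)
      _ = ρ ^ S.card := by simp
  · intro π hπ
    have : ∀ v, π v ∈ T v := by simpa using hπ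
    simp [this]
  · intro g _
    refine le_trans (Finset.card_le_card ?_) (card_fiber S g)
    intro π hπ
    simp only [mem_filter, mem_univ, true_and] at hπ ⊢
    intro v
    exact congrFun hπ.2 v

/-- second moment of the degrees -/
theorem sum_sq_le {α V : Type*} [Fintype α] [DecidableEq α] [DecidableEq V]
    (rel : V → V → Prop) [DecidableRel rel]
    (hco : ∀ u' u'' u₁ u₂, u' ≠ u'' → rel u₁ u' → rel u₁ u'' → rel u₂ u' → rel u₂ u'' → u₁ = u₂)
    (φ : α → V) (m : ℕ) (hm : ∀ u, (univ.filter (fun v => φ v = u)).card ≤ m) :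
    ∑ v, (univ.filter (fun v' => rel (φ v) (φ v'))).card ^ 2
      ≤ 2 * Fintype.card α ^ 2 * m := by
  classical
  have e1 : ∀ v, (univ.filter (fun v' => rel (φ v) (φ v'))).card ^ 2
      = ∑ v', ∑ v'', if rel (φ v) (φ v') ∧ rel (φ v) (φ v'') then 1 else 0 := by
    intro v
    rw [sq, Finset.card_filter, Finset.sum_mul_sum]
    refine Finset.sum_congr rfl fun v' _ => Finset.sum_congr rfl fun v'' _ => ?_
    by_cases h1 : rel (φ v) (φ v') <;> by_cases h2 : rel (φ v) (φ v'') <;> simp [h1, h2]
  simp_rw [e1]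
  rw [Finset.sum_comm]
  have e2 : ∀ v', ∑ v, ∑ v'', (if rel (φ v) (φ v') ∧ rel (φ v) (φ v'') then 1 else 0)
      ≤ 2 * Fintype.card α * m := by
    intro v'
    rw [Finset.sum_comm]
    have e3 : ∀ v'', ∑ v, (if rel (φ v) (φ v') ∧ rel (φ v) (φ v'') then 1 else 0)
        ≤ m + (if φ v'' = φ v' then Fintype.card α else 0) := by
      intro v''
      rw [← Finset.card_filter]
      by_cases h : φ v'' = φ v'
      · rw [if_pos h]
        exact le_trans (Finset.card_le_univ _) (Nat.le_add_left _ _)
      · rw [if_neg h, add_zero]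
        rcases (univ.filter (fun v => rel (φ v) (φ v') ∧ rel (φ v) (φ v''))).eq_empty_or_nonempty
          with h0 | ⟨v₀, h0⟩
        · rw [h0]; simp
        · refine le_trans (Finset.card_le_card ?_) (hm (φ v₀))
          intro v hv
          simp only [mem_filter, mem_univ, true_and] at hv h0 ⊢
          exact hco _ _ _ _ h hv.2 hv.1 h0.2 h0.1
    refine le_trans (Finset.sum_le_sum fun v'' _ => e3 v'') ?_
    rw [Finset.sum_add_distrib, ← Finset.sum_filter]
    simp only [sum_const, card_univ, smul_eq_mul]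
    have := hm (φ v')
    nlinarith
  refine le_trans (Finset.sum_le_sum fun v' _ => e2 v') ?_
  simp only [sum_const, card_univ, smul_eq_mul]
  nlinarith

theorem card_good_perm {V : Type*} [DecidableEq V]
    (rel : V → V → Prop) [DecidableRel rel]
    (hco : ∀ u' u'' u₁ u₂, u' ≠ u'' → rel u₁ u' → rel u₁ u'' → rel u₂ u' → rel u₂ u'' → u₁ = u₂)
    (z m' : ℕ) (hz : 2 ≤ z) (hm' : 1 ≤ m') (h : ℕ) (hh : h = z ^ 2 * m') (φ : Fin (2 * h) → V)
    (hm : ∀ u, (univ.filter (fun v => φ v = u)).card ≤ 2 * m') :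
    (univ.filter (fun π : Equiv.Perm (Fin (2 * h)) =>
      ∀ v, φ v = φ (π v) ∨ rel (φ v) (φ (π v)))).card
      ≤ (6 * z * m') ^ h * h.factorial := by
  classical
  have hs := sum_sq_le rel hco φ (2 * m') hm
  set D : Fin (2 * h) → ℕ := fun v => (univ.filter (fun v' => rel (φ v) (φ v'))).card with hD
  have hbad : (univ.filter (fun v => ¬ D v ≤ 4 * z * m')).card ≤ h := by
    by_contra hc
    push Not at hc
    have h1 : (univ.filter (fun v => ¬ D v ≤ 4 * z * m')).card * (4 * z * m') ^ 2 ≤ ∑ v, D v ^ 2 := by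
      calc (univ.filter (fun v => ¬ D v ≤ 4 * z * m')).card * (4 * z * m') ^ 2
          = ∑ _v ∈ univ.filter (fun v => ¬ D v ≤ 4 * z * m'), (4 * z * m') ^ 2 := by simp
        _ ≤ ∑ v ∈ univ.filter (fun v => ¬ D v ≤ 4 * z * m'), D v ^ 2 := by
          refine Finset.sum_le_sum fun v hv => ?_
          have : ¬ D v ≤ 4 * z * m' := by simpa using hv
          gcongr
          omega
        _ ≤ ∑ v, D v ^ 2 := Finset.sum_le_sum_of_subset (Finset.filter_subset _ _)
    have h2 : h * (4 * z * m') ^ 2 < (univ.filter (fun v => ¬ D v ≤ 4 * z * m')).card * (4 * z * m') ^ 2 := by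
      have : 0 < (4 * z * m') ^ 2 := by positivity
      exact Nat.mul_lt_mul_of_pos_right (by simpa using hc) this
    have h3 : 2 * Fintype.card (Fin (2 * h)) ^ 2 * (2 * m') = h * (4 * z * m') ^ 2 := by
      rw [Fintype.card_fin, hh]; ring
    change ∑ v, D v ^ 2 ≤ _ at hs
    omega
  have hgood : h ≤ (univ.filter (fun v => D v ≤ 4 * z * m')).card := by
    have := Finset.card_filter_add_card_filter_not (s := (univ : Finset (Fin (2 * h))))
      (fun v => D v ≤ 4 * z * m')
    simp only [card_univ, Fintype.card_fin] at this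
    omega
  obtain ⟨S, hS, hSc⟩ := Finset.exists_subset_card_eq hgood
  have := card_perm_le S (fun v => univ.filter (fun v' => φ v = φ v' ∨ rel (φ v) (φ v')))
    (6 * z * m') ?_
  · simp only [mem_filter, mem_univ, true_and, hSc, Fintype.card_fin] at this
    have e : 2 * h - h = h := by omega
    rwa [e] at this
  · intro v hv
    have hv' : D v ≤ 4 * z * m' := by simpa using hS hv
    rw [Finset.filter_or]
    refine le_trans (Finset.card_union_le _ _) ?_
    have h1 : (univ.filter (fun v' => φ v = φ v')).card ≤ 2 * m' := by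
      have := hm (φ v)
      simpa only [eq_comm] using this
    have h2 : 2 * m' ≤ 2 * z * m' := by nlinarith
    change _ + D v ≤ _
    nlinarith

theorem fact_ge (h : ℕ) : h ^ h * h.factorial ≤ (2 * h).factorial := by
  have := Nat.factorial_mul_pow_le_factorial (m := h) (n := h)
  rw [two_mul]
  refine le_trans ?_ this
  rw [mul_comm]
  gcongr
  omega

theorem exists_perms {V : Type*} [Fintype V] [DecidableEq V]
    (rel : V → V → Prop) [DecidableRel rel]
    (hco : ∀ u' u'' u₁ u₂, u' ≠ u'' → rel u₁ u' → rel u₁ u'' → rel u₂ u' → rel u₂ u'' → u₁ = u₂)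
    (z m' : ℕ) (hz : 2 ≤ z) (hm' : 1 ≤ m') (k : ℕ) (h : ℕ) (hh : h = z ^ 2 * m')
    (hV : Fintype.card V ^ 2 * 6 ^ k < z ^ k) :
    ∃ π : Fin k → Equiv.Perm (Fin (2 * h)),
      ∀ φ : Fin (2 * h) → V, (∀ u, (univ.filter (fun v => φ v = u)).card ≤ 2 * m') →
        ∃ j v, ¬ (φ v = φ (π j v) ∨ rel (φ v) (φ (π j v))) := by
  classical
  by_contra hc
  push Not at hc
  set Φ := univ.filter (fun φ : Fin (2 * h) → V =>
    ∀ u, (univ.filter (fun v => φ v = u)).card ≤ 2 * m') with hΦ
  set B : (Fin (2 * h) → V) → Finset (Fin k → Equiv.Perm (Fin (2 * h))) := fun φ =>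
    Fintype.piFinset (fun _ : Fin k => univ.filter (fun π : Equiv.Perm (Fin (2 * h)) =>
      ∀ v, φ v = φ (π v) ∨ rel (φ v) (φ (π v)))) with hB
  have hsub : (univ : Finset (Fin k → Equiv.Perm (Fin (2 * h)))) ⊆ Φ.biUnion B := by
    intro π _
    obtain ⟨φ, h1, h2⟩ := hc π
    rw [Finset.mem_biUnion]
    refine ⟨φ, by simpa [hΦ] using h1, ?_⟩
    simp only [hB, Fintype.mem_piFinset, mem_filter, mem_univ, true_and]
    exact h2
  have h1 := Finset.card_le_card hsub
  have h2 : (Φ.biUnion B).card ≤ Φ.card * ((6 * z * m') ^ h * h.factorial) ^ k := by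
    refine Finset.card_biUnion_le_card_mul _ _ _ ?_
    intro φ hφ
    have hφ' : ∀ u, (univ.filter (fun v => φ v = u)).card ≤ 2 * m' := by simpa [hΦ] using hφ
    have := card_good_perm rel hco z m' hz hm' h hh φ hφ'
    simp only [hB, Fintype.card_piFinset, prod_const, card_univ, Fintype.card_fin]
    gcongr
  have h3 : Φ.card ≤ Fintype.card V ^ (2 * h) := by
    refine le_trans (Finset.card_le_univ _) ?_
    simp
  have h4 : (univ : Finset (Fin k → Equiv.Perm (Fin (2 * h)))).card = (2 * h).factorial ^ k := by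
    simp [Fintype.card_perm]
  have h5 : (h ^ h * h.factorial) ^ k ≤ (2 * h).factorial ^ k := by
    gcongr
    exact fact_ge h
  have hpos : 0 < h := by rw [hh]; positivity
  have h6 : Fintype.card V ^ (2 * h) * ((6 * z * m') ^ h * h.factorial) ^ k
      < (h ^ h * h.factorial) ^ k := by
    have e1 : Fintype.card V ^ (2 * h) * ((6 * z * m') ^ h * h.factorial) ^ k
        = (Fintype.card V ^ 2 * 6 ^ k) ^ h * ((z * m') ^ (h * k) * h.factorial ^ k) := by
      simp only [mul_pow, ← pow_mul]
      ring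
    have e2 : (h ^ h * h.factorial) ^ k = (z ^ k) ^ h * ((z * m') ^ (h * k) * h.factorial ^ k) := by
      have : h = z * (z * m') := by rw [hh]; ring
      have e3 : h ^ h = z ^ h * (z * m') ^ h := by rw [← mul_pow, ← this]
      rw [e3]
      simp only [mul_pow, ← pow_mul]
      ring
    rw [e1, e2]
    have : 0 < (z * m') ^ (h * k) * h.factorial ^ k := by positivity
    exact Nat.mul_lt_mul_of_pos_right (Nat.pow_lt_pow_left hV hpos.ne') this
  have h7 : Φ.card * ((6 * z * m') ^ h * h.factorial) ^ k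
      ≤ Fintype.card V ^ (2 * h) * ((6 * z * m') ^ h * h.factorial) ^ k := by gcongr
  omega

end Pool.Agent.H443Z.Good
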