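import Mathlib

set_option autoImplicit false

namespace Pool.Agent.H443Z.Good

open Finset

/-- the incidence relation `a + c = b d` on pairs -/
def rl {K : Type*} [Field K] (u v : K × K) : Prop := u.1 + v.1 = u.2 * v.2

theorem rl_symm {K : Type*} [Field K] {u v : K × K} (h : rl u v) : rl v u := by
  unfold rl at *
  linear_combination h

theorem rl_co {K : Type*} [Field K] (u' u'' u₁ u₂ : K × K) (hne : u' ≠ u'')
    (h1 : rl u₁ u') (h2 : rl u₁ u'') (h3 : rl u₂ u') (h4 : rl u₂ u'') : u₁ = u₂ := by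
  unfold rl at *
  by_cases hb : u'.2 = u''.2
  · exfalso
    apply hne
    refine Prod.ext ?_ hb
    rw [hb] at h1
    linear_combination h1 - h2
  · have hb' : u'.2 - u''.2 ≠ 0 := sub_ne_zero.2 hb
    have e2 : u₁.2 = u₂.2 := by
      have : (u₁.2 - u₂.2) * (u'.2 - u''.2) = 0 := by
        linear_combination -h1 + h2 + h3 - h4
      rcases mul_eq_zero.1 this with h | h
      · exact sub_eq_zero.1 h
      · exact absurd h hb'
    refine Prod.ext ?_ e2
    rw [e2] at h1
    linear_combination h1 - h3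

open Classical in
theorem card_rl {K : Type*} [Field K] [Fintype K] (v : K × K) :
    (univ.filter (fun u : K × K => rl u v)).card = Fintype.card K := by
  rw [← Finset.card_univ]
  refine Finset.card_bij (fun u _ => u.2) (fun _ _ => mem_univ _) ?_ ?_
  · intro a ha b hb h
    have ha' : a.1 + v.1 = a.2 * v.2 := (Finset.mem_filter.1 ha).2
    have hb' : b.1 + v.1 = b.2 * v.2 := (Finset.mem_filter.1 hb).2
    have h' : a.2 = b.2 := h
    refine Prod.ext ?_ h'
    rw [h'] at ha'
    linear_combination ha' - hb'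
  · intro b _
    refine ⟨(b * v.2 - v.1, b), Finset.mem_filter.2 ⟨mem_univ _, ?_⟩, rfl⟩
    simp [rl]

open Classical in
theorem indep_bound {K : Type*} [Field K] [Fintype K] (I : Finset (K × K))
    (hI : ∀ u ∈ I, ∀ v ∈ I, u ≠ v → ¬ rl u v) (c : ℕ) (hc : Fintype.card K ≤ c ^ 2) :
    I.card ≤ Fintype.card K * (c + 1) := by
  set q := Fintype.card K with hq
  set deg : K × K → ℕ := fun u => (I.filter (fun v => rl u v)).card with hdeg
  have h1 : ∑ u, deg u = q * I.card := by
    simp only [hdeg, Finset.card_filter]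
    rw [Finset.sum_comm]
    simp only [← Finset.card_filter, card_rl]
    simp [mul_comm, hq]
  have h2 : ∑ u, deg u ^ 2 ≤ q * I.card + I.card ^ 2 := by
    have e1 : ∀ u, deg u ^ 2 = ∑ v ∈ I, ∑ w ∈ I, if rl u v ∧ rl u w then 1 else 0 := by
      intro u
      simp only [hdeg]
      rw [sq, Finset.card_filter, Finset.sum_mul_sum]
      refine Finset.sum_congr rfl fun v' _ => Finset.sum_congr rfl fun v'' _ => ?_
      by_cases h1 : rl u v' <;> by_cases h2 : rl u v'' <;> simp [h1, h2]
    simp_rw [e1]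
    rw [Finset.sum_comm]
    have e2 : ∀ v ∈ I, ∑ u, ∑ w ∈ I, (if rl u v ∧ rl u w then 1 else 0) ≤ q + I.card := by
      intro v hv
      rw [Finset.sum_comm]
      have e3 : ∀ w, ∑ u, (if rl u v ∧ rl u w then 1 else 0) ≤ (if w = v then q else 0) + 1 := by
        intro w
        rw [← Finset.card_filter]
        by_cases h : w = v
        · rw [if_pos h, h]
          simp only [and_self, card_rl]
          omega
        · rw [if_neg h, zero_add, Finset.card_le_one]
          intro a ha b hb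
          simp only [mem_filter, mem_univ, true_and] at ha hb
          exact rl_co _ _ _ _ h ha.2 ha.1 hb.2 hb.1
      refine le_trans (Finset.sum_le_sum fun w _ => e3 w) ?_
      rw [Finset.sum_add_distrib]
      simp [hv]
    refine le_trans (Finset.sum_le_sum e2) ?_
    simp only [sum_const, smul_eq_mul]
    nlinarith
  by_contra hcon
  push Not at hcon
  have h1' : ∑ u, (deg u : ℤ) = q * I.card := by exact_mod_cast h1
  have h2' : ∑ u, (deg u : ℤ) ^ 2 ≤ q * I.card + (I.card : ℤ) ^ 2 := by exact_mod_cast h2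
  have h3 : ∑ u, ((q : ℤ) * deg u - I.card) ^ 2 ≤ (q : ℤ) ^ 3 * I.card := by
    have e : ∀ u, ((q : ℤ) * deg u - I.card) ^ 2
        = (q : ℤ) ^ 2 * (deg u : ℤ) ^ 2 - 2 * q * I.card * deg u + (I.card : ℤ) ^ 2 := by
      intro u; ring
    simp_rw [e]
    rw [Finset.sum_add_distrib, Finset.sum_sub_distrib, ← Finset.mul_sum, ← Finset.mul_sum, h1']
    simp only [sum_const, card_univ, Fintype.card_prod, ← hq, nsmul_eq_mul]
    push_cast
    have : (q : ℤ) ^ 2 * ∑ u, (deg u : ℤ) ^ 2 ≤ (q : ℤ) ^ 2 * (q * I.card + (I.card : ℤ) ^ 2) := by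
      gcongr
    nlinarith
  have hcon' : (q : ℤ) * (c + 1) < I.card := by exact_mod_cast hcon
  have hc' : (q : ℤ) ≤ (c : ℤ) ^ 2 := by exact_mod_cast hc
  have hq0 : (0 : ℤ) < q := by
    have : 0 < q := Fintype.card_pos
    exact_mod_cast this
  have hc0 : (0 : ℤ) ≤ c := by positivity
  have h4 : ∀ u ∈ I, ((q : ℤ) * c) ^ 2 < ((q : ℤ) * deg u - I.card) ^ 2 := by
    intro u hu
    have hd : deg u ≤ 1 := by
      simp only [hdeg]
      rw [Finset.card_le_one]
      intro a ha b hb
      simp only [mem_filter] at ha hb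
      have ea : u = a := by
        by_contra hne
        exact hI u hu a ha.1 hne ha.2
      have eb : u = b := by
        by_contra hne
        exact hI u hu b hb.1 hne hb.2
      rw [← ea, ← eb]
    have hd' : (deg u : ℤ) ≤ 1 := by exact_mod_cast hd
    have : (q : ℤ) * c < I.card - q * deg u := by nlinarith
    have h0 : (0 : ℤ) ≤ q * c := by positivity
    nlinarith
  have hne : I.Nonempty := by
    rw [← Finset.card_pos]
    omega
  have h5 : ∑ _u ∈ I, ((q : ℤ) * c) ^ 2 < ∑ u ∈ I, ((q : ℤ) * deg u - I.card) ^ 2 :=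
    Finset.sum_lt_sum_of_nonempty hne h4
  have h6 : ∑ u ∈ I, ((q : ℤ) * deg u - I.card) ^ 2 ≤ ∑ u, ((q : ℤ) * deg u - I.card) ^ 2 :=
    Finset.sum_le_sum_of_subset_of_nonneg (Finset.subset_univ _) (fun _ _ _ => sq_nonneg _)
  simp only [sum_const, nsmul_eq_mul] at h5
  have h7 : (q : ℤ) ^ 3 * I.card ≤ I.card * ((q : ℤ) * c) ^ 2 := by
    have hI0 : (0 : ℤ) ≤ I.card := by positivity
    have : (q : ℤ) ^ 3 ≤ ((q : ℤ) * c) ^ 2 := by
      have : (q : ℤ) ^ 2 * q ≤ (q : ℤ) ^ 2 * (c : ℤ) ^ 2 := by gcongr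
      nlinarith
    nlinarith
  linarith

end Pool.Agent.H443Z.Good
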