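import Pool.Agent.H443Z.Good1
import Pool.Agent.H443Z.Good2

set_option autoImplicit false

namespace Pool.Agent.H443Z.Good

open Finset

/-- a path on `n` vertices plus the edges of `k` permutations of the first `x` vertices -/
theorem exists_graph (n x k : ℕ) (hx : x ≤ n) (hx1 : 1 ≤ x) (π : Fin k → Equiv.Perm (Fin x)) :
    ∃ G : SimpleGraph (Fin n), G.Connected ∧ (∀ v : Fin n, (G.neighborSet v).ncard ≤ 2 * k + 2) ∧
      (∀ u v : Fin n, G.Adj u v → |((u : ℕ) : ℝ) - ((v : ℕ) : ℝ)| ≤ x) ∧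
      ∀ j v, v ≠ π j v → G.Adj (Fin.castLE hx v) (Fin.castLE hx (π j v)) := by
  classical
  set σ : Fin k → Equiv.Perm (Fin n) := fun j => (π j).viaEmbedding (Fin.castLEEmb hx) with hσ
  have hσ1 : ∀ j v, σ j (Fin.castLE hx v) = Fin.castLE hx (π j v) := by
    intro j v
    exact Equiv.Perm.viaEmbedding_apply (π j) (Fin.castLEEmb hx) v
  have hσ2 : ∀ j u, u ≠ σ j u → (u : ℕ) < x ∧ (σ j u : ℕ) < x := by
    intro j u hu
    by_cases h : u ∈ Set.range (Fin.castLEEmb hx)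
    · obtain ⟨v, rfl⟩ := h
      change ((Fin.castLE hx v : Fin n) : ℕ) < x ∧ ((σ j (Fin.castLE hx v) : Fin n) : ℕ) < x
      rw [hσ1]
      exact ⟨v.2, (π j v).2⟩
    · exact absurd (Equiv.Perm.viaEmbedding_apply_of_notMem (π j) _ u h).symm hu
  refine ⟨SimpleGraph.fromRel (fun u v => (u : ℕ) + 1 = v ∨ ∃ j, σ j u = v), ?_, ?_, ?_, ?_⟩
  · obtain ⟨n', rfl⟩ : ∃ n', n = n' + 1 := ⟨n - 1, by omega⟩
    refine (SimpleGraph.pathGraph_connected n').mono ?_
    intro u v huv
    rw [SimpleGraph.pathGraph_adj] at huv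
    rw [SimpleGraph.fromRel_adj]
    refine ⟨?_, ?_⟩
    · rintro rfl
      omega
    · rcases huv with h | h
      · exact Or.inl (Or.inl h)
      · exact Or.inr (Or.inl h)
  · intro v
    have hsub : (SimpleGraph.fromRel (fun u v : Fin n => (u : ℕ) + 1 = v ∨ ∃ j, σ j u = v)).neighborSet v
        ⊆ (({w : Fin n | (v : ℕ) + 1 = w} ∪ {w : Fin n | (w : ℕ) + 1 = v}) ∪
          Set.range (fun j => σ j v)) ∪ Set.range (fun j => (σ j).symm v) := by
      intro w hw
      rw [SimpleGraph.mem_neighborSet, SimpleGraph.fromRel_adj] at hw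
      rcases hw.2 with (h | ⟨j, h⟩) | (h | ⟨j, h⟩)
      · exact Or.inl (Or.inl (Or.inl h))
      · exact Or.inl (Or.inr ⟨j, h⟩)
      · exact Or.inl (Or.inl (Or.inr h))
      · exact Or.inr ⟨j, by simp [← h]⟩
    refine le_trans (Set.ncard_le_ncard hsub (Set.toFinite _)) ?_
    have h1 : {w : Fin n | (v : ℕ) + 1 = w}.ncard ≤ 1 := by
      rw [Set.ncard_le_one (Set.toFinite _)]
      intro a ha b hb
      exact Fin.ext (by simp only [Set.mem_ofPred_eq] at ha hb; omega)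
    have h2 : {w : Fin n | (w : ℕ) + 1 = v}.ncard ≤ 1 := by
      rw [Set.ncard_le_one (Set.toFinite _)]
      intro a ha b hb
      exact Fin.ext (by simp only [Set.mem_ofPred_eq] at ha hb; omega)
    have h3 : ∀ f : Fin k → Fin n, (Set.range f).ncard ≤ k := by
      intro f
      rw [← Set.image_univ]
      refine le_trans (Set.ncard_image_le (Set.toFinite _)) ?_
      simp [Set.ncard_univ]
    have h4 := Set.ncard_union_le (({w : Fin n | (v : ℕ) + 1 = w} ∪ {w : Fin n | (w : ℕ) + 1 = v}) ∪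
          Set.range (fun j => σ j v)) (Set.range (fun j => (σ j).symm v))
    have h5 := Set.ncard_union_le ({w : Fin n | (v : ℕ) + 1 = w} ∪ {w : Fin n | (w : ℕ) + 1 = v})
          (Set.range (fun j => σ j v))
    have h6 := Set.ncard_union_le {w : Fin n | (v : ℕ) + 1 = w} {w : Fin n | (w : ℕ) + 1 = v}
    have h7 := h3 (fun j => σ j v)
    have h8 := h3 (fun j => (σ j).symm v)
    omega
  · intro u v huv
    rw [SimpleGraph.fromRel_adj] at huv
    have hx1' : (1 : ℝ) ≤ x := by exact_mod_cast hx1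
    have key : ∀ a b : ℕ, a < x → b < x → |(a : ℝ) - b| ≤ x := by
      intro a b ha hb
      have ha' : (a : ℝ) < x := by exact_mod_cast ha
      have hb' : (b : ℝ) < x := by exact_mod_cast hb
      have : (0 : ℝ) ≤ a := by positivity
      have : (0 : ℝ) ≤ b := by positivity
      rw [abs_le]; constructor <;> linarith
    rcases huv.2 with (h | ⟨j, h⟩) | (h | ⟨j, h⟩)
    · have : ((v : ℕ) : ℝ) = (u : ℕ) + 1 := by exact_mod_cast h.symm
      rw [this, abs_le]; constructor <;> linarith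
    · subst h
      exact key _ _ (hσ2 j u huv.1).1 (hσ2 j u huv.1).2
    · have : ((u : ℕ) : ℝ) = (v : ℕ) + 1 := by exact_mod_cast h.symm
      rw [this, abs_le]; constructor <;> linarith
    · subst h
      exact key _ _ (hσ2 j v huv.1.symm).2 (hσ2 j v huv.1.symm).1
  · intro j v hv
    rw [SimpleGraph.fromRel_adj]
    refine ⟨fun h => hv (Fin.castLE_injective hx h), Or.inl (Or.inr ⟨j, hσ1 j v⟩)⟩

/-- The main construction. -/
theorem main (ε : ℝ) (hε : 0 < ε) : ∃ a : ℕ, ∀ n₀ : ℕ, ∃ n : ℕ, n₀ ≤ n ∧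
    ∃ G : SimpleGraph (Fin n), G.Connected ∧ (∀ v : Fin n, (G.neighborSet v).ncard ≤ 68) ∧
      (∀ u v : Fin n, G.Adj u v → |((u : ℕ) : ℝ) - ((v : ℕ) : ℝ)| ≤ ε * n) ∧
      ∀ N : ℕ, N ≤ a * (n - 1) + (a + 1) → ∃ F : SimpleGraph (Fin N),
        (¬ ∃ f : Fin n → Fin N, Function.Injective f ∧
                  ∀ u v : Fin n, G.Adj u v → F.Adj (f u) (f v)) ∧
        (¬ ∃ g : Fin (a + 1) → Fin N,
                  ∀ u v : Fin (a + 1), u ≠ v → Fᶜ.Adj (g u) (g v)) := by
  classical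
  obtain ⟨z, hz1, hz2⟩ : ∃ z : ℕ, 2 ^ 20 * 6 ^ 33 < z ∧ 1 / ε ≤ z := by
    obtain ⟨z, hz⟩ := exists_nat_ge (1 / ε)
    refine ⟨max z (2 ^ 20 * 6 ^ 33 + 1), ?_, ?_⟩
    · exact lt_of_lt_of_le (Nat.lt_succ_self _) (le_max_right _ _)
    · exact le_trans hz (by exact_mod_cast le_max_left _ _)
  have hz : 2 ≤ z := by omega
  obtain ⟨q, hq, hq1, hq2⟩ := Nat.exists_prime_lt_and_le_two_mul (16 * z ^ 8) (by positivity)
  have := Fact.mk hq
  refine ⟨12 * z ^ 4 * q, fun n₀ => ?_⟩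
  obtain ⟨m', hm'1, hm'2⟩ : ∃ m' : ℕ, 1 ≤ m' ∧ n₀ ≤ m' := ⟨n₀ + 1, by omega, by omega⟩
  have hcardK : Fintype.card (ZMod q) = q := ZMod.card q
  have hV : Fintype.card (ZMod q × ZMod q) ^ 2 * 6 ^ 33 < z ^ 33 := by
    rw [Fintype.card_prod, hcardK]
    have h1 : (q * q) ^ 2 ≤ 2 ^ 20 * z ^ 32 := by
      calc (q * q) ^ 2 ≤ ((2 * (16 * z ^ 8)) * (2 * (16 * z ^ 8))) ^ 2 := by gcongr
        _ = 2 ^ 20 * z ^ 32 := by ring
    calc (q * q) ^ 2 * 6 ^ 33 ≤ 2 ^ 20 * z ^ 32 * 6 ^ 33 := by gcongr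
      _ = (2 ^ 20 * 6 ^ 33) * z ^ 32 := by ring
      _ < z * z ^ 32 := Nat.mul_lt_mul_of_pos_right hz1 (by positivity)
      _ = z ^ 33 := by ring
  obtain ⟨π, hπ⟩ := exists_perms (rl (K := ZMod q)) rl_co z m' hz hm'1 33 (z ^ 2 * m') rfl hV
  have hzz : 1 ≤ z ^ 2 := Nat.one_le_pow _ _ (by omega)
  have hx : 2 * (z ^ 2 * m') ≤ z ^ 2 * (2 * (z ^ 2 * m')) := Nat.le_mul_of_pos_left _ hzz
  have hx1 : 1 ≤ 2 * (z ^ 2 * m') := by nlinarith
  obtain ⟨G, hG1, hG2, hG3, hG4⟩ := exists_graph _ _ 33 hx hx1 π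
  refine ⟨z ^ 2 * (2 * (z ^ 2 * m')), ?_, G, hG1, hG2, ?_, ?_⟩
  · nlinarith
  · intro u v huv
    refine le_trans (hG3 u v huv) ?_
    have h1 : 1 ≤ ε * z := by
      rw [div_le_iff₀ hε] at hz2
      linarith
    have h2 : (2 : ℝ) ≤ z := by exact_mod_cast hz
    have h3 : 1 ≤ ε * (z : ℝ) ^ 2 := by nlinarith
    have h4 : (0 : ℝ) ≤ ((2 * (z ^ 2 * m') : ℕ) : ℝ) := by positivity
    rw [Nat.cast_mul (z ^ 2), Nat.cast_pow]
    nlinarith
  · intro N hN
    have hN' : Fintype.card (Fin N) ≤ Fintype.card ((ZMod q × ZMod q) × Fin (2 * m')) := by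
      simp only [Fintype.card_fin, Fintype.card_prod, hcardK]
      have e1 : z ^ 2 * (2 * (z ^ 2 * m')) - 1 + 1 = z ^ 2 * (2 * (z ^ 2 * m')) := by omega
      have e2 : 12 * z ^ 4 * q * (z ^ 2 * (2 * (z ^ 2 * m')) - 1) + (12 * z ^ 4 * q + 1)
          = 12 * z ^ 4 * q * (z ^ 2 * (2 * (z ^ 2 * m'))) + 1 := by
        nth_rewrite 2 [← e1]
        ring
      rw [e2] at hN
      have e3 : 12 * z ^ 4 * q * (z ^ 2 * (2 * (z ^ 2 * m'))) = (12 * z ^ 8) * (q * (2 * m')) := by
        ring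
      have e4 : (12 * z ^ 8) * (q * (2 * m')) < q * (q * (2 * m')) :=
        Nat.mul_lt_mul_of_pos_right (by omega) (by have := hq.pos; positivity)
      rw [mul_assoc]
      omega
    obtain ⟨e⟩ := Function.Embedding.nonempty_of_card_le hN'
    refine ⟨SimpleGraph.fromRel (fun u v => (e u).1 = (e v).1 ∨ rl (e u).1 (e v).1), ?_, ?_⟩
    · rintro ⟨f, hf1, hf2⟩
      obtain ⟨j, v, hjv⟩ := hπ (fun v => (e (f (Fin.castLE hx v))).1) (by
        intro u
        have : (univ : Finset (Fin (2 * m'))).card = 2 * m' := by simp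
        refine le_trans ?_ this.le
        refine Finset.card_le_card_of_injOn (fun v => (e (f (Fin.castLE hx v))).2)
          (fun _ _ => by simp) ?_
        intro a ha b hb hab
        have ha' : (e (f (Fin.castLE hx a))).1 = u := (Finset.mem_filter.1 ha).2
        have hb' : (e (f (Fin.castLE hx b))).1 = u := (Finset.mem_filter.1 hb).2
        have : e (f (Fin.castLE hx a)) = e (f (Fin.castLE hx b)) :=
          Prod.ext (ha'.trans hb'.symm) hab
        exact Fin.castLE_injective hx (hf1 (e.injective this)))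
      apply hjv
      by_cases hv : v = π j v
      · left; rw [← hv]
      · have := hf2 _ _ (hG4 j v hv)
        rw [SimpleGraph.fromRel_adj] at this
        rcases this.2 with (h | h) | (h | h)
        · exact Or.inl h
        · exact Or.inr h
        · exact Or.inl h.symm
        · exact Or.inr (rl_symm h)
    · rintro ⟨g, hg⟩
      have hg' : ∀ u v, u ≠ v → (e (g u)).1 ≠ (e (g v)).1 ∧ ¬ rl (e (g u)).1 (e (g v)).1 := by
        intro u v huv
        have := hg u v huv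
        rw [SimpleGraph.compl_adj, SimpleGraph.fromRel_adj] at this
        refine ⟨fun h => this.2 ⟨this.1, Or.inl (Or.inl h)⟩, fun h => this.2 ⟨this.1, Or.inl (Or.inr h)⟩⟩
      have hinj : Function.Injective (fun u => (e (g u)).1) := by
        intro u v huv
        by_contra hne
        exact (hg' u v hne).1 huv
      have hb := indep_bound (univ.image (fun u => (e (g u)).1)) (by
        intro a ha b hb hab
        obtain ⟨u, -, rfl⟩ := Finset.mem_image.1 ha
        obtain ⟨v, -, rfl⟩ := Finset.mem_image.1 hb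
        exact (hg' u v (fun h => hab (by rw [h]))).2) (8 * z ^ 4) (by
          rw [hcardK]
          calc q ≤ 2 * (16 * z ^ 8) := hq2
            _ ≤ (8 * z ^ 4) ^ 2 := by ring_nf; omega)
      rw [Finset.card_image_of_injective _ hinj, hcardK] at hb
      simp only [card_univ, Fintype.card_fin] at hb
      have h4 : 1 ≤ z ^ 4 := Nat.one_le_pow _ _ (by omega)
      nlinarith

end Pool.Agent.H443Z.Good
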