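import Mathlib

set_option autoImplicit false

namespace Pool.Agent.H443Z.HT

open Set Topology Pointwise

variable {G X : Type*} [Group G] [MulAction G X] [TopologicalSpace X]

/-- Axioms on an action with a separation relation under which a Schottky type construction works. -/
structure Axioms (G : Type*) {X : Type*} [Group G] [MulAction G X] [TopologicalSpace X]
    (sep : Set X → Set X → Prop) : Prop where
  cont : ∀ g : G, Continuous (fun x : X => g • x)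
  t1 : T1Space X
  mono : ∀ {A B A' B' : Set X}, sep A B → A' ⊆ A → B' ⊆ B → sep A' B'
  inv : ∀ (g : G) {A B : Set X}, sep A B → sep (g • A) (g • B)
  disj : ∀ {A B : Set X}, sep A B → Disjoint A B
  closed : ∀ {A : Set X} {u : X}, IsClosed A → u ∉ A → ∃ V ∈ 𝓝 u, sep V A ∧ sep A V
  haus : ∀ {u u' : X}, u ≠ u' → ∃ A ∈ 𝓝 u', IsClosed A ∧ u ∉ A
  contr : ∀ (E : ℕ → Set X) (z : X), (∀ n, sep (E (n + 1)) (E n)ᶜ) → (∀ n, z ∈ E n) →
    ∀ W ∈ 𝓝 z, ∃ n, E n ⊆ W
  ns : ∀ {a b : X} {Wa Wb : Set X}, a ≠ b → Wa ∈ 𝓝 a → Wb ∈ 𝓝 b →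
    ∃ (x : G) (U : Set X), IsClopen U ∧ U ⊆ Wb ∧ x • Uᶜ ⊆ Wa
  fix : ∀ g : G, g ≠ 1 → {z : X | g • z = z}.Finite
  inf : ∀ W : Set X, IsOpen W → W.Nonempty → W.Infinite
  two : ∀ {a b c d : X}, a ≠ b → c ≠ d → ∃ g : G, g • a = c ∧ g • b = d

/-- the inverse letter -/
def linv (a : G × Set X) : G × Set X := (a.1⁻¹, a.1⁻¹ • a.2ᶜ)

omit [TopologicalSpace X] in
theorem linv_linv (a : G × Set X) : linv (linv a) = a := by
  obtain ⟨s, A⟩ := a
  simp [linv, ← Set.smul_set_compl]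

/-- Schottky data -/
structure Valid (sep : Set X → Set X → Prop) (p q : X) (S : Set (G × Set X)) : Prop where
  fin : S.Finite
  inv : ∀ a ∈ S, linv a ∈ S
  closed : ∀ a ∈ S, IsClosed a.2
  pair : ∀ a ∈ S, ∀ b ∈ S, a ≠ b → sep a.2 b.2
  hp : ∀ a ∈ S, p ∉ a.2
  hq : ∀ a ∈ S, q ∉ a.2

/-- the group generated by the letters -/
def grp (S : Set (G × Set X)) : Subgroup G := Subgroup.closure (Prod.fst '' S)

/-- the fundamental domain -/
def dom (S : Set (G × Set X)) : Set X := {z | ∀ a ∈ S, z ∉ a.2}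

omit [MulAction G X] [TopologicalSpace X] in
theorem grp_mono {S S' : Set (G × Set X)} (h : S ⊆ S') : grp S ≤ grp S' :=
  Subgroup.closure_mono (Set.image_mono h)

omit [MulAction G X] [TopologicalSpace X] in
theorem mem_grp {S : Set (G × Set X)} {a : G × Set X} (h : a ∈ S) : a.1 ∈ grp S :=
  Subgroup.subset_closure ⟨a, h, rfl⟩

variable {sep : Set X → Set X → Prop} {p q : X} {S : Set (G × Set X)}

theorem Valid.isOpen_dom (hS : Valid sep p q S) : IsOpen (dom S) := by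
  have : dom S = ⋂ a ∈ S, a.2ᶜ := by
    ext z; simp [dom]
  rw [this]
  exact hS.fin.isOpen_biInter fun a ha => (hS.closed a ha).isOpen_compl

open Classical in
/-- the letter whose set contains `z` -/
noncomputable def letter (S : Set (G × Set X)) (z : X) : G × Set X :=
  if h : ∃ a ∈ S, z ∈ a.2 then h.choose else (1, ∅)

omit [MulAction G X] [TopologicalSpace X] in
theorem letter_spec {z : X} (hz : z ∉ dom S) : letter S z ∈ S ∧ z ∈ (letter S z).2 := by
  have h : ∃ a ∈ S, z ∈ a.2 := by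
    by_contra h
    exact hz fun a ha hza => h ⟨a, ha, hza⟩
  simp only [letter, dif_pos h]
  exact h.choose_spec

omit [MulAction G X] [TopologicalSpace X] in
theorem letter_dom {z : X} (hz : z ∈ dom S) : letter S z = (1, ∅) := by
  have h : ¬ ∃ a ∈ S, z ∈ a.2 := fun ⟨a, ha, hza⟩ => hz a ha hza
  simp only [letter, dif_neg h]

theorem letter_eq (hA : Axioms G sep) (hS : Valid sep p q S) {z : X} {a : G × Set X} (ha : a ∈ S)
    (hz : z ∈ a.2) : letter S z = a := by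
  have hd : z ∉ dom S := fun h => h a ha hz
  obtain ⟨h1, h2⟩ := letter_spec hd
  by_contra hne
  exact Set.disjoint_left.1 (hA.disj (hS.pair _ h1 _ ha hne)) h2 hz

/-- one reduction step -/
noncomputable def red (S : Set (G × Set X)) (z : X) : X := (letter S z).1⁻¹ • z

theorem red_rel (hA : Axioms G sep) (hS : Valid sep p q S) {a : G × Set X} (ha : a ∈ S) (z : X) :
    red S (a.1 • z) = z ∨ red S z = a.1 • z := by
  by_cases h : a.1 • z ∈ a.2
  · left
    rw [red, letter_eq hA hS ha h, inv_smul_smul]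
  · right
    have h2 : z ∈ (linv a).2 := by
      simp only [linv]
      rw [Set.mem_smul_set_iff_inv_smul_mem, inv_inv]
      exact h
    rw [red, letter_eq hA hS (hS.inv a ha) h2]
    simp [linv]

theorem orbit_rel (hA : Axioms G sep) (hS : Valid sep p q S) {h : G} (hh : h ∈ grp S) :
    ∀ z : X, ∃ n m : ℕ, (red S)^[n] (h • z) = (red S)^[m] z := by
  induction hh using Subgroup.closure_induction with
  | mem x hx =>
    obtain ⟨a, ha, rfl⟩ := hx
    intro z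
    rcases red_rel hA hS ha z with h | h
    · exact ⟨1, 0, h⟩
    · exact ⟨0, 1, h.symm⟩
  | one => intro z; exact ⟨0, 0, by simp⟩
  | mul x y _ _ hx hy =>
    intro z
    obtain ⟨n, m, h1⟩ := hx (y • z)
    obtain ⟨n', m', h2⟩ := hy z
    refine ⟨n' + n, m + m', ?_⟩
    rw [mul_smul, Function.iterate_add_apply, h1, ← Function.iterate_add_apply, add_comm n' m,
      Function.iterate_add_apply, h2, ← Function.iterate_add_apply]
  | inv x _ hx =>
    intro z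
    obtain ⟨n, m, h1⟩ := hx (x⁻¹ • z)
    exact ⟨m, n, by rw [← h1, smul_inv_smul]⟩

theorem smul_ne (hA : Axioms G sep) (hS : Valid sep p q S) (hpq : p ≠ q) {h : G}
    (hh : h ∈ grp S) : h • p ≠ q := by
  intro e
  obtain ⟨n, m, h1⟩ := orbit_rel hA hS hh p
  have fp : Function.IsFixedPt (red S) p := by
    change red S p = p
    rw [red, letter_dom hS.hp]; simp
  have fq : Function.IsFixedPt (red S) q := by
    change red S q = q
    rw [red, letter_dom hS.hq]; simp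
  rw [e, (fp.iterate m).eq, (fq.iterate n).eq] at h1
  exact hpq h1.symm

/-- the itinerary of a point -/
noncomputable def word (S : Set (G × Set X)) (z : X) : ℕ → G
  | 0 => 1
  | n + 1 => word S z n * (letter S ((word S z n)⁻¹ • z)).1

theorem dense_orbit (hA : Axioms G sep) (hS : Valid sep p q S) {W : Set X} (hW : IsOpen W)
    (hne : W.Nonempty) : ∃ z ∈ W, ∃ h ∈ grp S, h • z ∈ dom S := by
  obtain ⟨z, hz⟩ := hne
  by_contra hc
  push Not at hc
  have hw : ∀ n, word S z n ∈ grp S := by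
    intro n
    induction n with
    | zero => exact one_mem _
    | succ n ih =>
      exact mul_mem ih (mem_grp (letter_spec (hc z hz _ (inv_mem ih))).1)
  set a : ℕ → G × Set X := fun n => letter S ((word S z n)⁻¹ • z) with ha
  have ha1 : ∀ n, a n ∈ S ∧ (word S z n)⁻¹ • z ∈ (a n).2 := fun n =>
    letter_spec (hc z hz _ (inv_mem (hw n)))
  have hcompl : ∀ n, (word S z n • (a n).2)ᶜ = word S z (n + 1) • (linv (a n)).2 := by
    intro n
    change _ = (word S z n * (a n).1) • ((a n).1⁻¹ • (a n).2ᶜ)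
    rw [mul_smul, smul_inv_smul, Set.smul_set_compl]
  have hz' : ∀ n, z ∈ word S z n • (a n).2 := fun n =>
    Set.mem_smul_set_iff_inv_smul_mem.2 (ha1 n).2
  obtain ⟨n, hn⟩ := hA.contr (fun n => word S z n • (a n).2) z (by
    intro n
    rw [hcompl]
    refine hA.inv _ (hS.pair _ (ha1 _).1 _ (hS.inv _ (ha1 _).1) ?_)
    intro e
    have h1 := hz' (n + 1)
    rw [e, ← hcompl] at h1
    exact h1 (hz' n)) hz' W (hW.mem_nhds hz)
  have hp : word S z (n + 1) • p ∈ word S z n • (a n).2 := by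
    by_contra h
    have h' : word S z (n + 1) • p ∈ (word S z n • (a n).2)ᶜ := h
    rw [hcompl, Set.smul_mem_smul_set_iff] at h'
    exact hS.hp _ (hS.inv _ (ha1 n).1) h'
  refine hc _ (hn hp) (word S z (n + 1))⁻¹ (inv_mem (hw _)) ?_
  rw [inv_smul_smul]
  exact hS.hp

theorem exists_open (hA : Axioms G sep) (hS : Valid sep p q S) {ι : Type*} (g : ι → G)
    (s : Finset ι) : ∃ (W : Set X) (h : ι → G), IsOpen W ∧ W.Nonempty ∧ (∀ i, h i ∈ grp S) ∧
      ∀ z ∈ W, ∀ i ∈ s, (h i * (g i)⁻¹) • z ∈ dom S := by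
  classical
  induction s using Finset.induction_on with
  | empty => exact ⟨univ, fun _ => 1, isOpen_univ, ⟨p, trivial⟩, fun _ => one_mem _, by simp⟩
  | insert j s hj ih =>
    obtain ⟨W, h, h1, h2, h3, h4⟩ := ih
    obtain ⟨z, hz, k, hk, hkz⟩ := dense_orbit hA hS (W := (fun x => g j • x) ⁻¹' W)
      (h1.preimage (hA.cont _)) (by
        obtain ⟨w, hw⟩ := h2
        exact ⟨(g j)⁻¹ • w, by simpa using hw⟩)
    refine ⟨W ∩ (fun x => (k * (g j)⁻¹) • x) ⁻¹' dom S, Function.update h j k,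
      h1.inter (hS.isOpen_dom.preimage (hA.cont _)), ⟨g j • z, hz, ?_⟩, ?_, ?_⟩
    · simpa [mul_smul] using hkz
    · intro i
      by_cases hi : i = j
      · subst hi; simpa using hk
      · rw [Function.update_of_ne hi]; exact h3 i
    · intro w hw i hi
      by_cases hij : i = j
      · subst hij; simpa using hw.2
      · rw [Function.update_of_ne hij]
        exact h4 w hw.1 i (by simpa [hij] using hi)

theorem pick (hA : Axioms G sep) (hS : Valid sep p q S) {ι : Type*} [Fintype ι] (g : ι → G)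
    (hg : ∀ i j, i ≠ j → (g i)⁻¹ * g j ∉ grp S) (E : Set X) (hE : E.Finite) :
    ∃ (z : X) (h : ι → G), z ∉ E ∧ (∀ i, h i ∈ grp S) ∧
      (∀ i, (h i * (g i)⁻¹) • z ∈ dom S ∧ (h i * (g i)⁻¹) • z ∉ E) ∧
      Function.Injective (fun i => (h i * (g i)⁻¹) • z) := by
  classical
  obtain ⟨W, h, h1, h2, h3, h4⟩ := exists_open hA hS g Finset.univ
  have hfin : (E ∪ (⋃ i, (h i * (g i)⁻¹)⁻¹ • E) ∪
      ⋃ ij : {ij : ι × ι // ij.1 ≠ ij.2},
        {z : X | ((h ij.1.1 * (g ij.1.1)⁻¹)⁻¹ * (h ij.1.2 * (g ij.1.2)⁻¹)) • z = z}).Finite := by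
    refine (hE.union (Set.finite_iUnion fun i => hE.smul_set)).union
      (Set.finite_iUnion fun ij => hA.fix _ ?_)
    intro e
    apply hg _ _ ij.2
    have e2 : h ij.1.1 * (g ij.1.1)⁻¹ = h ij.1.2 * (g ij.1.2)⁻¹ := inv_mul_eq_one.1 e
    have e3 : (g ij.1.1)⁻¹ * g ij.1.2 = (h ij.1.1)⁻¹ * h ij.1.2 := by
      calc (g ij.1.1)⁻¹ * g ij.1.2 = (h ij.1.1)⁻¹ * (h ij.1.1 * (g ij.1.1)⁻¹) * g ij.1.2 := by group
        _ = (h ij.1.1)⁻¹ * h ij.1.2 := by rw [e2]; group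
    rw [e3]
    exact mul_mem (inv_mem (h3 _)) (h3 _)
  obtain ⟨z, hzW, hz⟩ := (hA.inf W h1 h2).exists_notMem_finite hfin
  simp only [Set.mem_union, Set.mem_iUnion, not_or, not_exists] at hz
  refine ⟨z, h, hz.1.1, h3, fun i => ⟨h4 z hzW i (Finset.mem_univ _), fun hi => hz.1.2 i ?_⟩, ?_⟩
  · rw [Set.mem_smul_set_iff_inv_smul_mem, inv_inv]; exact hi
  · intro i j hij
    by_contra hne
    apply hz.2 ⟨(i, j), hne⟩
    change ((h i * (g i)⁻¹)⁻¹ * (h j * (g j)⁻¹)) • z = z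
    rw [mul_smul, inv_smul_eq_iff]
    exact hij.symm

theorem nbhds (hA : Axioms G sep) (hS : Valid sep p q S) {Λ : Type*} [Finite Λ] (u : Λ → X)
    (hu : Function.Injective u) (hd : ∀ l, u l ∈ dom S) (hp : ∀ l, u l ≠ p) (hq : ∀ l, u l ≠ q) :
    ∃ V : Λ → Set X, (∀ l, V l ∈ 𝓝 (u l)) ∧ (∀ l m, l ≠ m → sep (V l) (V m)) ∧
      (∀ l, ∀ a ∈ S, sep (V l) a.2 ∧ sep a.2 (V l)) ∧ (∀ l, p ∉ V l ∧ q ∉ V l) := by
  have := hA.t1
  have h1 : ∀ l m : Λ, ∃ W W' : Set X, W ∈ 𝓝 (u l) ∧ W' ∈ 𝓝 (u m) ∧ (l ≠ m → sep W W') := by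
    intro l m
    by_cases h : l = m
    · exact ⟨univ, univ, Filter.univ_mem, Filter.univ_mem, fun h' => absurd h h'⟩
    · obtain ⟨A, hA1, hA2, hA3⟩ := hA.haus (hu.ne h)
      obtain ⟨V, hV1, hV2, -⟩ := hA.closed hA2 hA3
      exact ⟨V, A, hV1, hA1, fun _ => hV2⟩
  choose W W' hW hW' hWW using h1
  have h2 : ∀ (l : Λ) (a : S), ∃ Y ∈ 𝓝 (u l), sep Y a.1.2 ∧ sep a.1.2 Y := fun l a =>
    hA.closed (hS.closed _ a.2) (hd l _ a.2)
  choose Y hY hYY using h2
  have : Finite S := hS.fin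
  refine ⟨fun l => (((⋂ m, W l m) ∩ ⋂ m, W' m l) ∩ ⋂ a, Y l a) ∩ ({p}ᶜ ∩ {q}ᶜ), ?_, ?_, ?_, ?_⟩
  · intro l
    refine Filter.inter_mem (Filter.inter_mem (Filter.inter_mem ?_ ?_) ?_) (Filter.inter_mem ?_ ?_)
    · exact Filter.iInter_mem.2 fun m => hW l m
    · exact Filter.iInter_mem.2 fun m => hW' m l
    · exact Filter.iInter_mem.2 fun a => hY l a
    · exact compl_singleton_mem_nhds (hp l)
    · exact compl_singleton_mem_nhds (hq l)
  · intro l m h
    refine hA.mono (hWW l m h) ?_ ?_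
    · intro z hz; exact Set.mem_iInter.1 hz.1.1.1 m
    · intro z hz; exact Set.mem_iInter.1 hz.1.1.2 l
  · intro l a ha
    refine ⟨hA.mono (hYY l ⟨a, ha⟩).1 ?_ subset_rfl, hA.mono (hYY l ⟨a, ha⟩).2 subset_rfl ?_⟩
    · intro z hz; exact Set.mem_iInter.1 hz.1.2 ⟨a, ha⟩
    · intro z hz; exact Set.mem_iInter.1 hz.1.2 ⟨a, ha⟩
  · intro l
    exact ⟨fun h => h.2.1 rfl, fun h => h.2.2 rfl⟩

theorem isClosed_smul (hA : Axioms G sep) (g : G) {A : Set X} (h : IsClosed A) :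
    IsClosed (g • A) := by
  have : g • A = (fun x => g⁻¹ • x) ⁻¹' A := by
    ext z; exact Set.mem_smul_set_iff_inv_smul_mem
  rw [this]
  exact h.preimage (hA.cont _)

theorem step (hA : Axioms G sep) (hS : Valid sep p q S) {ι : Type*} [Fintype ι] (g g' : ι → G)
    (hg : ∀ i j, i ≠ j → (g i)⁻¹ * g j ∉ grp S) (hg' : ∀ i j, i ≠ j → (g' i)⁻¹ * g' j ∉ grp S) :
    ∃ S' : Set (G × Set X), Valid sep p q S' ∧ S ⊆ S' ∧
      ∃ x : G, ∀ i, (g' i)⁻¹ * x * g i ∈ grp S' := by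
  classical
  obtain ⟨z, h, -, h2, h3, h4⟩ := pick hA hS g hg {p, q} (Set.toFinite _)
  obtain ⟨z', h', h1', h2', h3', h4'⟩ := pick hA hS g' hg'
    ({p, q, z} ∪ Set.range (fun i => (h i * (g i)⁻¹) • z)) ((Set.toFinite _).union (Set.finite_range _))
  set c : ι → G := fun i => h i * (g i)⁻¹ with hc
  set c' : ι → G := fun i => h' i * (g' i)⁻¹ with hc'
  set u : ι ⊕ ι → X := Sum.elim (fun i => c i • z) (fun i => c' i • z') with hu
  have huinj : Function.Injective u := by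
    refine h4.sumElim h4' ?_
    intro i j e
    exact (h3' j).2 (Or.inr ⟨i, e⟩)
  obtain ⟨V, hV1, hV2, hV3, hV4⟩ := nbhds hA hS u huinj
    (by rintro (i | i); exacts [(h3 i).1, (h3' i).1])
    (by
      rintro (i | i) e
      · exact (h3 i).2 (Or.inl e)
      · exact (h3' i).2 (Or.inl (Or.inl e)))
    (by
      rintro (i | i) e
      · exact (h3 i).2 (Or.inr e)
      · exact (h3' i).2 (Or.inl (Or.inr (Or.inl e))))
  have hzz : z' ≠ z := fun e => h1' (Or.inl (Or.inr (Or.inr e)))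
  obtain ⟨x, U, hU1, hU2, hU3⟩ := hA.ns (Wa := ⋂ i, (fun y => c' i • y) ⁻¹' V (Sum.inr i))
    (Wb := ⋂ i, (fun y => c i • y) ⁻¹' V (Sum.inl i)) hzz
    (Filter.iInter_mem.2 fun i => (hA.cont _).continuousAt.preimage_mem_nhds (hV1 (Sum.inr i)))
    (Filter.iInter_mem.2 fun i => (hA.cont _).continuousAt.preimage_mem_nhds (hV1 (Sum.inl i)))
  set ℓ : ι ⊕ ι → G × Set X := Sum.elim (fun i => ((c' i * x * (c i)⁻¹)⁻¹, c i • U))
    (fun i => (c' i * x * (c i)⁻¹, c' i • x • Uᶜ)) with hℓ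
  have hl1 : ∀ i, linv (ℓ (Sum.inl i)) = ℓ (Sum.inr i) := by
    intro i
    simp only [hℓ, linv, Sum.elim_inl, Sum.elim_inr, inv_inv, ← Set.smul_set_compl, mul_smul,
      inv_smul_smul]
  have hl2 : ∀ l, (ℓ l).2 ⊆ V l := by
    rintro (i | i)
    · rintro _ ⟨y, hy, rfl⟩
      exact Set.mem_iInter.1 (hU2 hy) i
    · rintro _ ⟨y, hy, rfl⟩
      exact Set.mem_iInter.1 (hU3 hy) i
  refine ⟨S ∪ Set.range ℓ, ⟨hS.fin.union (Set.finite_range _), ?_, ?_, ?_, ?_, ?_⟩,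
    Set.subset_union_left, x, ?_⟩
  · rintro a (ha | ⟨i | i, rfl⟩)
    · exact Or.inl (hS.inv a ha)
    · exact Or.inr ⟨Sum.inr i, (hl1 i).symm⟩
    · exact Or.inr ⟨Sum.inl i, by rw [← hl1 i, linv_linv]⟩
  · rintro a (ha | ⟨i | i, rfl⟩)
    · exact hS.closed a ha
    · exact isClosed_smul hA _ hU1.isClosed
    · exact isClosed_smul hA _ (isClosed_smul hA _ hU1.compl.isClosed)
  · rintro a (ha | ⟨l, rfl⟩) b (hb | ⟨m, rfl⟩) hab
    · exact hS.pair a ha b hb hab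
    · exact hA.mono (hV3 m a ha).2 subset_rfl (hl2 m)
    · exact hA.mono (hV3 l b hb).1 (hl2 l) subset_rfl
    · exact hA.mono (hV2 l m (fun e => hab (by rw [e]))) (hl2 l) (hl2 m)
  · rintro a (ha | ⟨l, rfl⟩)
    · exact hS.hp a ha
    · exact fun h => (hV4 l).1 (hl2 l h)
  · rintro a (ha | ⟨l, rfl⟩)
    · exact hS.hq a ha
    · exact fun h => (hV4 l).2 (hl2 l h)
  · intro i
    have m1 : c' i * x * (c i)⁻¹ ∈ grp (S ∪ Set.range ℓ) :=
      mem_grp (a := ℓ (Sum.inr i)) (Or.inr ⟨_, rfl⟩)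
    have m2 : h i ∈ grp (S ∪ Set.range ℓ) := grp_mono Set.subset_union_left (h2 i)
    have m3 : h' i ∈ grp (S ∪ Set.range ℓ) := grp_mono Set.subset_union_left (h2' i)
    have e : (g' i)⁻¹ * x * g i = (h' i)⁻¹ * (c' i * x * (c i)⁻¹) * h i := by
      simp only [hc, hc']; group
    rw [e]
    exact mul_mem (mul_mem (inv_mem m3) m1) m2

theorem exists_subgroup [Countable G] (hA : Axioms G sep) (hpq : p ≠ q) :
    ∃ H : Subgroup G, FaithfulSMul G (G ⧸ H) ∧
      ∀ k : ℕ, MulAction.IsMultiplyPretransitive G (G ⧸ H) k := by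
  classical
  obtain ⟨e, he⟩ := exists_surjective_nat (Σ k : ℕ, (Fin k → G) × (Fin k → G))
  have hstep : ∀ (s : {S : Set (G × Set X) // Valid sep p q S})
      (τ : Σ k : ℕ, (Fin k → G) × (Fin k → G)), ∃ s' : {S : Set (G × Set X) // Valid sep p q S},
      s.1 ⊆ s'.1 ∧ ((∀ i j, i ≠ j → (τ.2.1 i)⁻¹ * τ.2.1 j ∉ grp s.1) →
        (∀ i j, i ≠ j → (τ.2.2 i)⁻¹ * τ.2.2 j ∉ grp s.1) →
        ∃ x : G, ∀ i, (τ.2.2 i)⁻¹ * x * τ.2.1 i ∈ grp s'.1) := by
    intro s τ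
    by_cases h : (∀ i j, i ≠ j → (τ.2.1 i)⁻¹ * τ.2.1 j ∉ grp s.1) ∧
        (∀ i j, i ≠ j → (τ.2.2 i)⁻¹ * τ.2.2 j ∉ grp s.1)
    · obtain ⟨S', h1, h2, h3⟩ := step hA s.2 τ.2.1 τ.2.2 h.1 h.2
      exact ⟨⟨S', h1⟩, h2, fun _ _ => h3⟩
    · exact ⟨s, subset_rfl, fun h1 h2 => absurd ⟨h1, h2⟩ h⟩
  choose f hf1 hf2 using hstep
  let s : ℕ → {S : Set (G × Set X) // Valid sep p q S} := fun n =>
    Nat.rec ⟨∅, ⟨Set.finite_empty, by simp, by simp, by simp, by simp, by simp⟩⟩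
      (fun n s => f s (e n)) n
  have hs : ∀ n, s (n + 1) = f (s n) (e n) := fun n => rfl
  have hmono : Monotone (fun n => grp (s n).1) :=
    monotone_nat_of_le_succ fun n => grp_mono (by rw [hs]; exact hf1 _ _)
  set H : Subgroup G := ⨆ n, grp (s n).1 with hH
  have hmem : ∀ h, h ∈ H ↔ ∃ n, h ∈ grp (s n).1 := fun h =>
    Subgroup.mem_iSup_of_directed hmono.directed_le
  refine ⟨H, ?_, ?_⟩
  · rw [faithfulSMul_iff]
    intro g hg
    by_contra hne
    obtain ⟨u, -, hu⟩ := (hA.inf univ isOpen_univ ⟨p, trivial⟩).exists_notMem_finite (hA.fix g hne)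
    obtain ⟨y, hy1, hy2⟩ := hA.two hpq (c := u) (d := g • u) (fun e => hu e.symm)
    have h1 := hg (y : G ⧸ H)
    rw [MulAction.Quotient.smul_coe, eq_comm, QuotientGroup.eq, hmem] at h1
    obtain ⟨n, hn⟩ := h1
    apply smul_ne hA (s n).2 hpq hn
    rw [smul_eq_mul, mul_smul, mul_smul, hy1, ← hy2, inv_smul_smul]
  · intro k
    rw [MulAction.isMultiplyPretransitive_iff]
    intro x y
    obtain ⟨n, hn⟩ := he ⟨k, fun i => (x i).out, fun i => (y i).out⟩
    have key : ∀ w : Fin k ↪ G ⧸ H, ∀ i j, i ≠ j → ((w i).out)⁻¹ * (w j).out ∉ grp (s n).1 := by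
      intro w i j hij hm
      apply hij
      apply w.injective
      rw [← QuotientGroup.out_eq' (w i), ← QuotientGroup.out_eq' (w j), QuotientGroup.eq, hmem]
      exact ⟨n, hm⟩
    have h2 := hf2 (s n) (e n)
    rw [← hs, hn] at h2
    obtain ⟨g, hg⟩ := h2 (key x) (key y)
    refine ⟨g, ?_⟩
    ext i
    rw [Function.Embedding.smul_apply, ← QuotientGroup.out_eq' (x i), ← QuotientGroup.out_eq' (y i),
      MulAction.Quotient.smul_coe, eq_comm, QuotientGroup.eq, hmem]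
    refine ⟨n + 1, ?_⟩
    rw [smul_eq_mul, ← mul_assoc]
    exact hg i

end Pool.Agent.H443Z.HT
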