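import Mathlib

set_option autoImplicit false

namespace Pool.Agent.H443Z.HT

open Set OnePoint Matrix
open scoped MatrixGroups Pointwise

variable {F : Type*} [Field F] [DecidableEq F]

/-- affine map `y ↦ a y + b` -/
noncomputable def aff (a b : F) (ha : a ≠ 0) : GL (Fin 2) F :=
  Matrix.GeneralLinearGroup.mkOfDetNeZero !![a, b; 0, 1] (by simpa [Matrix.det_fin_two] using ha)

/-- the inversion `y ↦ 1 / y` -/
noncomputable def io : GL (Fin 2) F :=
  Matrix.GeneralLinearGroup.mkOfDetNeZero !![0, 1; 1, 0] (by simp [Matrix.det_fin_two])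

theorem aff_coe (a b : F) (ha : a ≠ 0) (y : F) :
    aff a b ha • (y : OnePoint F) = ((a * y + b : F) : OnePoint F) := by
  simp [aff, smul_some_eq_ite]

theorem aff_infty (a b : F) (ha : a ≠ 0) : aff a b ha • (∞ : OnePoint F) = ∞ := by
  simp [aff, smul_infty_eq_ite]

theorem io_infty : (io : GL (Fin 2) F) • (∞ : OnePoint F) = ((0 : F) : OnePoint F) := by
  simp [io, smul_infty_eq_ite]

theorem io_zero : (io : GL (Fin 2) F) • ((0 : F) : OnePoint F) = ∞ := by
  simp [io, smul_some_eq_ite]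

theorem io_coe {y : F} (hy : y ≠ 0) :
    (io : GL (Fin 2) F) • (y : OnePoint F) = ((y⁻¹ : F) : OnePoint F) := by
  simp [io, smul_some_eq_ite, hy]

theorem exists_infty (a : OnePoint F) : ∃ g : GL (Fin 2) F, g • (∞ : OnePoint F) = a := by
  cases a with
  | infty => exact ⟨1, one_smul _ _⟩
  | coe y => exact ⟨aff 1 y one_ne_zero * io, by rw [mul_smul, io_infty, aff_coe]; simp⟩

theorem exists_three {a b c : OnePoint F} (hab : a ≠ b) (hac : a ≠ c) (hbc : b ≠ c) :
    ∃ g : GL (Fin 2) F, g • (∞ : OnePoint F) = a ∧ g • ((0 : F) : OnePoint F) = b ∧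
      g • ((1 : F) : OnePoint F) = c := by
  obtain ⟨g, rfl⟩ := exists_infty a
  obtain ⟨b', hb'⟩ : ∃ b' : F, g⁻¹ • b = b' := by
    cases h : g⁻¹ • b with
    | infty => exact absurd (by rw [← h, smul_inv_smul]) hab
    | coe y => exact ⟨y, rfl⟩
  obtain ⟨c', hc'⟩ : ∃ c' : F, g⁻¹ • c = c' := by
    cases h : g⁻¹ • c with
    | infty => exact absurd (by rw [← h, smul_inv_smul]) hac
    | coe y => exact ⟨y, rfl⟩
  have hne : c' - b' ≠ 0 := by
    intro e
    apply hbc
    have : c' = b' := sub_eq_zero.1 e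
    rw [this, ← hb'] at hc'
    exact (smul_left_cancel _ hc').symm
  refine ⟨g * aff (c' - b') b' hne, ?_, ?_, ?_⟩
  · rw [mul_smul, aff_infty]
  · rw [mul_smul, aff_coe, mul_zero, zero_add, ← hb', smul_inv_smul]
  · rw [mul_smul, aff_coe, mul_one, sub_add_cancel, ← hc', smul_inv_smul]

theorem exists_two {a b : OnePoint F} (hab : a ≠ b) :
    ∃ g : GL (Fin 2) F, g • (∞ : OnePoint F) = a ∧ g • ((0 : F) : OnePoint F) = b := by
  obtain ⟨g, rfl⟩ := exists_infty a
  obtain ⟨b', hb'⟩ : ∃ b' : F, g⁻¹ • b = b' := by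
    cases h : g⁻¹ • b with
    | infty => exact absurd (by rw [← h, smul_inv_smul]) hab
    | coe y => exact ⟨y, rfl⟩
  refine ⟨g * aff 1 b' one_ne_zero, ?_, ?_⟩
  · rw [mul_smul, aff_infty]
  · rw [mul_smul, aff_coe, mul_zero, zero_add, ← hb', smul_inv_smul]

theorem exists_zero (b : OnePoint F) : ∃ g : GL (Fin 2) F, g • ((0 : F) : OnePoint F) = b := by
  obtain ⟨g, hg⟩ := exists_infty b
  exact ⟨g * io, by rw [mul_smul, io_zero, hg]⟩

theorem mk_eq_one_of_fix {g : GL (Fin 2) F} (h1 : g • (∞ : OnePoint F) = ∞)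
    (h2 : g • ((0 : F) : OnePoint F) = ((0 : F) : OnePoint F))
    (h3 : g • ((1 : F) : OnePoint F) = ((1 : F) : OnePoint F)) :
    ProjGenLinGroup.mk g = 1 := by
  rw [smul_infty_eq_self_iff] at h1
  have hd := g.det_ne_zero
  rw [Matrix.det_fin_two] at hd
  have h11 : g 1 1 ≠ 0 := by
    intro e
    apply hd
    simp [h1, e]
  rw [smul_some_eq_ite] at h2 h3
  simp only [h1, mul_zero, zero_add, h11, if_false, coe_eq_coe, div_eq_zero_iff, or_false,
    mul_one] at h2 h3
  rw [h2, add_zero, div_eq_one_iff_eq h11] at h3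
  have : g = Matrix.GeneralLinearGroup.scalar (Fin 2) (Units.mk0 (g 1 1) h11) := by
    ext i j
    fin_cases i <;> fin_cases j <;> simp [h1, h2, h3]
  rw [this, ProjGenLinGroup.mk_scalar]

theorem scalar_smul (u : Fˣ) (a : OnePoint F) :
    Matrix.GeneralLinearGroup.scalar (Fin 2) u • a = a := by
  cases a with
  | infty => simp [smul_infty_eq_ite]
  | coe y => simp [smul_some_eq_ite]

/-- the action of `PGL(2, F)` on the projective line -/
@[instance_reducible]
noncomputable def pglAction : MulAction PGL(2, F) (OnePoint F) :=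
  ProjGenLinGroup.mulActionOfGL scalar_smul

attribute [local instance] pglAction

theorem mk_smul' (g : GL (Fin 2) F) (a : OnePoint F) : ProjGenLinGroup.mk g • a = g • a := rfl

theorem eq_one_of_fix (g : PGL(2, F)) {a b c : OnePoint F} (hab : a ≠ b) (hac : a ≠ c) (hbc : b ≠ c)
    (h1 : g • a = a) (h2 : g • b = b) (h3 : g • c = c) : g = 1 := by
  induction g using ProjGenLinGroup.induction_on with | mk g =>
  obtain ⟨β, rfl, rfl, rfl⟩ := exists_three hab hac hbc
  rw [mk_smul'] at h1 h2 h3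
  have := mk_eq_one_of_fix (g := β⁻¹ * g * β) (by rw [mul_smul, mul_smul, h1, inv_smul_smul])
    (by rw [mul_smul, mul_smul, h2, inv_smul_smul]) (by rw [mul_smul, mul_smul, h3, inv_smul_smul])
  rw [map_mul, map_mul, map_inv] at this
  calc ProjGenLinGroup.mk g = ProjGenLinGroup.mk β * ((ProjGenLinGroup.mk β)⁻¹ * ProjGenLinGroup.mk g
      * ProjGenLinGroup.mk β) * (ProjGenLinGroup.mk β)⁻¹ := by group
    _ = 1 := by rw [this]; group

theorem finite_fix (g : PGL(2, F)) (hg : g ≠ 1) : {z : OnePoint F | g • z = z}.Finite := by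
  classical
  by_contra h
  have h' : {z : OnePoint F | g • z = z}.Infinite := h
  obtain ⟨t, ht, hc⟩ := h'.exists_subset_card_eq 3
  obtain ⟨a, b, c, hab, hac, hbc, rfl⟩ := Finset.card_eq_three.1 hc
  exact hg (eq_one_of_fix g hab hac hbc (ht (by simp)) (ht (by simp)) (ht (by simp)))

theorem faithful_pgl : FaithfulSMul PGL(2, F) (OnePoint F) := by
  rw [faithfulSMul_iff]
  intro g hg
  exact eq_one_of_fix g (a := ∞) (b := ((0 : F) : OnePoint F)) (c := ((1 : F) : OnePoint F))
    (by simp) (by simp) (by simp) (hg _) (hg _) (hg _)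

theorem three_trans : MulAction.IsMultiplyPretransitive PGL(2, F) (OnePoint F) 3 := by
  rw [MulAction.isMultiplyPretransitive_iff]
  intro x y
  obtain ⟨g, g1, g2, g3⟩ := exists_three (x.injective.ne (show (0 : Fin 3) ≠ 1 by decide))
    (x.injective.ne (show (0 : Fin 3) ≠ 2 by decide)) (x.injective.ne (show (1 : Fin 3) ≠ 2 by decide))
  obtain ⟨h, h1, h2, h3⟩ := exists_three (y.injective.ne (show (0 : Fin 3) ≠ 1 by decide))
    (y.injective.ne (show (0 : Fin 3) ≠ 2 by decide)) (y.injective.ne (show (1 : Fin 3) ≠ 2 by decide))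
  refine ⟨ProjGenLinGroup.mk (h * g⁻¹), ?_⟩
  ext i
  rw [Function.Embedding.smul_apply, mk_smul', mul_smul]
  fin_cases i
  · simp [← g1, h1]
  · simp [← g2, h2]
  · simp [← g3, h3]

theorem infinite_pgl [Infinite F] : Infinite PGL(2, F) := by
  refine Infinite.of_injective (fun b : F => ProjGenLinGroup.mk (aff 1 b one_ne_zero)) ?_
  intro b c h
  have : ProjGenLinGroup.mk (aff 1 b one_ne_zero) • ((0 : F) : OnePoint F)
      = ProjGenLinGroup.mk (aff 1 c one_ne_zero) • ((0 : F) : OnePoint F) := by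
    rw [show ProjGenLinGroup.mk (aff 1 b one_ne_zero) = ProjGenLinGroup.mk (aff 1 c one_ne_zero)
      from h]
  rw [mk_smul', mk_smul', aff_coe, aff_coe] at this
  simpa using this

omit [DecidableEq F] in
theorem countable_pgl [Countable F] : Countable PGL(2, F) := by
  have : Countable (Matrix (Fin 2) (Fin 2) F) := inferInstanceAs (Countable (Fin 2 → Fin 2 → F))
  have : Countable (GL (Fin 2) F) := Units.val_injective.countable
  exact ProjGenLinGroup.mk_surjective.countable

end Pool.Agent.H443Z.HT
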