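import Pool.Agent.H443Z.HT1
import Pool.Agent.H443Z.HT2

set_option autoImplicit false

namespace Pool.Agent.H443Z.HT

open Set OnePoint Matrix Topology
open scoped MatrixGroups Pointwise

variable {F : Type*} [Field F] [DecidableEq F] {Γ : Type*} [LinearOrderedCommGroupWithZero Γ]

/-- image of a closed disc -/
def disc (v : Valuation F Γ) (g : GL (Fin 2) F) (r : Γ) : Set (OnePoint F) :=
  {z | ∃ y : F, v y ≤ r ∧ z = g • (y : OnePoint F)}

variable {v : Valuation F Γ}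

theorem disc_mono (g : GL (Fin 2) F) {r s : Γ} (h : r ≤ s) : disc v g r ⊆ disc v g s := by
  rintro _ ⟨y, hy, rfl⟩
  exact ⟨y, hy.trans h, rfl⟩

theorem zero_mem_disc (g : GL (Fin 2) F) (r : Γ) : g • ((0 : F) : OnePoint F) ∈ disc v g r :=
  ⟨0, by simp, rfl⟩

theorem smul_disc (h g : GL (Fin 2) F) (r : Γ) : h • disc v g r = disc v (h * g) r := by
  ext z
  constructor
  · rintro ⟨_, ⟨y, hy, rfl⟩, rfl⟩
    exact ⟨y, hy, (mul_smul _ _ _).symm⟩
  · rintro ⟨y, hy, rfl⟩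
    exact ⟨_, ⟨y, hy, rfl⟩, (mul_smul _ _ _).symm⟩

theorem disc_aff (g : GL (Fin 2) F) {c : F} (hc : c ≠ 0) (r : Γ) :
    disc v (g * aff c 0 hc) r = disc v g (v c * r) := by
  have hvc : v c ≠ 0 := by simpa using hc
  ext z
  constructor
  · rintro ⟨y, hy, rfl⟩
    refine ⟨c * y, ?_, by rw [mul_smul, aff_coe, add_zero]⟩
    rw [map_mul]
    gcongr
  · rintro ⟨y, hy, rfl⟩
    refine ⟨c⁻¹ * y, ?_, by rw [mul_smul, aff_coe, add_zero, mul_inv_cancel_left₀ hc]⟩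
    rw [map_mul, map_inv₀, inv_mul_le_iff₀ (zero_lt_iff.2 hvc)]
    exact hy

theorem smul_near (g : GL (Fin 2) F) (y : F) (h : v (g 1 0 * y) < v (g 1 1)) :
    ∃ y' : F, g • (y : OnePoint F) = y' ∧
      v (y' - g 0 1 / g 1 1) = v y * v ((g : Matrix (Fin 2) (Fin 2) F).det / g 1 1 ^ 2) := by
  have hδ : g 1 1 ≠ 0 := by
    intro e
    rw [e, map_zero] at h
    exact not_lt_zero h
  have hv : v (g 1 0 * y + g 1 1) = v (g 1 1) := v.map_add_eq_of_lt_right h
  have hne : g 1 0 * y + g 1 1 ≠ 0 := by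
    intro e
    rw [e, map_zero] at hv
    exact hδ (by simpa using hv.symm)
  refine ⟨(g 0 0 * y + g 0 1) / (g 1 0 * y + g 1 1), by rw [smul_some_eq_ite, if_neg hne], ?_⟩
  have e : (g 0 0 * y + g 0 1) / (g 1 0 * y + g 1 1) - g 0 1 / g 1 1
      = y * (g : Matrix (Fin 2) (Fin 2) F).det / ((g 1 0 * y + g 1 1) * g 1 1) := by
    rw [Matrix.det_fin_two, div_sub_div _ _ hne hδ]
    congr 1
    ring
  rw [e, map_div₀, map_mul, map_mul, hv, map_div₀, map_pow, sq, mul_div_assoc]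

theorem zero_img {g : GL (Fin 2) F} {y₀ : F} (h : g • ((0 : F) : OnePoint F) = y₀) :
    g 1 1 ≠ 0 ∧ y₀ = g 0 1 / g 1 1 := by
  rw [smul_some_eq_ite] at h
  simp only [mul_zero, zero_add] at h
  split_ifs at h with h1
  · exact absurd h (infty_ne_coe _)
  · exact ⟨h1, (coe_eq_coe.1 h).symm⟩

theorem io_io (w : OnePoint F) : (io : GL (Fin 2) F) • (io : GL (Fin 2) F) • w = w := by
  cases w with
  | infty => rw [io_infty, io_zero]
  | coe y =>
    by_cases h : y = 0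
    · rw [h, io_zero, io_infty]
    · rw [io_coe h, io_coe (inv_ne_zero h), inv_inv]

theorem notMem_disc_iff (g : GL (Fin 2) F) {r : Γ} (hr : r ≠ 0) (z : OnePoint F) :
    z ∉ disc v g r ↔ ∃ y : F, v y < r⁻¹ ∧ z = (g * io) • (y : OnePoint F) := by
  have hr' : 0 < r := zero_lt_iff.2 hr
  constructor
  · intro h
    cases hw : g⁻¹ • z with
    | infty =>
      exact ⟨0, by simpa using hr', by rw [mul_smul, io_zero, ← hw, smul_inv_smul]⟩
    | coe y =>
      have hy : r < v y := by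
        by_contra hc
        exact h ⟨y, not_lt.1 hc, by rw [← hw, smul_inv_smul]⟩
      have hy0 : y ≠ 0 := by
        rintro rfl
        simp at hy
      refine ⟨y⁻¹, ?_, ?_⟩
      · rw [map_inv₀]
        exact inv_strictAnti₀ hr' hy
      · rw [mul_smul, io_coe (inv_ne_zero hy0), inv_inv, ← hw, smul_inv_smul]
  · rintro ⟨y, hy, rfl⟩ ⟨y', hy', e⟩
    rw [mul_smul, smul_left_cancel_iff] at e
    by_cases h : y = 0
    · rw [h, io_zero] at e
      exact infty_ne_coe _ e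
    · rw [io_coe h, coe_eq_coe] at e
      rw [← e, map_inv₀] at hy'
      have h0 : 0 < v y := zero_lt_iff.2 (by simpa using h)
      have := inv_strictAnti₀ h0 hy
      rw [inv_inv] at this
      exact absurd hy' (not_le.2 this)

theorem key_contr (g : GL (Fin 2) F) {c : F} {r τ : Γ} (hτ : τ ≤ 1)
    (h : disc v g 1 ⊆ disc v (aff 1 c one_ne_zero) r) :
    ∃ c' : F, disc v g τ ⊆ disc v (aff 1 c' one_ne_zero) (τ * r) := by
  have h' : ∀ y : F, v y ≤ 1 → ∃ y' : F, g • (y : OnePoint F) = y' ∧ v (y' - c) ≤ r := by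
    intro y hy
    obtain ⟨w, hw, e⟩ := h ⟨y, hy, rfl⟩
    rw [aff_coe] at e
    exact ⟨_, e, by simpa using hw⟩
  obtain ⟨y₀, e₀, h₀⟩ := h' 0 (by simp)
  obtain ⟨hδ, rfl⟩ := zero_img e₀
  have hγ : v (g 1 0) < v (g 1 1) := by
    by_contra hc
    have hc' : v (g 1 1) ≤ v (g 1 0) := not_lt.1 hc
    have hγ0 : g 1 0 ≠ 0 := by
      intro e
      rw [e, map_zero, le_zero_iff] at hc'
      exact hδ (by simpa using hc')
    obtain ⟨y', e', -⟩ := h' (-(g 1 1) / g 1 0) (by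
      rw [map_div₀, Valuation.map_neg]
      exact div_le_one_of_le₀ hc' zero_le)
    rw [smul_some_eq_ite, if_pos (by field_simp; ring)] at e'
    exact infty_ne_coe _ e'
  have hsm : ∀ y : F, v y ≤ 1 → v (g 1 0 * y) < v (g 1 1) := by
    intro y hy
    rw [map_mul]
    exact lt_of_le_of_lt (mul_le_of_le_one_right' hy) hγ
  obtain ⟨y₁, e₁, h₁⟩ := h' 1 (by simp)
  obtain ⟨y₁', e₁', h₁'⟩ := smul_near g 1 (hsm 1 (by simp))
  rw [e₁, coe_eq_coe] at e₁'
  subst e₁'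
  have hD : v ((g : Matrix (Fin 2) (Fin 2) F).det / g 1 1 ^ 2) ≤ r := by
    rw [map_one, one_mul] at h₁'
    rw [← h₁']
    have : y₁ - g 0 1 / g 1 1 = (y₁ - c) - (g 0 1 / g 1 1 - c) := by ring
    rw [this]
    exact v.map_sub_le h₁ h₀
  refine ⟨g 0 1 / g 1 1, ?_⟩
  rintro _ ⟨y, hy, rfl⟩
  obtain ⟨y', e', hy'⟩ := smul_near g y (hsm y (hy.trans hτ))
  refine ⟨y' - g 0 1 / g 1 1, ?_, by rw [e', aff_coe]; simp⟩
  rw [hy']
  exact mul_le_mul' hy hD

/-- a valuation with a topologically nilpotent element -/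
structure Good (v : Valuation F Γ) (t : F) : Prop where
  ne : t ≠ 0
  lt : v t < 1
  arch : ∀ a : F, a ≠ 0 → ∃ n : ℕ, v t ^ n ≤ v a

variable {t : F}

omit [DecidableEq F] in
theorem Good.pos (h : Good v t) : 0 < v t := zero_lt_iff.2 (by simpa using h.ne)

omit [DecidableEq F] in
theorem Good.anti (h : Good v t) {n m : ℕ} (hnm : n ≤ m) : v t ^ m ≤ v t ^ n :=
  pow_le_pow_of_le_one h.pos.le h.lt.le hnm

theorem Good.cont (h : Good v t) {g : GL (Fin 2) F} {y₀ : F}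
    (e : g • ((0 : F) : OnePoint F) = y₀) {a : F} (ha : a ≠ 0) :
    ∃ n : ℕ, ∀ y : F, v y ≤ v t ^ n → ∃ y' : F, g • (y : OnePoint F) = y' ∧ v (y' - y₀) ≤ v a := by
  obtain ⟨hδ, rfl⟩ := zero_img e
  have hD : (g : Matrix (Fin 2) (Fin 2) F).det / g 1 1 ^ 2 ≠ 0 :=
    div_ne_zero g.det_ne_zero (pow_ne_zero _ hδ)
  obtain ⟨n₁, hn₁⟩ : ∃ n₁ : ℕ, ∀ y : F, v y ≤ v t ^ n₁ → v (g 1 0 * y) < v (g 1 1) := by
    by_cases hγ : g 1 0 = 0
    · exact ⟨0, fun y _ => by simpa [hγ, zero_lt_iff] using hδ⟩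
    · obtain ⟨n, hn⟩ := h.arch (g 1 1 / g 1 0) (div_ne_zero hδ hγ)
      refine ⟨n + 1, fun y hy => ?_⟩
      have h0 : 0 < v (g 1 0) := zero_lt_iff.2 (by simpa using hγ)
      rw [map_div₀, le_div_iff₀ h0] at hn
      have h1 : v t ^ (n + 1) < v t ^ n := pow_lt_pow_right_of_lt_one₀ h.pos h.lt (by omega)
      rw [map_mul, mul_comm]
      exact lt_of_lt_of_le (mul_lt_mul_of_pos_right (lt_of_le_of_lt hy h1) h0) hn
  obtain ⟨n₂, hn₂⟩ := h.arch (a / ((g : Matrix (Fin 2) (Fin 2) F).det / g 1 1 ^ 2))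
    (div_ne_zero ha hD)
  refine ⟨max n₁ n₂, fun y hy => ?_⟩
  obtain ⟨y', e', hy'⟩ := smul_near g y (hn₁ y (hy.trans (h.anti (le_max_left _ _))))
  refine ⟨y', e', ?_⟩
  rw [map_div₀, le_div_iff₀ (zero_lt_iff.2 (by simpa using hD))] at hn₂
  rw [hy']
  exact le_trans (mul_le_mul' (hy.trans (h.anti (le_max_right _ _))) le_rfl) hn₂

/-- the topology on the projective line defined by the valuation -/
@[instance_reducible]
def Good.topo (h : Good v t) : TopologicalSpace (OnePoint F) where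
  IsOpen U := ∀ g : GL (Fin 2) F, g • ((0 : F) : OnePoint F) ∈ U → ∃ n : ℕ, disc v g (v t ^ n) ⊆ U
  isOpen_univ := fun _ _ => ⟨0, subset_univ _⟩
  isOpen_inter := by
    intro U V hU hV g hg
    obtain ⟨n, hn⟩ := hU g hg.1
    obtain ⟨m, hm⟩ := hV g hg.2
    exact ⟨max n m, subset_inter ((disc_mono g (h.anti (le_max_left _ _))).trans hn)
      ((disc_mono g (h.anti (le_max_right _ _))).trans hm)⟩
  isOpen_sUnion := by
    rintro s hs g ⟨U, hU, hg⟩
    obtain ⟨n, hn⟩ := hs U hU g hg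
    exact ⟨n, hn.trans (subset_sUnion_of_mem hU)⟩

theorem Good.isOpen_disc (h : Good v t) (g : GL (Fin 2) F) {a : F} (ha : a ≠ 0) :
    IsOpen[h.topo] (disc v g (v a)) := by
  rintro k ⟨y₀, hy₀, e⟩
  obtain ⟨n, hn⟩ := h.cont (g := g⁻¹ * k) (y₀ := y₀) (by rw [mul_smul, e, inv_smul_smul]) ha
  refine ⟨n, ?_⟩
  rintro _ ⟨y, hy, rfl⟩
  obtain ⟨y', e', hy'⟩ := hn y hy
  refine ⟨y', ?_, by rw [← e', mul_smul, smul_inv_smul]⟩
  have : y' = (y' - y₀) + y₀ := by ring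
  rw [this]
  exact v.map_add_le hy' hy₀

theorem Good.isOpen_compl (h : Good v t) (g : GL (Fin 2) F) {a : F} (ha : a ≠ 0) :
    IsOpen[h.topo] (disc v g (v a))ᶜ := by
  have hva : v a ≠ 0 := by simpa using ha
  intro k hk
  obtain ⟨y₀, hy₀, e⟩ := (notMem_disc_iff g hva _).1 hk
  obtain ⟨n, hn⟩ := h.cont (g := (g * io)⁻¹ * k) (y₀ := y₀) (by rw [mul_smul, e, inv_smul_smul])
    (a := t / a) (div_ne_zero h.ne ha)
  refine ⟨n, ?_⟩
  rintro _ ⟨y, hy, rfl⟩
  obtain ⟨y', e', hy'⟩ := hn y hy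
  refine (notMem_disc_iff g hva _).2 ⟨y', ?_, by rw [← e', mul_smul (g * io)⁻¹, smul_inv_smul]⟩
  have : y' = (y' - y₀) + y₀ := by ring
  rw [this]
  refine v.map_add_lt (lt_of_le_of_lt hy' ?_) hy₀
  rw [map_div₀, div_eq_mul_inv]
  exact mul_lt_of_lt_one_left (inv_pos.2 (zero_lt_iff.2 hva)) h.lt

theorem Good.disc_nhds (h : Good v t) (g : GL (Fin 2) F) (n : ℕ) :
    disc v g (v t ^ n) ∈ @nhds _ h.topo (g • ((0 : F) : OnePoint F)) := by
  let _ := h.topo
  rw [← map_pow]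
  exact (h.isOpen_disc g (pow_ne_zero n h.ne)).mem_nhds (zero_mem_disc _ _)

theorem Good.exists_disc (h : Good v t) (g : GL (Fin 2) F) {W : Set (OnePoint F)}
    (hW : W ∈ @nhds _ h.topo (g • ((0 : F) : OnePoint F))) : ∃ n : ℕ, disc v g (v t ^ n) ⊆ W := by
  let _ := h.topo
  obtain ⟨U, hU1, hU2, hU3⟩ := mem_nhds_iff.1 hW
  obtain ⟨n, hn⟩ := hU2 g hU3
  exact ⟨n, hn.trans hU1⟩

/-- separation by an annulus of modulus `v t` -/
def sepv (v : Valuation F Γ) (t : F) (A B : Set (OnePoint F)) : Prop :=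
  ∃ γ : GL (Fin 2) F, A ⊆ disc v γ (v t) ∧ Disjoint B (disc v γ 1)

attribute [local instance] pglAction

theorem mk_smul_set (g : GL (Fin 2) F) (A : Set (OnePoint F)) :
    ProjGenLinGroup.mk g • A = g • A := rfl

theorem Good.axioms (h : Good v t) : @Axioms PGL(2, F) (OnePoint F) _ _ h.topo (sepv v t) := by
  let _ := h.topo
  have haus : ∀ {u u' : OnePoint F}, u ≠ u' → ∃ A ∈ 𝓝 u', IsClosed A ∧ u ∉ A := by
    intro u u' huu
    obtain ⟨β, rfl, rfl⟩ := exists_two huu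
    refine ⟨disc v β (v 1), (h.isOpen_disc β one_ne_zero).mem_nhds (zero_mem_disc _ _),
      ⟨h.isOpen_compl β one_ne_zero⟩, ?_⟩
    rintro ⟨y, -, e⟩
    rw [smul_left_cancel_iff] at e
    exact infty_ne_coe _ e
  refine ⟨?_, ?_, ?_, ?_, ?_, ?_, haus, ?_, ?_, finite_fix, ?_, ?_⟩
  · intro g
    induction g using ProjGenLinGroup.induction_on with | mk g =>
    refine ⟨fun U hU k hk => ?_⟩
    obtain ⟨n, hn⟩ := hU (g * k) (by rw [mul_smul]; exact hk)
    refine ⟨n, ?_⟩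
    rintro _ ⟨y, hy, rfl⟩
    exact hn ⟨y, hy, (mul_smul g k (y : OnePoint F)).symm⟩
  · rw [t1Space_iff_exists_open]
    intro a b hab
    obtain ⟨A, hA1, -, hA3⟩ := haus hab.symm
    obtain ⟨U, hU1, hU2, hU3⟩ := mem_nhds_iff.1 hA1
    exact ⟨U, hU2, hU3, fun hb => hA3 (hU1 hb)⟩
  · rintro A B A' B' ⟨γ, h1, h2⟩ hA hB
    exact ⟨γ, hA.trans h1, h2.mono_left hB⟩
  · rintro g A B ⟨γ, h1, h2⟩
    induction g using ProjGenLinGroup.induction_on with | mk g =>
    refine ⟨g * γ, ?_, ?_⟩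
    · rw [mk_smul_set, ← smul_disc]
      exact Set.smul_set_mono h1
    · rw [mk_smul_set, ← smul_disc]
      exact Set.disjoint_smul_set.2 h2
  · rintro A B ⟨γ, h1, h2⟩
    exact (h2.mono_right (h1.trans (disc_mono γ h.lt.le))).symm
  · intro A u hA hu
    obtain ⟨β, rfl⟩ := exists_zero u
    obtain ⟨n, hn⟩ := hA.isOpen_compl β hu
    refine ⟨disc v β (v t ^ (n + 2)), h.disc_nhds β _, ⟨β * aff (t ^ n) 0 (pow_ne_zero n h.ne), ?_, ?_⟩,
      ⟨β * aff (t ^ (n + 1)) 0 (pow_ne_zero _ h.ne) * io, ?_, ?_⟩⟩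
    · rw [disc_aff, map_pow, ← pow_succ]
      exact disc_mono β (h.anti (by omega))
    · rw [disc_aff, map_pow, mul_one]
      exact Set.disjoint_left.2 fun z hz hz' => hn hz' hz
    · intro z hz
      have h1 : z ∉ disc v (β * aff (t ^ (n + 1)) 0 (pow_ne_zero _ h.ne)) (v t)⁻¹ := by
        rw [disc_aff, map_pow, pow_succ, mul_inv_cancel_right₀ h.pos.ne']
        exact fun hz' => hn hz' hz
      obtain ⟨y, hy, e⟩ := (notMem_disc_iff _ (inv_ne_zero h.pos.ne') _).1 h1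
      rw [inv_inv] at hy
      exact ⟨y, hy.le, e⟩
    · refine Set.disjoint_left.2 ?_
      rintro z hz ⟨y, hy, e⟩
      have h1 : z ∉ disc v (β * aff (t ^ (n + 1)) 0 (pow_ne_zero _ h.ne)) (v t) := by
        refine (notMem_disc_iff _ h.pos.ne' _).2 ⟨y, lt_of_le_of_lt hy ?_, e⟩
        exact one_lt_inv_iff₀.2 ⟨h.pos, h.lt⟩
      rw [disc_aff, map_pow, ← pow_succ] at h1
      exact h1 hz
  · intro E z hE hz W hW
    choose γ hγ1 hγ2 using hE
    have hγ3 : ∀ n, disc v (γ n) 1 ⊆ E n := fun n w hw => by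
      by_contra hc
      exact Set.disjoint_left.1 (hγ2 n) hc hw
    have key : ∀ n, ∃ c : F, disc v ((γ 0)⁻¹ * γ n) (v t) ⊆
        disc v (aff 1 c one_ne_zero) (v t ^ (n + 1)) := by
      intro n
      induction n with
      | zero =>
        refine ⟨0, ?_⟩
        rintro _ ⟨y, hy, rfl⟩
        exact ⟨y, by simpa using hy, by rw [aff_coe]; simp⟩
      | succ n ih =>
        obtain ⟨c, hc⟩ := ih
        have : disc v ((γ 0)⁻¹ * γ (n + 1)) 1 ⊆ disc v (aff 1 c one_ne_zero) (v t ^ (n + 1)) := by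
          refine subset_trans ?_ hc
          rw [← smul_disc, ← smul_disc]
          exact Set.smul_set_mono ((hγ3 _).trans (hγ1 n))
        obtain ⟨c', hc'⟩ := key_contr _ h.lt.le this
        exact ⟨c', by rwa [← pow_succ'] at hc'⟩
    obtain ⟨y₀, -, e₀⟩ := hγ1 0 (hz 1)
    have e₁ : (γ 0 * aff 1 y₀ one_ne_zero) • ((0 : F) : OnePoint F) = z := by
      rw [mul_smul, aff_coe, e₀]; simp
    rw [← e₁] at hW
    obtain ⟨n, hn⟩ := h.exists_disc _ hW
    obtain ⟨c, hc⟩ := key n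
    have hsub : ∀ w ∈ E (n + 1), ∃ y : F, v y ≤ v t ^ (n + 1) ∧ w = γ 0 • ((y + c : F) : OnePoint F) := by
      intro w hw
      have : (γ 0)⁻¹ • w ∈ disc v ((γ 0)⁻¹ * γ n) (v t) := by
        rw [← smul_disc]
        exact Set.smul_mem_smul_set (hγ1 n hw)
      obtain ⟨y, hy, e⟩ := hc this
      refine ⟨y, hy, ?_⟩
      rw [aff_coe, one_mul] at e
      rw [← e, smul_inv_smul]
    refine ⟨n + 1, fun w hw => hn ?_⟩
    obtain ⟨y, hy, e⟩ := hsub w hw
    obtain ⟨y₁, hy₁, e'⟩ := hsub z (hz _)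
    rw [e₀, smul_left_cancel_iff, coe_eq_coe] at e'
    refine ⟨y - y₁, (v.map_sub_le hy hy₁).trans (h.anti (by omega)), ?_⟩
    rw [e, mul_smul, aff_coe, e']
    congr 2
    ring
  · intro a b Wa Wb hab hWa hWb
    obtain ⟨β, rfl, rfl⟩ := exists_two hab.symm
    obtain ⟨n, hn⟩ := h.exists_disc β hWa
    have e : (β * io) • ((0 : F) : OnePoint F) = β • ∞ := by rw [mul_smul, io_zero]
    rw [← e] at hWb
    obtain ⟨m, hm⟩ := h.exists_disc _ hWb
    have htN : (t ^ (n + m))⁻¹ ≠ 0 := inv_ne_zero (pow_ne_zero _ h.ne)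
    refine ⟨ProjGenLinGroup.mk (β * aff (t ^ (n + m) * t ^ (n + m)) 0
      (mul_ne_zero (pow_ne_zero _ h.ne) (pow_ne_zero _ h.ne)) * β⁻¹),
      (disc v β (v (t ^ (n + m))⁻¹))ᶜ, ⟨?_, h.isOpen_compl β htN⟩, ?_, ?_⟩
    · exact (h.isOpen_disc β htN).isClosed_compl
    · intro z hz
      obtain ⟨y, hy, e⟩ := (notMem_disc_iff β ((Valuation.ne_zero_iff v).2 htN) _).1 hz
      rw [map_inv₀, inv_inv, map_pow] at hy
      exact hm ⟨y, hy.le.trans (h.anti (by omega)), e⟩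
    · rw [compl_compl, mk_smul_set, smul_disc, inv_mul_cancel_right, disc_aff, ← map_mul,
        mul_inv_cancel_right₀ (pow_ne_zero _ h.ne), map_pow]
      exact (disc_mono β (h.anti (by omega))).trans hn
  · rintro W hW ⟨z, hz⟩
    obtain ⟨g, rfl⟩ := exists_zero z
    obtain ⟨n, hn⟩ := hW g hz
    refine Set.infinite_of_injective_forall_mem
      (f := fun m : ℕ => g • ((t ^ (n + m) : F) : OnePoint F)) ?_ ?_
    · intro m m' e
      simp only [smul_left_cancel_iff, coe_eq_coe] at e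
      have e' : v t ^ (n + m) = v t ^ (n + m') := by rw [← map_pow, ← map_pow, e]
      have := (pow_right_strictAnti₀ h.pos h.lt).injective e'
      omega
    · intro m
      exact hn ⟨_, by rw [map_pow]; exact h.anti (by omega), rfl⟩
  · intro a b c d hab hcd
    obtain ⟨g, rfl, rfl⟩ := exists_two hab
    obtain ⟨k, rfl, rfl⟩ := exists_two hcd
    exact ⟨ProjGenLinGroup.mk (k * g⁻¹), by rw [mk_smul', mul_smul, inv_smul_smul],
      by rw [mk_smul', mul_smul, inv_smul_smul]⟩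

omit [DecidableEq F] in
theorem Good.exists_subgroup [Countable F] (h : Good v t) :
    ∃ H : Subgroup PGL(2, F), FaithfulSMul PGL(2, F) (PGL(2, F) ⧸ H) ∧
      ∀ k : ℕ, MulAction.IsMultiplyPretransitive PGL(2, F) (PGL(2, F) ⧸ H) k := by
  classical
  let _ := h.topo
  have := countable_pgl (F := F)
  exact Pool.Agent.H443Z.HT.exists_subgroup h.axioms (p := ∞) (q := ((0 : F) : OnePoint F))
    (infty_ne_coe _)

end Pool.Agent.H443Z.HT
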