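import Pool.Agent.H443Z.HT3

set_option autoImplicit false

namespace Pool.Agent.H443Z.HT

variable {F : Type*} [Field F]

theorem exists_good_of_prime {R : Type*} [CommRing R] [IsDomain R] [WfDvdMonoid R] [Algebra R F]
    (hinj : Function.Injective (algebraMap R F)) [Algebra.IsAlgebraic R F] {π : R} (hπ : Prime π) :
    ∃ (O : ValuationSubring F) (t : F), Good O.valuation t := by
  have hP : (Ideal.span {π}).IsPrime := (Ideal.span_singleton_prime hπ.ne_zero).2 hπ
  have hu : ∀ y : (Ideal.span {π}).primeCompl, IsUnit (algebraMap R F y) := by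
    intro y
    refine Ne.isUnit ?_
    intro e
    have : (y : R) = 0 := hinj (by rw [e, map_zero])
    exact y.2 (by rw [this]; exact zero_mem _)
  obtain ⟨O, hO, hloc⟩ := IsLocalRing.exists_factor_valuationRing
    (IsLocalization.lift (M := (Ideal.span {π}).primeCompl)
      (S := Localization.AtPrime (Ideal.span {π})) (g := algebraMap R F) hu)
  have hmem : ∀ r : R, algebraMap R F r ∈ O := by
    intro r
    have := hO (algebraMap R _ r)
    rwa [IsLocalization.lift_eq] at this
  have hle : ∀ r : R, O.valuation (algebraMap R F r) ≤ 1 := fun r =>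
    (O.valuation_le_one_iff _).2 (hmem r)
  have hunit : ∀ r : R, ¬ π ∣ r → O.valuation (algebraMap R F r) = 1 := by
    intro r hr
    have hr' : r ∈ (Ideal.span {π}).primeCompl := by
      intro h
      exact hr (Ideal.mem_span_singleton.1 h)
    obtain ⟨w, hw⟩ := (IsLocalization.map_units (Localization.AtPrime (Ideal.span {π}))
      (⟨r, hr'⟩ : (Ideal.span {π}).primeCompl)).exists_right_inv
    have h1 := congrArg (IsLocalization.lift (M := (Ideal.span {π}).primeCompl)
      (S := Localization.AtPrime (Ideal.span {π})) (g := algebraMap R F) hu) hw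
    rw [map_mul, IsLocalization.lift_eq, map_one] at h1
    have h2 := congrArg O.valuation h1
    rw [map_mul, map_one] at h2
    have h3 := (O.valuation_le_one_iff _).2 (hO w)
    refine le_antisymm (hle r) ?_
    rw [← h2]
    exact mul_le_of_le_one_right' h3
  have ht0 : algebraMap R F π ≠ 0 := fun e => hπ.ne_zero (hinj (by rw [e, map_zero]))
  have hlt : O.valuation (algebraMap R F π) < 1 := by
    refine lt_of_le_of_ne (hle π) ?_
    intro e
    have h1 : IsUnit ((IsLocalization.lift (M := (Ideal.span {π}).primeCompl)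
      (S := Localization.AtPrime (Ideal.span {π})) (g := algebraMap R F) hu).codRestrict
        O.toSubring hO (algebraMap R _ π)) := by
      refine (O.valuation_eq_one_iff _).2 ?_
      rw [← e]
      congr 1
      exact IsLocalization.lift_eq hu π
    have h2 := hloc.map_nonunit _ h1
    rw [IsLocalization.AtPrime.isUnit_to_map_iff (Localization.AtPrime (Ideal.span {π}))
      (Ideal.span {π})] at h2
    exact h2 (Ideal.mem_span_singleton_self π)
  refine ⟨O, algebraMap R F π, ht0, hlt, ?_⟩
  intro a ha
  obtain ⟨r, hr, hint⟩ := (Algebra.IsAlgebraic.isAlgebraic (R := R) a⁻¹).exists_integral_multiple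
  obtain ⟨n, r', hr', e⟩ := WfDvdMonoid.max_power_factor hr hπ.irreducible
  refine ⟨n, ?_⟩
  have hO' : r • a⁻¹ ∈ O := by
    let _ : Algebra R O := ((algebraMap R F).codRestrict O.toSubring hmem).toAlgebra
    have : IsScalarTower R O F := IsScalarTower.of_algebraMap_eq (fun _ => rfl)
    have h2 : IsIntegral O (r • a⁻¹) := hint.tower_top
    obtain ⟨y, hy⟩ := IsIntegrallyClosed.isIntegral_iff.1 h2
    rw [← hy]
    exact y.2
  have h3 := (O.valuation_le_one_iff _).2 hO'
  rw [Algebra.smul_def, e, map_mul, map_mul, map_mul, hunit r' hr', mul_one, map_pow, map_pow,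
    map_inv₀, mul_inv_le_iff₀ (zero_lt_iff.2 (by simpa using ha)), one_mul] at h3
  exact h3

theorem exists_good_of_basis {k : Type*} [CommRing k] [IsDomain k] [UniqueFactorizationMonoid k]
    [Algebra k F] {ι : Type*} {x : ι → F} (hx : IsTranscendenceBasis k x)
    {π : MvPolynomial ι k} (hπ : Prime π) :
    ∃ (O : ValuationSubring F) (t : F), Good O.valuation t := by
  let _ : Algebra (MvPolynomial ι k) F := (MvPolynomial.aeval x).toRingHom.toAlgebra
  have hinj : Function.Injective (algebraMap (MvPolynomial ι k) F) :=
    algebraicIndependent_iff_injective_aeval.1 hx.1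
  have : Algebra.IsAlgebraic (MvPolynomial ι k) F := by
    have h1 := hx.isAlgebraic
    refine ⟨fun a => ?_⟩
    obtain ⟨p, hp0, hp⟩ := h1.isAlgebraic a
    refine ⟨p.map (hx.1.aevalEquiv.symm : Algebra.adjoin k (Set.range x) →+* MvPolynomial ι k),
      ?_, ?_⟩
    · exact (Polynomial.map_ne_zero_iff hx.1.aevalEquiv.symm.injective).2 hp0
    · rw [Polynomial.aeval_def, Polynomial.eval₂_map]
      rw [Polynomial.aeval_def] at hp
      have e : (algebraMap (MvPolynomial ι k) F).comp
          (hx.1.aevalEquiv.symm : Algebra.adjoin k (Set.range x) →+* MvPolynomial ι k)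
          = algebraMap (Algebra.adjoin k (Set.range x)) F := by
        refine RingHom.ext fun y => ?_
        obtain ⟨w, rfl⟩ := hx.1.aevalEquiv.surjective y
        simp only [RingHom.coe_comp, RingHom.coe_coe, Function.comp_apply,
          AlgEquiv.symm_apply_apply]
        exact (hx.1.algebraMap_aevalEquiv w).symm
      rw [e]
      exact hp
  exact exists_good_of_prime hinj hπ

theorem exists_good
    (h : ¬ ∃ (p : ℕ) (_ : Fact p.Prime) (_ : Algebra (ZMod p) F), Algebra.IsAlgebraic (ZMod p) F) :
    ∃ (O : ValuationSubring F) (t : F), Good O.valuation t := by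
  obtain ⟨p, hp⟩ := CharP.exists F
  rcases CharP.char_is_prime_or_zero F p with hpr | rfl
  · have := Fact.mk hpr
    let _ : Algebra (ZMod p) F := ZMod.algebra F p
    obtain ⟨s, hs⟩ := exists_isTranscendenceBasis (ZMod p) F
    have htr : Algebra.Transcendental (ZMod p) F := by
      rw [Algebra.transcendental_iff_not_isAlgebraic]
      exact fun ha => h ⟨p, this, _, ha⟩
    obtain ⟨i⟩ := hs.nonempty_iff_transcendental.2 htr
    exact exists_good_of_basis hs (MvPolynomial.X_prime (i := i))
  · have := CharP.charP_to_charZero F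
    obtain ⟨s, hs⟩ := exists_isTranscendenceBasis ℤ F
    exact exists_good_of_basis hs ((MvPolynomial.prime_C_iff s).2 Int.prime_two)

end Pool.Agent.H443Z.HT
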