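import Mathlib

set_option autoImplicit false

namespace Pool.Agent.H443Z.HT

open scoped commutatorElement

theorem frattini {M S : Type*} [Group M] [Finite M] [Group S] (π : M →* S)
    (hπ : Function.Surjective π) (hk : π.ker ≠ ⊥) :
    ∃ Z : Subgroup M, Z ≤ π.ker ∧ (∃ z ∈ Z, z ≠ 1) ∧ (∀ a ∈ Z, ∀ b ∈ Z, a * b = b * a) ∧
      ∀ σ : S, ∃ m : M, (∀ z ∈ Z, m * z * m⁻¹ ∈ Z) ∧ π m = σ := by
  have hcard : Nat.card π.ker ≠ 1 := by
    intro h
    exact hk (Subgroup.card_eq_one.1 h)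
  obtain ⟨r, hr, hrd⟩ := Nat.exists_prime_and_dvd hcard
  have := Fact.mk hr
  obtain ⟨P⟩ : Nonempty (Sylow r π.ker) := inferInstance
  have hP : (P : Subgroup π.ker) ≠ ⊥ := P.ne_bot_of_dvd_card hrd
  have hnt : Nontrivial (P : Subgroup π.ker) := (Subgroup.nontrivial_iff_ne_bot _).2 hP
  have hc := P.isPGroup'.center_nontrivial
  obtain ⟨c, hc1⟩ := exists_ne (1 : Subgroup.center (P : Subgroup π.ker))
  set P' : Subgroup M := (P : Subgroup π.ker).map π.ker.subtype with hP'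
  refine ⟨P' ⊓ Subgroup.centralizer P', ?_, ⟨((c.1 : (P : Subgroup π.ker)) : π.ker), ⟨?_, ?_⟩, ?_⟩,
    ?_, ?_⟩
  · exact inf_le_left.trans (Subgroup.map_subtype_le _)
  · exact ⟨_, c.1.2, rfl⟩
  · rintro _ ⟨y, hy, rfl⟩
    have := Subgroup.mem_center_iff.1 c.2 ⟨y, hy⟩
    exact congrArg (fun w : (P : Subgroup π.ker) => ((w : π.ker) : M)) this
  · intro e
    apply hc1
    ext
    exact e
  · intro a ha b hb
    exact hb.2 a ha.1
  · intro σ
    obtain ⟨n, rfl⟩ := hπ σ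
    have h1 : n ∈ Subgroup.normalizer (P' : Set M) ⊔ π.ker := by
      rw [hP', Sylow.normalizer_sup_eq_top P]; trivial
    obtain ⟨m, hm, k, hk', rfl⟩ := Subgroup.mem_sup_of_normal_right.1 h1
    refine ⟨m, ?_, by rw [map_mul, MonoidHom.mem_ker.1 hk', mul_one]⟩
    intro z hz
    refine ⟨(Subgroup.mem_normalizer_iff.1 hm z).1 hz.1, ?_⟩
    intro y hy
    have hy' : m⁻¹ * y * m ∈ P' := by
      have := (Subgroup.mem_normalizer_iff.1 hm (m⁻¹ * y * m)).2 (by simpa [mul_assoc] using hy)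
      exact this
    have := hz.2 _ hy'
    calc y * (m * z * m⁻¹) = m * ((m⁻¹ * y * m) * z) * m⁻¹ := by group
      _ = m * (z * (m⁻¹ * y * m)) * m⁻¹ := by rw [this]
      _ = m * z * m⁻¹ * y := by group

variable {G Ω : Type*} [Group G] [MulAction G Ω]

theorem sharp (h4 : MulAction.IsMultiplyPretransitive G Ω 4)
    (hlf : ∀ s : Set G, s.Finite → Finite (Subgroup.closure s))
    (hZ : ∀ Z : Subgroup G, (∃ z ∈ Z, z ≠ 1) → (∀ a ∈ Z, ∀ b ∈ Z, a * b = b * a) →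
      (∀ m₁ m₂ m₃ m₄ : G, (∀ z ∈ Z, m₁ * z * m₁⁻¹ ∈ Z) → (∀ z ∈ Z, m₂ * z * m₂⁻¹ ∈ Z) →
        (∀ z ∈ Z, m₃ * z * m₃⁻¹ ∈ Z) → (∀ z ∈ Z, m₄ * z * m₄⁻¹ ∈ Z) →
        ⁅⁅m₁, m₂⁆, ⁅m₃, m₄⁆⁆ = 1) ∨ (∀ m : G, (∀ z ∈ Z, m * z * m⁻¹ ∈ Z) → m ^ 6 ∈ Z))
    (x : Fin 4 ↪ Ω) (g : G) (hg : ∀ i, g • x i = x i) : g = 1 := by
  classical
  by_contra hne
  rw [MulAction.isMultiplyPretransitive_iff] at h4
  have h1 : ∀ σ : Equiv.Perm (Fin 4), ∃ l : G, ∀ i, l • x i = x (σ i) := by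
    intro σ
    obtain ⟨l, hl⟩ := @h4 x (σ.toEmbedding.trans x)
    exact ⟨l, fun i => by simpa using DFunLike.congr_fun hl i⟩
  choose ℓ hℓ using h1
  set M := Subgroup.closure (insert g (Set.range ℓ)) with hM
  have : Finite M := hlf _ ((Set.finite_range _).insert _)
  have h2 : ∀ m ∈ M, ∃ σ : Equiv.Perm (Fin 4), ∀ i, m • x i = x (σ i) := by
    intro m hm
    induction hm using Subgroup.closure_induction with
    | mem y hy =>
      rcases hy with rfl | ⟨σ, rfl⟩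
      · exact ⟨1, hg⟩
      · exact ⟨σ, hℓ σ⟩
    | one => exact ⟨1, by simp⟩
    | mul a b _ _ ha hb =>
      obtain ⟨σ, hσ⟩ := ha
      obtain ⟨τ, hτ⟩ := hb
      exact ⟨σ * τ, fun i => by rw [mul_smul, hτ, hσ]; rfl⟩
    | inv a _ ha =>
      obtain ⟨σ, hσ⟩ := ha
      exact ⟨σ⁻¹, fun i => by rw [inv_smul_eq_iff, hσ]; simp⟩
  choose π₀ hπ₀ using h2
  have huniq : ∀ (m : M) (σ : Equiv.Perm (Fin 4)), (∀ i, (m : G) • x i = x (σ i)) →
      π₀ m m.2 = σ := by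
    intro m σ h
    ext i
    congr 1
    exact x.injective ((hπ₀ m m.2 i).symm.trans (h i))
  let π : M →* Equiv.Perm (Fin 4) := MonoidHom.mk' (fun m => π₀ m m.2) (by
    intro a b
    refine huniq (a * b) _ fun i => ?_
    rw [Subgroup.coe_mul, mul_smul, hπ₀ b b.2, hπ₀ a a.2]; rfl)
  have hsurj : Function.Surjective π := fun σ =>
    ⟨⟨ℓ σ, Subgroup.subset_closure (Or.inr ⟨σ, rfl⟩)⟩, huniq _ _ (hℓ σ)⟩
  have hker : π.ker ≠ ⊥ := by
    intro e
    have : (⟨g, Subgroup.subset_closure (Or.inl rfl)⟩ : M) ∈ π.ker := huniq _ _ hg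
    rw [e, Subgroup.mem_bot] at this
    exact hne (congrArg Subtype.val this)
  obtain ⟨Z, hZ1, ⟨z, hz, hz1⟩, hZ3, hZ4⟩ := frattini π hsurj hker
  have hnorm : ∀ m : M, (∀ z ∈ Z, m * z * m⁻¹ ∈ Z) →
      ∀ z ∈ Z.map M.subtype, (m : G) * z * (m : G)⁻¹ ∈ Z.map M.subtype := by
    rintro m hm _ ⟨z, hz, rfl⟩
    exact ⟨_, hm z hz, rfl⟩
  rcases hZ (Z.map M.subtype) ⟨z, ⟨z, hz, rfl⟩, fun e => hz1 (Subtype.ext e)⟩ (by
    rintro _ ⟨a, ha, rfl⟩ _ ⟨b, hb, rfl⟩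
    exact congrArg Subtype.val (hZ3 a ha b hb)) with h | h
  · obtain ⟨m₁, a₁, b₁⟩ := hZ4 (Equiv.swap 0 1)
    obtain ⟨m₂, a₂, b₂⟩ := hZ4 (Equiv.swap 1 2)
    obtain ⟨m₃, a₃, b₃⟩ := hZ4 (Equiv.swap 1 2)
    obtain ⟨m₄, a₄, b₄⟩ := hZ4 (Equiv.swap 2 3)
    have h1 := h m₁ m₂ m₃ m₄ (hnorm _ a₁) (hnorm _ a₂) (hnorm _ a₃) (hnorm _ a₄)
    have h2 : ⁅⁅m₁, m₂⁆, ⁅m₃, m₄⁆⁆ = 1 := Subtype.ext h1
    have h3 := congrArg π h2
    rw [map_commutatorElement, map_commutatorElement, map_commutatorElement, b₁, b₂, b₄, b₃,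
      map_one] at h3
    revert h3
    simp only [commutatorElement_def]
    decide
  · obtain ⟨m, a, b⟩ := hZ4 (finRotate 4)
    obtain ⟨w, hw, e⟩ := h m (hnorm _ a)
    have h2 : w = m ^ 6 := Subtype.ext e
    have h3 : π w = 1 := hZ1 hw
    rw [h2, map_pow, b] at h3
    revert h3
    decide

theorem inj_four {α : Type*} {a b c d : α} (h1 : a ≠ b) (h2 : a ≠ c) (h3 : a ≠ d) (h5 : b ≠ c)
    (h6 : b ≠ d) (h7 : c ≠ d) : Function.Injective ![a, b, c, d] := by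
  intro i j; fin_cases i <;> fin_cases j <;> simp_all [eq_comm]

theorem exists_four (h4 : MulAction.IsMultiplyPretransitive G Ω 4) {a b c d a' b' c' d' : Ω}
    (h1 : a ≠ b) (h2 : a ≠ c) (h3 : a ≠ d) (h5 : b ≠ c) (h6 : b ≠ d) (h7 : c ≠ d)
    (h1' : a' ≠ b') (h2' : a' ≠ c') (h3' : a' ≠ d') (h5' : b' ≠ c') (h6' : b' ≠ d') (h7' : c' ≠ d') :
    ∃ g : G, g • a = a' ∧ g • b = b' ∧ g • c = c' ∧ g • d = d' := by
  rw [MulAction.isMultiplyPretransitive_iff] at h4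
  have i1 := inj_four h1 h2 h3 h5 h6 h7
  have i2 := inj_four h1' h2' h3' h5' h6' h7'
  obtain ⟨g, hg⟩ := @h4 ⟨_, i1⟩ ⟨_, i2⟩
  exact ⟨g, DFunLike.congr_fun hg 0, DFunLike.congr_fun hg 1, DFunLike.congr_fun hg 2,
    DFunLike.congr_fun hg 3⟩

theorem not_sharp [Infinite Ω] (h4 : MulAction.IsMultiplyPretransitive G Ω 4)
    (hs : ∀ (x : Fin 4 ↪ Ω) (g : G), (∀ i, g • x i = x i) → g = 1)
    (hT : ∀ t : G, t ≠ 1 → ∃ T : Set G, (∀ a ∈ T, ∀ b ∈ T, a * b = b * a) ∧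
      ∀ a b : G, a * t = t * a → b * t = t * b → (a ∈ T ↔ b ∈ T) → a⁻¹ * b ∈ T) : False := by
  classical
  have hs' : ∀ (g : G) (a b c d : Ω), a ≠ b → a ≠ c → a ≠ d → b ≠ c → b ≠ d → c ≠ d →
      g • a = a → g • b = b → g • c = c → g • d = d → g = 1 := by
    intro g a b c d h1 h2 h3 h5 h6 h7 e1 e2 e3 e4
    have i1 := inj_four h1 h2 h3 h5 h6 h7
    refine hs ⟨_, i1⟩ g fun i => ?_
    fin_cases i
    exacts [e1, e2, e3, e4]
  have hfin : ∀ g : G, g ≠ 1 → {z : Ω | g • z = z}.Finite := by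
    intro g hg
    by_contra h
    have h' : {z : Ω | g • z = z}.Infinite := h
    exact hg (hs ((Fin.valEmbedding.trans h'.natEmbedding).trans (Function.Embedding.subtype _)) g
      fun i => (Set.Infinite.natEmbedding _ h' (i : ℕ)).2)
  let e := Infinite.natEmbedding Ω
  have he : ∀ {i j : ℕ}, i ≠ j → e i ≠ e j := fun h => e.injective.ne h
  obtain ⟨t, t0, t1, t2, t3⟩ := exists_four h4 (a := e 0) (b := e 1) (c := e 2) (d := e 3)
    (a' := e 1) (b' := e 0) (c' := e 2) (d' := e 3) (he (by decide)) (he (by decide))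
    (he (by decide)) (he (by decide)) (he (by decide)) (he (by decide)) (he (by decide))
    (he (by decide)) (he (by decide)) (he (by decide)) (he (by decide)) (he (by decide))
  have ht1 : t ≠ 1 := by
    intro h
    rw [h, one_smul] at t0
    exact he (by decide) t0
  have htt : t * t = 1 := hs' _ (e 0) (e 1) (e 2) (e 3) (he (by decide)) (he (by decide))
    (he (by decide)) (he (by decide)) (he (by decide)) (he (by decide))
    (by rw [mul_smul, t0, t1]) (by rw [mul_smul, t1, t0]) (by rw [mul_smul, t2, t2])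
    (by rw [mul_smul, t3, t3])
  have htt' : ∀ z : Ω, t • t • z = z := fun z => by rw [← mul_smul, htt, one_smul]
  obtain ⟨T, hT1, hT2⟩ := hT t ht1
  have key : ∀ a b a' b' : Ω, t • a ≠ a → t • b ≠ b → b ≠ a → b ≠ t • a →
      t • a' ≠ a' → t • b' ≠ b' → b' ≠ a' → b' ≠ t • a' →
      ∃ c : G, c * t = t * c ∧ c • a = a' ∧ c • b = b' := by
    intro a b a' b' h1 h2 h3 h5 h1' h2' h3' h5'
    have f1 : ∀ {u w : Ω}, w ≠ t • u → u ≠ t • w := fun {u w} h e => h (by rw [e, htt'])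
    have f2 : ∀ {u w : Ω}, w ≠ u → t • u ≠ t • w := fun {u w} h e =>
      h (smul_left_cancel t e).symm
    obtain ⟨c, c0, c1, c2, c3⟩ := exists_four h4 (a := a) (b := t • a) (c := b) (d := t • b)
      (a' := a') (b' := t • a') (c' := b') (d' := t • b') h1.symm h3.symm (f1 h5) h5.symm (f2 h3)
      h2.symm h1'.symm h3'.symm (f1 h5') h5'.symm (f2 h3') h2'.symm
    refine ⟨c, ?_, c0, c2⟩
    have := hs' (c⁻¹ * t⁻¹ * c * t) a (t • a) b (t • b) h1.symm h3.symm (f1 h5) h5.symm (f2 h3)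
      h2.symm
      (by rw [mul_smul, mul_smul, mul_smul, c1, inv_smul_smul, ← c0, inv_smul_smul])
      (by rw [mul_smul, mul_smul, mul_smul, htt', c0, ← htt' a', inv_smul_smul, ← c1, inv_smul_smul])
      (by rw [mul_smul, mul_smul, mul_smul, c3, inv_smul_smul, ← c2, inv_smul_smul])
      (by rw [mul_smul, mul_smul, mul_smul, htt', c2, ← htt' b', inv_smul_smul, ← c3, inv_smul_smul])
    calc c * t = t * c * (c⁻¹ * t⁻¹ * c * t) := by group
      _ = t * c := by rw [this, mul_one]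
  have hY : ∀ E : Set Ω, E.Finite → ({z : Ω | t • z = z} ∪ E)ᶜ.Infinite := fun E hE =>
    ((hfin t ht1).union hE).infinite_compl
  have ha : t • e 0 ≠ e 0 := by rw [t0]; exact he (by decide)
  obtain ⟨b, hb⟩ := (hY {e 0, t • e 0} (Set.toFinite _)).nonempty
  simp only [Set.mem_compl_iff, Set.mem_union, Set.mem_ofPred_eq, Set.mem_insert_iff,
    Set.mem_singleton_iff, not_or] at hb
  -- a nontrivial element of `T` fixing `e 0`
  obtain ⟨u, huT, hu1, hu0⟩ : ∃ u ∈ T, u ≠ 1 ∧ u • e 0 = e 0 := by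
    have hinf := (hY {e 0, t • e 0} (Set.toFinite _)).to_subtype
    have h1 : ∀ y : (({z : Ω | t • z = z} ∪ {e 0, t • e 0})ᶜ : Set Ω),
        ∃ c : G, c * t = t * c ∧ c • e 0 = e 0 ∧ c • b = y := by
      rintro ⟨y, hy⟩
      simp only [Set.mem_compl_iff, Set.mem_union, Set.mem_ofPred_eq, Set.mem_insert_iff,
        Set.mem_singleton_iff, not_or] at hy
      exact key _ _ _ _ ha hb.1 hb.2.1 hb.2.2 ha hy.1 hy.2.1 hy.2.2
    choose c hc1 hc2 hc3 using h1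
    obtain ⟨y, y', hyy, h⟩ := Finite.exists_ne_map_eq_of_infinite (fun y => c y ∈ T)
    refine ⟨(c y)⁻¹ * c y', hT2 _ _ (hc1 y) (hc1 y') (by rw [show (c y ∈ T) = (c y' ∈ T) from h]),
      ?_, ?_⟩
    · intro h1
      apply hyy
      have : c y = c y' := inv_mul_eq_one.1 h1
      exact Subtype.ext (by rw [← hc3 y, ← hc3 y', this])
    · rw [mul_smul, hc2, inv_smul_eq_iff, hc2]
  have hinf := (hY ∅ Set.finite_empty).to_subtype
  have h1 : ∀ y : (({z : Ω | t • z = z} ∪ ∅)ᶜ : Set Ω), ∃ c : G, c * t = t * c ∧ c • e 0 = y := by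
    rintro ⟨y, hy⟩
    simp only [Set.union_empty, Set.mem_compl_iff, Set.mem_ofPred_eq] at hy
    obtain ⟨b', hb'⟩ := (hY {y, t • y} (Set.toFinite _)).nonempty
    simp only [Set.mem_compl_iff, Set.mem_union, Set.mem_ofPred_eq, Set.mem_insert_iff,
      Set.mem_singleton_iff, not_or] at hb'
    obtain ⟨c, c1, c2, -⟩ := key _ _ _ _ ha hb.1 hb.2.1 hb.2.2 hy hb'.1 hb'.2.1 hb'.2.2
    exact ⟨c, c1, c2⟩
  choose d hd1 hd2 using h1
  obtain ⟨P, hP⟩ := Finite.exists_infinite_fiber (fun y => d y ∈ T)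
  obtain ⟨y₀⟩ : Nonempty ((fun y => d y ∈ T) ⁻¹' {P}) := inferInstance
  refine (Set.infinite_of_injective_forall_mem (s := {z : Ω | u • z = z})
    (f := fun y : ((fun y => d y ∈ T) ⁻¹' {P}) => (d y₀.1)⁻¹ • (y.1.1 : Ω)) ?_ ?_) (hfin u hu1)
  · intro y y' h
    exact Subtype.ext (Subtype.ext (smul_left_cancel _ h))
  · intro y
    have hm : (d y₀.1)⁻¹ * d y.1 ∈ T := hT2 _ _ (hd1 _) (hd1 _) (by
      have h0 : (d y₀.1 ∈ T) = P := y₀.2
      have h1 : (d y.1 ∈ T) = P := y.2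
      rw [h0, h1])
    change u • (d y₀.1)⁻¹ • (y.1.1 : Ω) = (d y₀.1)⁻¹ • (y.1.1 : Ω)
    rw [← hd2 y.1, ← mul_smul (d y₀.1)⁻¹, ← mul_smul, hT1 _ huT _ hm, mul_smul, hu0]

theorem no_four_of_no_order_four [Infinite Ω] (h4 : MulAction.IsMultiplyPretransitive G Ω 4)
    (htor : ∀ g : G, IsOfFinOrder g) (h : ∀ g : G, g ^ 4 = 1 → g ^ 2 = 1) : False := by
  let e := Infinite.natEmbedding Ω
  have he : ∀ {i j : ℕ}, i ≠ j → e i ≠ e j := fun h => e.injective.ne h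
  obtain ⟨g, t0, t1, t2, t3⟩ := exists_four h4 (a := e 0) (b := e 1) (c := e 2) (d := e 3)
    (a' := e 1) (b' := e 2) (c' := e 3) (d' := e 0) (he (by decide)) (he (by decide))
    (he (by decide)) (he (by decide)) (he (by decide)) (he (by decide)) (he (by decide))
    (he (by decide)) (he (by decide)) (he (by decide)) (he (by decide)) (he (by decide))
  have h2 : g ^ 2 • e 0 = e 2 := by rw [pow_succ', mul_smul, pow_one, t0, t1]
  have h3 : g ^ 3 • e 0 = e 3 := by rw [pow_succ', mul_smul, h2, t2]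
  have h4' : g ^ 4 • e 0 = e 0 := by rw [pow_succ', mul_smul, h3, t3]
  have hk : ∀ k : ℕ, (g ^ 4) ^ k • e 0 = e 0 := by
    intro k
    induction k with
    | zero => simp
    | succ k ih => rw [pow_succ, mul_smul, h4', ih]
  have hpos := (htor g).orderOf_pos
  have hn : g ^ (orderOf g % 4) • e 0 = e 0 := by
    have : g ^ orderOf g = g ^ (orderOf g % 4) * (g ^ 4) ^ (orderOf g / 4) := by
      rw [← pow_mul, ← pow_add, Nat.mod_add_div]
    rw [pow_orderOf_eq_one] at this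
    conv_lhs => rw [← hk (orderOf g / 4)]
    rw [← mul_smul, ← this, one_smul]
  have hmod : orderOf g % 4 = 0 := by
    have : orderOf g % 4 < 4 := Nat.mod_lt _ (by norm_num)
    interval_cases h5 : orderOf g % 4
    · rfl
    · rw [pow_one, t0] at hn; exact absurd hn (he (by decide))
    · rw [h2] at hn; exact absurd hn (he (by decide))
    · rw [h3] at hn; exact absurd hn (he (by decide))
  obtain ⟨k, hk'⟩ : ∃ k, orderOf g = k * 4 := ⟨orderOf g / 4, by omega⟩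
  have h6 := h (g ^ k) (by rw [← pow_mul, ← hk', pow_orderOf_eq_one])
  rw [← pow_mul, ← orderOf_dvd_iff_pow_eq_one] at h6
  have := Nat.le_of_dvd (by omega) h6
  omega

theorem iter_six {α : Type*} {f : α → α} (hf : Function.Injective f) {S : Set α} {p₁ p₂ p₃ : α}
    (hS : ∀ x ∈ S, x = p₁ ∨ x = p₂ ∨ x = p₃) (hm : ∀ x ∈ S, f x ∈ S) {x : α} (hx : x ∈ S) :
    f (f (f (f (f (f x))))) = x := by
  have h0 := hS _ hx
  have h1 := hS _ (hm _ hx)
  have h2 := hS _ (hm _ (hm _ hx))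
  have h3 := hS _ (hm _ (hm _ (hm _ hx)))
  have : f x = x ∨ f (f x) = x ∨ f (f (f x)) = x ∨ f (f x) = f x ∨ f (f (f x)) = f x ∨
      f (f (f x)) = f (f x) := by
    generalize f (f (f x)) = d at *
    generalize f (f x) = c at *
    generalize f x = b at *
    rcases h0 with h0 | h0 | h0 <;> rcases h1 with h1 | h1 | h1 <;> rcases h2 with h2 | h2 | h2 <;>
      rcases h3 with h3 | h3 | h3 <;> simp [h0, h1, h2, h3]
  rcases this with h | h | h | h | h | h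
  · simp [h]
  · simp [h]
  · simp [h]
  · have := hf h; simp [this]
  · have := hf h; simp [this]
  · have := hf (hf h); simp [this]

end Pool.Agent.H443Z.HT
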