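import Pool.Agent.H443Z.HT5

set_option autoImplicit false

namespace Pool.Agent.H443Z.HT

open Matrix
open scoped MatrixGroups commutatorElement

variable {F : Type*} [Field F]

/-- scalar matrices -/
def IsSc (A : Matrix (Fin 2) (Fin 2) F) : Prop := A 0 1 = 0 ∧ A 1 0 = 0 ∧ A 0 0 = A 1 1

theorem mk_eq_mk {g h : GL (Fin 2) F} : ProjGenLinGroup.mk g = ProjGenLinGroup.mk h ↔
    ∃ c : F, c ≠ 0 ∧ (h : Matrix (Fin 2) (Fin 2) F) = c • (g : Matrix (Fin 2) (Fin 2) F) := by
  rw [ProjGenLinGroup.mk_eq_mk_iff]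
  constructor
  · rintro ⟨u, rfl⟩
    refine ⟨u, u.ne_zero, ?_⟩
    ext i j
    simp [Matrix.mul_diagonal, mul_comm]
  · rintro ⟨c, hc, e⟩
    refine ⟨Units.mk0 c hc, Units.ext ?_⟩
    rw [e]
    ext i j
    simp [Matrix.mul_diagonal, mul_comm]

theorem mk_eq_one_iff {g : GL (Fin 2) F} :
    ProjGenLinGroup.mk g = 1 ↔ IsSc (g : Matrix (Fin 2) (Fin 2) F) := by
  rw [← ProjGenLinGroup.mk_one, eq_comm, mk_eq_mk]
  constructor
  · rintro ⟨c, -, e⟩
    simp [IsSc, e]
  · rintro ⟨h1, h2, h3⟩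
    refine ⟨g 0 0, ?_, ?_⟩
    · intro e
      apply g.det_ne_zero
      simp [Matrix.det_fin_two, e, h1]
    · ext i j
      fin_cases i <;> fin_cases j <;> simp [h1, h2, h3]

theorem cent {x y : Matrix (Fin 2) (Fin 2) F} (hx : ¬ IsSc x) (h : y * x = x * y) :
    ∃ a b : F, y = a • (1 : Matrix (Fin 2) (Fin 2) F) + b • x := by
  have e00 := congrFun (congrFun h 0) 0
  have e01 := congrFun (congrFun h 0) 1
  have e10 := congrFun (congrFun h 1) 0
  simp only [Matrix.mul_apply, Fin.sum_univ_two] at e00 e01 e10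
  by_cases h1 : x 0 1 = 0
  · by_cases h2 : x 1 0 = 0
    · have h3 : x 0 0 - x 1 1 ≠ 0 := fun e => hx ⟨h1, h2, sub_eq_zero.1 e⟩
      refine ⟨y 0 0 - (y 0 0 - y 1 1) / (x 0 0 - x 1 1) * x 0 0,
        (y 0 0 - y 1 1) / (x 0 0 - x 1 1), ?_⟩
      have f1 : y 0 1 = 0 := by
        apply mul_left_cancel₀ h3
        rw [h1] at e01
        linear_combination -e01
      have f2 : y 1 0 = 0 := by
        apply mul_left_cancel₀ h3
        rw [h2] at e10
        linear_combination e10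
      ext i j
      fin_cases i <;> fin_cases j <;> simp [h1, h2, f1, f2]
      field_simp
      ring
    · refine ⟨y 0 0 - y 1 0 / x 1 0 * x 0 0, y 1 0 / x 1 0, ?_⟩
      ext i j
      fin_cases i <;> fin_cases j <;> simp
      · field_simp
        linear_combination e00
      · field_simp
      · field_simp
        linear_combination e10
  · refine ⟨y 0 0 - y 0 1 / x 0 1 * x 0 0, y 0 1 / x 0 1, ?_⟩
    ext i j
    fin_cases i <;> fin_cases j <;> simp
    · field_simp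
    · field_simp
      linear_combination -e00
    · field_simp
      linear_combination -e01

theorem cent_comm {x y y' : Matrix (Fin 2) (Fin 2) F} (hx : ¬ IsSc x) (h : y * x = x * y)
    (h' : y' * x = x * y') : y * y' = y' * y := by
  obtain ⟨a, b, rfl⟩ := cent hx h
  obtain ⟨a', b', rfl⟩ := cent hx h'
  simp only [add_mul, mul_add, smul_mul_assoc, mul_smul_comm, one_mul, mul_one, smul_add, smul_smul]
  rw [mul_comm a a', mul_comm b b', mul_comm a b', mul_comm b a']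
  abel

theorem comm_pm {g h : GL (Fin 2) F}
    (e : ProjGenLinGroup.mk g * ProjGenLinGroup.mk h = ProjGenLinGroup.mk h * ProjGenLinGroup.mk g) :
    (g : Matrix (Fin 2) (Fin 2) F) * h = h * g ∨ (g : Matrix (Fin 2) (Fin 2) F) * h = -(h * g) := by
  rw [← map_mul, ← map_mul, eq_comm, mk_eq_mk] at e
  obtain ⟨c, -, e⟩ := e
  rw [Units.val_mul, Units.val_mul] at e
  have hd := congrArg Matrix.det e
  rw [Matrix.det_smul, Matrix.det_mul, Matrix.det_mul, Fintype.card_fin] at hd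
  have h0 : (g : Matrix (Fin 2) (Fin 2) F).det * (h : Matrix (Fin 2) (Fin 2) F).det ≠ 0 :=
    mul_ne_zero g.det_ne_zero h.det_ne_zero
  have h1 : c ^ 2 = 1 := by
    apply mul_right_cancel₀ h0
    linear_combination -hd
  rcases sq_eq_one_iff.1 h1 with rfl | rfl
  · left; simpa using e
  · right; simpa using e

theorem mk_comm {g h : GL (Fin 2) F} (e : (g : Matrix (Fin 2) (Fin 2) F) * h = h * g) :
    ProjGenLinGroup.mk g * ProjGenLinGroup.mk h = ProjGenLinGroup.mk h * ProjGenLinGroup.mk g := by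
  rw [← map_mul, ← map_mul]
  congr 1
  exact Units.ext e

theorem not_pm (h2 : (2 : F) ≠ 0) {g h : GL (Fin 2) F}
    (e : (g : Matrix (Fin 2) (Fin 2) F) * h = h * g)
    (e' : (g : Matrix (Fin 2) (Fin 2) F) * h = -(h * g)) : False := by
  have h1 : (2 : F) • ((h * g : GL (Fin 2) F) : Matrix (Fin 2) (Fin 2) F) = 0 := by
    rw [Units.val_mul, two_smul]
    nth_rewrite 1 [← e]
    rw [e', neg_add_cancel]
  rcases smul_eq_zero.1 h1 with h | h
  · exact h2 h
  · exact Units.ne_zero _ h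

theorem IsSc.comm {x : Matrix (Fin 2) (Fin 2) F} (hx : IsSc x) (y : Matrix (Fin 2) (Fin 2) F) :
    x * y = y * x := by
  obtain ⟨h1, h2, h3⟩ := hx
  ext i j
  fin_cases i <;> fin_cases j <;> simp [Matrix.mul_apply, Fin.sum_univ_two, h1, h2, h3] <;> ring

theorem core (h2 : (2 : F) ≠ 0) {z z' w : GL (Fin 2) F}
    (e : (z : Matrix (Fin 2) (Fin 2) F) * z' = -(z' * z))
    (h : (w : Matrix (Fin 2) (Fin 2) F) * z = z * w) (h' : (w : Matrix (Fin 2) (Fin 2) F) * z' = z' * w) :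
    ProjGenLinGroup.mk w = 1 := by
  have hz : ¬ IsSc (z : Matrix (Fin 2) (Fin 2) F) := fun hs => not_pm h2 (hs.comm _) e
  obtain ⟨a, b, hw⟩ := cent hz h
  rw [hw] at h'
  simp only [add_mul, mul_add, smul_mul_assoc, mul_smul_comm, one_mul, mul_one,
    add_right_inj] at h'
  by_cases hb : b = 0
  · rw [mk_eq_one_iff, hw, hb]
    simp [IsSc]
  · exact (not_pm h2 (smul_right_injective _ hb h') e).elim

theorem klein (h2 : (2 : F) ≠ 0) {z z' : GL (Fin 2) F}
    (e : (z : Matrix (Fin 2) (Fin 2) F) * z' = -(z' * z)) (u : PGL(2, F))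
    (h : u * ProjGenLinGroup.mk z = ProjGenLinGroup.mk z * u)
    (h' : u * ProjGenLinGroup.mk z' = ProjGenLinGroup.mk z' * u) :
    u = 1 ∨ u = (ProjGenLinGroup.mk z)⁻¹ ∨ u = (ProjGenLinGroup.mk z')⁻¹ ∨
      u = (ProjGenLinGroup.mk z * ProjGenLinGroup.mk z')⁻¹ := by
  induction u using ProjGenLinGroup.induction_on with | mk w =>
  have e' : (z' : Matrix (Fin 2) (Fin 2) F) * z = -(z * z') := by rw [e, neg_neg]
  rcases comm_pm h with h | h <;> rcases comm_pm h' with h' | h'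
  · exact Or.inl (core h2 e h h')
  · refine Or.inr (Or.inl (eq_inv_of_mul_eq_one_right ?_))
    rw [← map_mul]
    refine core h2 e ?_ ?_
    · rw [Units.val_mul, mul_assoc, h]
    · rw [Units.val_mul, mul_assoc, h', mul_neg, ← mul_assoc, e, ← mul_assoc]; simp
  · refine Or.inr (Or.inr (Or.inl (eq_inv_of_mul_eq_one_right ?_)))
    rw [← map_mul]
    refine core h2 e ?_ ?_
    · rw [Units.val_mul, mul_assoc, h, mul_neg, ← mul_assoc, e', ← mul_assoc]; simp
    · rw [Units.val_mul, mul_assoc, h']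
  · refine Or.inr (Or.inr (Or.inr (eq_inv_of_mul_eq_one_right ?_)))
    rw [← map_mul, ← map_mul]
    refine core h2 e ?_ ?_
    · rw [Units.val_mul, Units.val_mul, mul_assoc, h, mul_neg, mul_assoc, ← mul_assoc z'.1, e']
      simp [mul_assoc]
    · rw [Units.val_mul, Units.val_mul, mul_assoc, h', mul_neg, ← mul_assoc, ← mul_assoc,
        ← mul_assoc, e']
      simp [mul_assoc]

theorem conj_inv {m : GL (Fin 2) F} {x : Matrix (Fin 2) (Fin 2) F} {b : F} (hx : x ≠ 0)
    (h : (m : Matrix (Fin 2) (Fin 2) F) * x * (m⁻¹ : GL (Fin 2) F) = b • x) :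
    b ≠ 0 ∧ ((m⁻¹ : GL (Fin 2) F) : Matrix (Fin 2) (Fin 2) F) * x * m = b⁻¹ • x := by
  have h1 : x = b • (((m⁻¹ : GL (Fin 2) F) : Matrix (Fin 2) (Fin 2) F) * x * m) := by
    rw [← smul_mul_assoc, ← mul_smul_comm, ← h, ← mul_assoc, ← mul_assoc, Units.inv_mul, one_mul,
      mul_assoc, Units.inv_mul, mul_one]
  have hb : b ≠ 0 := by
    rintro rfl
    exact hx (by simpa using h1)
  refine ⟨hb, ?_⟩
  nth_rewrite 2 [h1]
  rw [smul_smul, inv_mul_cancel₀ hb, one_smul]

theorem comm_fix {m m' : GL (Fin 2) F} {x : Matrix (Fin 2) (Fin 2) F} {b b' : F} (hx : x ≠ 0)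
    (h : (m : Matrix (Fin 2) (Fin 2) F) * x * (m⁻¹ : GL (Fin 2) F) = b • x)
    (h' : (m' : Matrix (Fin 2) (Fin 2) F) * x * (m'⁻¹ : GL (Fin 2) F) = b' • x) :
    ((⁅m, m'⁆ : GL (Fin 2) F) : Matrix (Fin 2) (Fin 2) F) * x = x * (⁅m, m'⁆ : GL (Fin 2) F) := by
  obtain ⟨hb, -⟩ := conj_inv hx h
  obtain ⟨hb', -⟩ := conj_inv hx h'
  have f : (m : Matrix (Fin 2) (Fin 2) F) * x = b • (x * m) := by
    rw [← smul_mul_assoc, ← h, mul_assoc, Units.inv_mul, mul_one]
  have f' : (m' : Matrix (Fin 2) (Fin 2) F) * x = b' • (x * m') := by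
    rw [← smul_mul_assoc, ← h', mul_assoc, Units.inv_mul, mul_one]
  have g1 : ((m * m' : GL (Fin 2) F) : Matrix (Fin 2) (Fin 2) F) * x
      = (b * b') • (x * (m * m' : GL (Fin 2) F)) := by
    rw [Units.val_mul, mul_assoc, f', mul_smul_comm, ← mul_assoc, f, smul_mul_assoc, smul_smul,
      mul_comm b' b, mul_assoc x]
  have g2 : ((m' * m : GL (Fin 2) F) : Matrix (Fin 2) (Fin 2) F) * x
      = (b * b') • (x * (m' * m : GL (Fin 2) F)) := by
    rw [Units.val_mul, mul_assoc, f, mul_smul_comm, ← mul_assoc, f', smul_mul_assoc, smul_smul,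
      mul_assoc x]
  have g3 : (⁅m, m'⁆ : GL (Fin 2) F) * (m' * m) = m * m' := by
    rw [commutatorElement_def]; group
  apply (Units.mul_left_inj (m' * m)).1
  apply smul_right_injective _ (mul_ne_zero hb hb')
  simp only
  rw [mul_assoc, ← mul_smul_comm, ← g2, ← mul_assoc, ← Units.val_mul, g3, g1, mul_assoc,
    ← Units.val_mul, g3]

theorem hypZ (h2 : (2 : F) ≠ 0) (Z : Subgroup PGL(2, F)) (hZ1 : ∃ z ∈ Z, z ≠ 1)
    (hZ2 : ∀ a ∈ Z, ∀ b ∈ Z, a * b = b * a) :
    (∀ m₁ m₂ m₃ m₄ : PGL(2, F), (∀ z ∈ Z, m₁ * z * m₁⁻¹ ∈ Z) → (∀ z ∈ Z, m₂ * z * m₂⁻¹ ∈ Z) →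
        (∀ z ∈ Z, m₃ * z * m₃⁻¹ ∈ Z) → (∀ z ∈ Z, m₄ * z * m₄⁻¹ ∈ Z) →
        ⁅⁅m₁, m₂⁆, ⁅m₃, m₄⁆⁆ = 1) ∨ (∀ m : PGL(2, F), (∀ z ∈ Z, m * z * m⁻¹ ∈ Z) → m ^ 6 ∈ Z) := by
  by_cases hc : ∀ z z' : GL (Fin 2) F, ProjGenLinGroup.mk z ∈ Z → ProjGenLinGroup.mk z' ∈ Z →
      (z : Matrix (Fin 2) (Fin 2) F) * z' = z' * z
  · left
    obtain ⟨z, hz, hz1⟩ := hZ1
    induction z using ProjGenLinGroup.induction_on with | mk z =>
    rw [Ne, mk_eq_one_iff] at hz1
    set x : Matrix (Fin 2) (Fin 2) F :=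
      (2 : F) • (z : Matrix (Fin 2) (Fin 2) F) - (z : Matrix (Fin 2) (Fin 2) F).trace • 1 with hx
    have hxs : ¬ IsSc x := by
      rintro ⟨h1, h3, h4⟩
      apply hz1
      simp only [hx, Matrix.sub_apply, Matrix.smul_apply, smul_eq_mul, ne_eq, zero_ne_one,
        not_false_eq_true, one_apply_ne, mul_zero, sub_zero, mul_eq_zero, h2, false_or,
        one_ne_zero, one_apply_eq, mul_one, sub_left_inj] at h1 h3 h4
      exact ⟨h1, h3, mul_left_cancel₀ h2 h4⟩
    have hx0 : x ≠ 0 := by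
      intro e
      exact hxs (by simp [e, IsSc])
    have key : ∀ m : GL (Fin 2) F,
        (∀ z ∈ Z, ProjGenLinGroup.mk m * z * (ProjGenLinGroup.mk m)⁻¹ ∈ Z) →
        ∃ b : F, (m : Matrix (Fin 2) (Fin 2) F) * x * (m⁻¹ : GL (Fin 2) F) = b • x := by
      intro m hm
      have h1 := hm _ hz
      rw [← map_inv, ← map_mul, ← map_mul] at h1
      obtain ⟨a, b, e⟩ := cent hz1 (hc _ _ h1 hz)
      rw [Units.val_mul, Units.val_mul] at e
      have ht := congrArg Matrix.trace e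
      rw [Matrix.trace_mul_cycle, Units.inv_mul, one_mul, Matrix.trace_add, Matrix.trace_smul,
        Matrix.trace_smul, Matrix.trace_one, Fintype.card_fin, smul_eq_mul, smul_eq_mul] at ht
      refine ⟨b, ?_⟩
      rw [hx, mul_sub, sub_mul, mul_smul_comm, smul_mul_assoc, e, mul_smul_comm, smul_mul_assoc,
        mul_one, Units.mul_inv]
      nth_rewrite 1 [ht]
      push_cast
      module
    intro m₁ m₂ m₃ m₄ h₁ h₂ h₃ h₄
    induction m₁ using ProjGenLinGroup.induction_on with | mk m₁ =>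
    induction m₂ using ProjGenLinGroup.induction_on with | mk m₂ =>
    induction m₃ using ProjGenLinGroup.induction_on with | mk m₃ =>
    induction m₄ using ProjGenLinGroup.induction_on with | mk m₄ =>
    obtain ⟨b₁, e₁⟩ := key _ h₁
    obtain ⟨b₂, e₂⟩ := key _ h₂
    obtain ⟨b₃, e₃⟩ := key _ h₃
    obtain ⟨b₄, e₄⟩ := key _ h₄
    rw [← map_commutatorElement, ← map_commutatorElement, commutatorElement_eq_one_iff_mul_comm]
    exact mk_comm (cent_comm hxs (comm_fix hx0 e₁ e₂) (comm_fix hx0 e₃ e₄))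
  · right
    push Not at hc
    obtain ⟨z, z', hz, hz', hne⟩ := hc
    have e := (comm_pm (hZ2 _ hz _ hz')).resolve_left hne
    intro m hm
    have hS : ∀ u ∈ {u | u ∈ Z ∧ u ≠ 1}, u = (ProjGenLinGroup.mk z)⁻¹ ∨
        u = (ProjGenLinGroup.mk z')⁻¹ ∨ u = (ProjGenLinGroup.mk z * ProjGenLinGroup.mk z')⁻¹ :=
      fun u hu => (klein h2 e u (hZ2 _ hu.1 _ hz) (hZ2 _ hu.1 _ hz')).resolve_left hu.2
    have hinj : Function.Injective (fun u : PGL(2, F) => m * u * m⁻¹) := by
      intro u u' h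
      simpa using h
    have hfix : ∀ u ∈ Z, m ^ 6 * u = u * m ^ 6 := by
      intro u hu
      by_cases h1 : u = 1
      · simp [h1]
      · have := iter_six hinj hS (fun u hu => ⟨hm u hu.1, fun e => hu.2 (hinj (by simpa using e))⟩)
          (x := u) ⟨hu, h1⟩
        nth_rewrite 2 [← this]
        simp only [pow_succ, pow_zero, one_mul, mul_assoc, inv_mul_cancel_left, inv_mul_cancel,
          mul_one]
    rcases klein h2 e (m ^ 6) (hfix _ hz) (hfix _ hz') with h | h | h | h <;> rw [h]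
    · exact one_mem _
    · exact inv_mem hz
    · exact inv_mem hz'
    · exact inv_mem (mul_mem hz hz')

theorem hypT (h2 : (2 : F) ≠ 0) (t : PGL(2, F)) (ht : t ≠ 1) :
    ∃ T : Set PGL(2, F), (∀ a ∈ T, ∀ b ∈ T, a * b = b * a) ∧
      ∀ a b : PGL(2, F), a * t = t * a → b * t = t * b → (a ∈ T ↔ b ∈ T) → a⁻¹ * b ∈ T := by
  induction t using ProjGenLinGroup.induction_on with | mk t =>
  rw [Ne, mk_eq_one_iff] at ht
  refine ⟨{u | ∃ w : GL (Fin 2) F, ProjGenLinGroup.mk w = u ∧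
    (w : Matrix (Fin 2) (Fin 2) F) * t = t * w}, ?_, ?_⟩
  · rintro _ ⟨a, rfl, ha⟩ _ ⟨b, rfl, hb⟩
    exact mk_comm (cent_comm ht ha hb)
  · intro a b ha hb hab
    induction a using ProjGenLinGroup.induction_on with | mk a =>
    induction b using ProjGenLinGroup.induction_on with | mk b =>
    have key : ∀ a : GL (Fin 2) F, (∃ w : GL (Fin 2) F, ProjGenLinGroup.mk w = ProjGenLinGroup.mk a ∧
        (w : Matrix (Fin 2) (Fin 2) F) * t = t * w) ↔
        (a : Matrix (Fin 2) (Fin 2) F) * t = t * a := by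
      intro a
      refine ⟨?_, fun h => ⟨a, rfl, h⟩⟩
      rintro ⟨w, hw, h⟩
      obtain ⟨c, -, e⟩ := mk_eq_mk.1 hw
      rw [e, smul_mul_assoc, mul_smul_comm, h]
    simp only [Set.mem_ofPred_eq, key] at hab
    refine ⟨a⁻¹ * b, by rw [map_mul, map_inv], ?_⟩
    apply (Units.mul_right_inj a).1
    rw [Units.val_mul, ← mul_assoc, ← mul_assoc, Units.mul_inv, one_mul, ← mul_assoc, ← mul_assoc]
    rcases comm_pm ha with ha | ha
    · rw [hab.1 ha, ha, mul_assoc t.1, Units.mul_inv, mul_one]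
    · rcases comm_pm hb with hb | hb
      · exact (not_pm h2 (hab.2 hb) ha).elim
      · rw [hb, ha, neg_mul, mul_assoc t.1, Units.mul_inv, mul_one, neg_mul]

theorem char_two (h2 : (2 : F) = 0) (g : PGL(2, F)) (h : g ^ 4 = 1) : g ^ 2 = 1 := by
  induction g using ProjGenLinGroup.induction_on with | mk g =>
  rw [← map_pow, mk_eq_one_iff] at h ⊢
  rw [show (4 : ℕ) = 2 + 2 from rfl, pow_add] at h
  rw [Units.val_mul] at h
  simp only [sq, Units.val_mul] at h ⊢
  generalize (g : Matrix (Fin 2) (Fin 2) F) = A at h ⊢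
  obtain ⟨h1, h3, h4⟩ := h
  simp only [IsSc, Matrix.mul_apply, Fin.sum_univ_two] at h1 h3 h4 ⊢
  by_cases ha : A 0 0 + A 1 1 = 0
  · refine ⟨?_, ?_, ?_⟩
    · linear_combination A 0 1 * ha
    · linear_combination A 1 0 * ha
    · linear_combination (A 0 0 - A 1 1) * ha
  · have ha2 : (A 0 0 + A 1 1) ^ 2 ≠ 0 := pow_ne_zero _ ha
    refine ⟨?_, ?_, ?_⟩
    · apply mul_left_cancel₀ ha2
      linear_combination h1 + (A 0 0 * A 1 1 - A 0 1 * A 1 0) * (A 0 1 * (A 0 0 + A 1 1)) * h2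
    · apply mul_left_cancel₀ ha2
      linear_combination h3 + (A 0 0 * A 1 1 - A 0 1 * A 1 0) * (A 1 0 * (A 0 0 + A 1 1)) * h2
    · apply mul_left_cancel₀ ha2
      linear_combination h4 +
        (A 0 0 * A 1 1 - A 0 1 * A 1 0) * ((A 0 0 - A 1 1) * (A 0 0 + A 1 1)) * h2

theorem loc_finite {p : ℕ} [Fact p.Prime] [Algebra (ZMod p) F] [Algebra.IsAlgebraic (ZMod p) F]
    (s : Set PGL(2, F)) (hs : s.Finite) : Finite (Subgroup.closure s) := by
  classical
  choose l hl using ProjGenLinGroup.mk_surjective (n := Fin 2) (R := F)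
  set E : Set F := ⋃ u ∈ s, Set.range (fun ij : Fin 2 × Fin 2 => l u ij.1 ij.2) with hE
  have hEf : E.Finite := hs.biUnion fun u _ => Set.finite_range _
  have : Finite E := hEf
  set K := IntermediateField.adjoin (ZMod p) E with hK
  have : FiniteDimensional (ZMod p) K := IntermediateField.finiteDimensional_adjoin
    fun x _ => (Algebra.IsAlgebraic.isAlgebraic x).isIntegral
  have : Finite K := Module.finite_of_finite (ZMod p)
  have : Finite (Matrix (Fin 2) (Fin 2) K) := inferInstanceAs (Finite (Fin 2 → Fin 2 → K))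
  set φ : GL (Fin 2) K →* PGL(2, F) :=
    ProjGenLinGroup.mk.comp (Matrix.GeneralLinearGroup.map (algebraMap K F)) with hφ
  have hle : Subgroup.closure s ≤ φ.range := by
    rw [Subgroup.closure_le]
    intro u hu
    have hm : ∀ i j, l u i j ∈ K := fun i j =>
      IntermediateField.subset_adjoin _ _ (Set.mem_biUnion hu ⟨(i, j), rfl⟩)
    let A : Matrix (Fin 2) (Fin 2) K := Matrix.of fun i j => ⟨l u i j, hm i j⟩
    have hA : A.map (algebraMap K F) = l u := by ext i j; rfl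
    have hd : A.det ≠ 0 := by
      intro e
      apply (l u).det_ne_zero
      rw [← hA]
      have := (algebraMap K F).map_det A
      rw [e, map_zero] at this
      exact this.symm
    refine ⟨Matrix.GeneralLinearGroup.mkOfDetNeZero A hd, ?_⟩
    rw [← hl u, hφ, MonoidHom.comp_apply]
    congr 1
    exact Units.ext hA
  have : Finite φ.range := Set.finite_range φ
  exact Finite.of_injective _ (Subgroup.inclusion_injective hle)

theorem no_four {p : ℕ} [Fact p.Prime] [Algebra (ZMod p) F] [Algebra.IsAlgebraic (ZMod p) F]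
    {Ω : Type*} [MulAction PGL(2, F) Ω] [Infinite Ω]
    (h4 : MulAction.IsMultiplyPretransitive PGL(2, F) Ω 4) : False := by
  by_cases h2 : (2 : F) = 0
  · refine no_four_of_no_order_four h4 (fun g => ?_) (char_two h2)
    have := loc_finite (p := p) {g} (Set.finite_singleton g)
    have h1 := isOfFinOrder_of_finite
      (⟨g, Subgroup.subset_closure rfl⟩ : Subgroup.closure ({g} : Set PGL(2, F)))
    exact (Subgroup.subtype _).isOfFinOrder h1
  · exact not_sharp h4 (sharp h4 (loc_finite (p := p)) (hypZ h2)) (hypT h2)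

end Pool.Agent.H443Z.HT
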