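import Mathlib

set_option autoImplicit false

namespace Pool.Agent.H443Z.HT

universe u

/-- `G` has a faithful `k`-transitive action on some set with at least `k` points. -/
def HasFaithfulTrans (G : Type u) [Group G] (k : ℕ) : Prop :=
  ∃ (Ω : Type u) (_ : MulAction G Ω), FaithfulSMul G Ω ∧ (k : ℕ∞) ≤ ENat.card Ω ∧
    MulAction.IsMultiplyPretransitive G Ω k

/-- The transitivity degree: the supremum in `ℕ ∪ {∞}` of all `k ≥ 1` such that `G` has a faithful
`k`-transitive action. -/
noncomputable def td (G : Type u) [Group G] : ℕ∞ :=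
  ⨆ k ∈ {k : ℕ | 1 ≤ k ∧ HasFaithfulTrans G k}, (k : ℕ∞)

/-- `G` has a faithful action on an infinite set that is `k`-transitive for every `k`. -/
def HighlyTransitive (G : Type u) [Group G] : Prop :=
  ∃ (Ω : Type u) (_ : MulAction G Ω), FaithfulSMul G Ω ∧ Infinite Ω ∧
    ∀ k : ℕ, MulAction.IsMultiplyPretransitive G Ω k

/-- `F` is an algebraic extension of a prime field `𝔽_p`. -/
def AlgebraicOverFp (F : Type u) [Field F] : Prop :=
  ∃ (p : ℕ) (_ : Fact p.Prime) (_ : Algebra (ZMod p) F), Algebra.IsAlgebraic (ZMod p) F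

end Pool.Agent.H443Z.HT
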