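import Pool.Agent.H443Z.HTDefs
import Pool.Agent.H443Z.HT4
import Pool.Agent.H443Z.HT6

set_option autoImplicit false

namespace Pool.Agent.H443Z.HT

open scoped MatrixGroups

universe u

variable {F : Type u} [Field F]

theorem infinite_of_faithful {G Ω : Type*} [Group G] [Infinite G] [MulAction G Ω]
    [FaithfulSMul G Ω] : Infinite Ω := by
  by_contra h
  rw [not_infinite_iff_finite] at h
  have : Finite G := Finite.of_injective _ (MulAction.toPerm_injective (α := G) (β := Ω))
  exact not_finite G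

theorem ht_of_not [Countable F] [Infinite F] (h : ¬ AlgebraicOverFp F) :
    HighlyTransitive PGL(2, F) := by
  classical
  obtain ⟨O, t, hO⟩ := exists_good h
  obtain ⟨H, h1, h2⟩ := hO.exists_subgroup
  have := infinite_pgl (F := F)
  exact ⟨_, inferInstance, h1, infinite_of_faithful (G := PGL(2, F)), h2⟩

theorem le_three [Infinite F] (h : AlgebraicOverFp F) {k : ℕ}
    (hk : HasFaithfulTrans PGL(2, F) k) : k ≤ 3 := by
  classical
  obtain ⟨p, _, _, _⟩ := h
  obtain ⟨Ω, _, h1, h2, h3⟩ := hk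
  have := infinite_pgl (F := F)
  have : Infinite Ω := infinite_of_faithful (G := PGL(2, F))
  by_contra hc
  have h4 : MulAction.IsMultiplyPretransitive PGL(2, F) Ω 4 :=
    MulAction.isMultiplyPretransitive_of_le' (m := 4) (n := k) (by omega) h2
  exact no_four (p := p) h4

theorem three [Infinite F] : HasFaithfulTrans PGL(2, F) 3 := by
  classical
  refine ⟨OnePoint F, pglAction, faithful_pgl, ?_, three_trans⟩
  have : Infinite (OnePoint F) := Infinite.of_injective _ OnePoint.coe_injective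
  simp

theorem ht_iff [Countable F] [Infinite F] :
    HighlyTransitive PGL(2, F) ↔ ¬ AlgebraicOverFp F := by
  refine ⟨fun ⟨Ω, _, h1, h2, h3⟩ h => ?_, ht_of_not⟩
  have := le_three h (k := 4) ⟨Ω, _, h1, by simp, h3 4⟩
  omega

theorem td_eq [Countable F] [Infinite F] :
    (AlgebraicOverFp F → td PGL(2, F) = 3) ∧ (¬ AlgebraicOverFp F → td PGL(2, F) = ⊤) := by
  constructor
  · intro h
    apply le_antisymm
    · refine iSup₂_le fun k hk => ?_
      exact_mod_cast le_three h hk.2
    · exact le_iSup₂_of_le (f := fun (k : ℕ) (_ : k ∈ {k : ℕ | 1 ≤ k ∧ HasFaithfulTrans PGL(2, F) k})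
        => (k : ℕ∞)) 3 ⟨by norm_num, three⟩ le_rfl
  · intro h
    obtain ⟨Ω, _, h1, h2, h3⟩ := ht_of_not h
    rw [ENat.eq_top_iff_forall_ge]
    intro m
    refine le_iSup₂_of_le (f := fun (k : ℕ) (_ : k ∈ {k : ℕ | 1 ≤ k ∧ HasFaithfulTrans PGL(2, F) k})
        => (k : ℕ∞)) (m + 1) ⟨by omega, Ω, _, h1, by simp, h3 _⟩ ?_
    exact_mod_cast Nat.le_succ m

end Pool.Agent.H443Z.HT
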