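import Mathlib

set_option autoImplicit false

namespace Pool.Agent.H443Z.RW

open Finset

variable {d : ℕ}

theorem card_le (n : ℕ) (c : Fin d → ℤ) (F : Finset (Fin d → ℤ)) (h : ∀ z ∈ F, ‖z - c‖ < n) :
    F.card ≤ (2 * n) ^ d := by
  have hsub : F ⊆ Fintype.piFinset (fun i => Finset.Ioo (c i - n) (c i + n)) := by
    intro z hz
    rw [Fintype.mem_piFinset]
    intro i
    have h1 : ‖(z - c) i‖ < n := lt_of_le_of_lt (norm_le_pi_norm _ i) (h z hz)
    rw [Int.norm_eq_abs, Pi.sub_apply] at h1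
    have h2 : |z i - c i| < n := by exact_mod_cast h1
    rw [abs_lt] at h2
    rw [Finset.mem_Ioo]
    omega
  refine (Finset.card_le_card hsub).trans ?_
  rw [Fintype.card_piFinset]
  calc ∏ i : Fin d, (Finset.Ioo (c i - n) (c i + n)).card ≤ ∏ _i : Fin d, 2 * n := by
        refine Finset.prod_le_prod' fun i _ => ?_
        rw [Int.card_Ioo]
        omega
    _ = (2 * n) ^ d := by simp

theorem exists_ball (r : ℝ) (hr : 0 ≤ r) : ∃ F : Finset (Fin d → ℤ), (∀ z ∈ F, ‖z‖ ≤ r) ∧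
    ((1 + r) / 2) ^ d ≤ F.card := by
  refine ⟨Fintype.piFinset (fun _ => Finset.Icc (0 : ℤ) (⌊r⌋₊ : ℤ)), ?_, ?_⟩
  · intro z hz
    rw [Fintype.mem_piFinset] at hz
    rw [pi_norm_le_iff_of_nonneg hr]
    intro i
    have := Finset.mem_Icc.1 (hz i)
    rw [Int.norm_eq_abs]
    have h1 : (0 : ℝ) ≤ z i := by exact_mod_cast this.1
    have h2 : (z i : ℝ) ≤ ⌊r⌋₊ := by exact_mod_cast this.2
    rw [abs_of_nonneg h1]
    exact h2.trans (Nat.floor_le hr)
  · rw [Fintype.card_piFinset]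
    simp only [Int.card_Icc, prod_const, card_univ, Fintype.card_fin]
    have e : ((⌊r⌋₊ : ℤ) + 1 - 0).toNat = ⌊r⌋₊ + 1 := by omega
    rw [e]
    push_cast
    have := Nat.lt_floor_add_one r
    have h0 : (0 : ℝ) ≤ ⌊r⌋₊ := by positivity
    gcongr
    linarith

theorem dyadic {X : Type*} (F : Finset X) (u μ : X → ℝ) {e : ℝ} (he : e ≤ 0)
    (hu : ∀ x ∈ F, 1 ≤ u x) (hμ : ∀ x ∈ F, 0 ≤ μ x) (M : ℕ → ℝ)
    (hM : ∀ j, ∑ x ∈ F.filter (fun x => u x < 2 ^ (j + 1)), μ x ≤ M j) :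
    ∃ J : Finset ℕ, (∀ j ∈ J, ∃ x ∈ F, (2 : ℝ) ^ j ≤ u x ∧ u x < 2 ^ (j + 1)) ∧
      ∑ x ∈ F, μ x * u x ^ e ≤ ∑ j ∈ J, M j * ((2 : ℝ) ^ j) ^ e := by
  classical
  have h1 : ∀ x : X, ∃ j : ℕ, 1 ≤ u x → (2 : ℝ) ^ j ≤ u x ∧ u x < 2 ^ (j + 1) := by
    intro x
    by_cases h : 1 ≤ u x
    · obtain ⟨j, hj⟩ := exists_nat_pow_near h (one_lt_two (α := ℝ))
      exact ⟨j, fun _ => hj⟩
    · exact ⟨0, fun h' => absurd h' h⟩
  choose lg hlg using h1
  refine ⟨F.image lg, ?_, ?_⟩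
  · intro j hj
    obtain ⟨x, hx, rfl⟩ := Finset.mem_image.1 hj
    exact ⟨x, hx, hlg x (hu x hx)⟩
  · rw [← Finset.sum_fiberwise_of_maps_to (g := lg) (fun x hx => Finset.mem_image_of_mem lg hx)]
    refine Finset.sum_le_sum fun j _ => ?_
    have hp : 0 ≤ ((2 : ℝ) ^ j) ^ e := by positivity
    calc ∑ x ∈ F.filter (fun x => lg x = j), μ x * u x ^ e
        ≤ ∑ x ∈ F.filter (fun x => lg x = j), μ x * ((2 : ℝ) ^ j) ^ e := by
          refine Finset.sum_le_sum fun x hx => ?_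
          obtain ⟨hx1, hx2⟩ := Finset.mem_filter.1 hx
          refine mul_le_mul_of_nonneg_left ?_ (hμ x hx1)
          exact Real.rpow_le_rpow_of_nonpos (by positivity) (hx2 ▸ (hlg x (hu x hx1)).1) he
      _ = (∑ x ∈ F.filter (fun x => lg x = j), μ x) * ((2 : ℝ) ^ j) ^ e := by
          rw [Finset.sum_mul]
      _ ≤ M j * ((2 : ℝ) ^ j) ^ e := by
          refine mul_le_mul_of_nonneg_right (le_trans ?_ (hM j)) hp
          refine Finset.sum_le_sum_of_subset_of_nonneg ?_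
            (fun x hx _ => hμ x (Finset.mem_filter.1 hx).1)
          intro x hx
          obtain ⟨hx1, hx2⟩ := Finset.mem_filter.1 hx
          exact Finset.mem_filter.2 ⟨hx1, hx2 ▸ (hlg x (hu x hx1)).2⟩

theorem two_pow_rpow (j : ℕ) (s : ℝ) : ((2 : ℝ) ^ j) ^ s = ((2 : ℝ) ^ s) ^ j := by
  rw [← Real.rpow_natCast, ← Real.rpow_natCast, ← Real.rpow_mul (by norm_num),
    ← Real.rpow_mul (by norm_num), mul_comm]

theorem geom_up {s : ℝ} (hs : 0 < s) : ∃ C : ℝ, 0 ≤ C ∧ ∀ (J : Finset ℕ) (D : ℝ), 0 ≤ D →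
    (∀ j ∈ J, (2 : ℝ) ^ j ≤ D) → ∑ j ∈ J, ((2 : ℝ) ^ j) ^ s ≤ C * D ^ s := by
  have hq : 1 < (2 : ℝ) ^ s := Real.one_lt_rpow (by norm_num) hs
  refine ⟨2 ^ s / (2 ^ s - 1), div_nonneg (by positivity) (by linarith), fun J D hD hJ => ?_⟩
  rcases J.eq_empty_or_nonempty with rfl | hne
  · simp only [sum_empty]
    exact mul_nonneg (div_nonneg (by positivity) (by linarith)) (by positivity)
  set m := J.max' hne with hm
  have hsub : J ⊆ Finset.range (m + 1) := fun j hj =>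
    Finset.mem_range.2 (Nat.lt_succ_of_le (J.le_max' j hj))
  have h1 : ((2 : ℝ) ^ m) ^ s ≤ D ^ s :=
    Real.rpow_le_rpow (by positivity) (hJ m (J.max'_mem hne)) hs.le
  calc ∑ j ∈ J, ((2 : ℝ) ^ j) ^ s ≤ ∑ j ∈ Finset.range (m + 1), ((2 : ℝ) ^ j) ^ s :=
        Finset.sum_le_sum_of_subset_of_nonneg hsub (fun _ _ _ => by positivity)
    _ = (((2 : ℝ) ^ s) ^ (m + 1) - 1) / (2 ^ s - 1) := by
        simp_rw [two_pow_rpow]
        exact geom_sum_eq hq.ne' _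
    _ ≤ ((2 : ℝ) ^ s) ^ (m + 1) / (2 ^ s - 1) := by
        gcongr
        linarith
    _ = 2 ^ s / (2 ^ s - 1) * ((2 : ℝ) ^ m) ^ s := by
        rw [two_pow_rpow]; ring
    _ ≤ 2 ^ s / (2 ^ s - 1) * D ^ s :=
        mul_le_mul_of_nonneg_left h1 (div_nonneg (by positivity) (by linarith))

theorem geom_down {s : ℝ} (hs : 0 < s) : ∃ C : ℝ, 0 ≤ C ∧ ∀ (J : Finset ℕ) (R : ℝ), 0 < R →
    (∀ j ∈ J, R < (2 : ℝ) ^ (j + 1)) → ∑ j ∈ J, ((2 : ℝ) ^ j) ^ (-s) ≤ C * R ^ (-s) := by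
  have hq : (2 : ℝ) ^ (-s) < 1 := Real.rpow_lt_one_of_one_lt_of_neg (by norm_num) (by linarith)
  have hq0 : 0 < (2 : ℝ) ^ (-s) := by positivity
  have hC : 0 ≤ 2 ^ s / (1 - (2 : ℝ) ^ (-s)) := div_nonneg (by positivity) (by linarith)
  refine ⟨2 ^ s / (1 - 2 ^ (-s)), hC, fun J R hR hJ => ?_⟩
  rcases J.eq_empty_or_nonempty with rfl | hne
  · simp only [sum_empty]
    exact mul_nonneg hC (by positivity)
  set m := J.min' hne with hm
  have hsub : J ⊆ Finset.Ico m (J.max' hne + 1) := fun j hj =>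
    Finset.mem_Ico.2 ⟨J.min'_le j hj, Nat.lt_succ_of_le (J.le_max' j hj)⟩
  have h1 : ((2 : ℝ) ^ (m + 1)) ^ (-s) ≤ R ^ (-s) :=
    Real.rpow_le_rpow_of_nonpos hR (hJ m (J.min'_mem hne)).le (by linarith)
  have h2 : (2 : ℝ) ^ s * 2 ^ (-s) = 1 := by
    rw [← Real.rpow_add (by norm_num)]; simp
  calc ∑ j ∈ J, ((2 : ℝ) ^ j) ^ (-s) ≤ ∑ j ∈ Finset.Ico m (J.max' hne + 1), ((2 : ℝ) ^ j) ^ (-s) :=
        Finset.sum_le_sum_of_subset_of_nonneg hsub (fun _ _ _ => by positivity)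
    _ ≤ ((2 : ℝ) ^ (-s)) ^ m / (1 - 2 ^ (-s)) := by
        simp_rw [two_pow_rpow]
        exact geom_sum_Ico_le_of_lt_one hq0.le hq
    _ = 2 ^ s / (1 - 2 ^ (-s)) * ((2 : ℝ) ^ (m + 1)) ^ (-s) := by
        rw [two_pow_rpow, pow_succ, div_mul_eq_mul_div]
        congr 1
        linear_combination (-((2 : ℝ) ^ (-s)) ^ m) * h2
    _ ≤ 2 ^ s / (1 - 2 ^ (-s)) * R ^ (-s) := mul_le_mul_of_nonneg_left h1 hC

theorem count_aux (F : Finset (Fin d → ℤ)) (c : Fin d → ℤ) {ρ : ℝ} (hρ : 1 ≤ ρ) (j : ℕ) :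
    ∑ _x ∈ F.filter (fun z => ρ + ‖z - c‖ < 2 ^ (j + 1)), (1 : ℝ) ≤ 4 ^ d * ((2 : ℝ) ^ j) ^ (d : ℝ) := by
  have := card_le (2 ^ (j + 1)) c (F.filter (fun z => ρ + ‖z - c‖ < 2 ^ (j + 1))) (by
    intro z hz
    have := (Finset.mem_filter.1 hz).2
    push_cast
    linarith)
  simp only [sum_const, nsmul_eq_mul, mul_one]
  rw [Real.rpow_natCast, ← mul_pow]
  have h2 : ((2 * 2 ^ (j + 1)) ^ d : ℕ) = ((4 * (2 : ℝ) ^ j) ^ d) := by
    push_cast; congr 1; ring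
  rw [← h2]
  exact_mod_cast this

theorem sum_up {s : ℝ} (hs : 0 < s) (hsd : s ≤ d) : ∃ C : ℝ, 0 ≤ C ∧
    ∀ (F : Finset (Fin d → ℤ)) (c : Fin d → ℤ) (ρ D : ℝ), 1 ≤ ρ → 0 ≤ D →
      (∀ z ∈ F, ρ + ‖z - c‖ ≤ D) → ∑ z ∈ F, (ρ + ‖z - c‖) ^ (s - d) ≤ C * D ^ s := by
  obtain ⟨C, hC, h⟩ := geom_up hs
  refine ⟨4 ^ d * C, by positivity, fun F c ρ D hρ hD hF => ?_⟩
  obtain ⟨J, hJ1, hJ2⟩ := dyadic F (fun z => ρ + ‖z - c‖) (fun _ => 1) (e := s - d) (by linarith)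
    (fun z _ => by have := norm_nonneg (z - c); linarith) (fun _ _ => zero_le_one) _
    (count_aux F c hρ)
  simp only [one_mul] at hJ2
  refine hJ2.trans ?_
  have e : ∀ j : ℕ, 4 ^ d * ((2 : ℝ) ^ j) ^ (d : ℝ) * ((2 : ℝ) ^ j) ^ (s - d)
      = 4 ^ d * ((2 : ℝ) ^ j) ^ s := by
    intro j
    rw [mul_assoc, ← Real.rpow_add (by positivity)]
    congr 2; ring
  simp_rw [e]
  rw [← Finset.mul_sum, mul_assoc]
  gcongr
  refine h J D hD fun j hj => ?_
  obtain ⟨x, hx, h1, -⟩ := hJ1 j hj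
  exact h1.trans (hF x hx)

theorem sum_down {s : ℝ} (hs : 0 < s) : ∃ C : ℝ, 0 ≤ C ∧
    ∀ (F : Finset (Fin d → ℤ)) (c : Fin d → ℤ) (ρ R : ℝ), 1 ≤ ρ → 0 < R →
      (∀ z ∈ F, R ≤ ρ + ‖z - c‖) → ∑ z ∈ F, (ρ + ‖z - c‖) ^ (-s - d) ≤ C * R ^ (-s) := by
  obtain ⟨C, hC, h⟩ := geom_down hs
  refine ⟨4 ^ d * C, by positivity, fun F c ρ R hρ hR hF => ?_⟩
  have hd : (0 : ℝ) ≤ d := by positivity
  obtain ⟨J, hJ1, hJ2⟩ := dyadic F (fun z => ρ + ‖z - c‖) (fun _ => 1) (e := -s - d) (by linarith)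
    (fun z _ => by have := norm_nonneg (z - c); linarith) (fun _ _ => zero_le_one) _
    (count_aux F c hρ)
  simp only [one_mul] at hJ2
  refine hJ2.trans ?_
  have e : ∀ j : ℕ, 4 ^ d * ((2 : ℝ) ^ j) ^ (d : ℝ) * ((2 : ℝ) ^ j) ^ (-s - d)
      = 4 ^ d * ((2 : ℝ) ^ j) ^ (-s) := by
    intro j
    rw [mul_assoc, ← Real.rpow_add (by positivity)]
    congr 2; ring
  simp_rw [e]
  rw [← Finset.mul_sum, mul_assoc]
  gcongr
  refine h J R hR fun j hj => ?_
  obtain ⟨x, hx, -, h1⟩ := hJ1 j hj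
  exact lt_of_le_of_lt (hF x hx) h1

/-- comparison of negative powers -/
theorem rpow_cmp {a b K e : ℝ} (hb : 0 < b) (hK : 1 ≤ K) (he : e ≤ 0) {m : ℝ} (hm : -e ≤ m)
    (h : b ≤ K * a) : a ^ e ≤ K ^ m * b ^ e := by
  have hK0 : 0 < K := by linarith
  have ha : 0 < a := by
    by_contra h'
    have : K * a ≤ 0 := mul_nonpos_of_nonneg_of_nonpos hK0.le (not_lt.1 h')
    linarith
  have h1 : (K * a) ^ e ≤ b ^ e := Real.rpow_le_rpow_of_nonpos hb h he
  rw [Real.mul_rpow hK0.le ha.le] at h1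
  have h2 : K ^ (-e) ≤ K ^ m := Real.rpow_le_rpow_of_exponent_le hK hm
  have h3 : K ^ (-e) * K ^ e = 1 := by rw [← Real.rpow_add hK0]; simp
  calc a ^ e = K ^ (-e) * (K ^ e * a ^ e) := by rw [← mul_assoc, h3, one_mul]
    _ ≤ K ^ m * b ^ e := mul_le_mul h2 h1 (by positivity) (by positivity)

theorem rpow_cmp' {a b K e : ℝ} (ha : 0 ≤ a) (hb : 0 ≤ b) (hK : 1 ≤ K) (he : 0 ≤ e) {m : ℝ}
    (hm : e ≤ m) (h : a ≤ K * b) : a ^ e ≤ K ^ m * b ^ e := by
  have hK0 : 0 < K := by linarith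
  have h1 : a ^ e ≤ (K * b) ^ e := Real.rpow_le_rpow ha h he
  rw [Real.mul_rpow hK0.le hb] at h1
  exact h1.trans (mul_le_mul_of_nonneg_right (Real.rpow_le_rpow_of_exponent_le hK hm)
    (by positivity))

theorem conv {α s : ℝ} (hα : 0 < α) (hs : 0 < s) (hd : α + s < d) : ∃ C : ℝ, 0 ≤ C ∧
    ∀ (F : Finset (Fin d → ℤ)) (x : Fin d → ℤ) (ρ : ℝ), 1 ≤ ρ →
      ∑ z ∈ F, (1 + ‖z‖) ^ (α - d) * (ρ + ‖x - z‖) ^ (s - d) ≤ C * (ρ + ‖x‖) ^ (α + s - d) := by
  classical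
  obtain ⟨C₁, hC₁, h₁⟩ := sum_up (d := d) hα (by linarith)
  obtain ⟨C₂, hC₂, h₂⟩ := sum_up (d := d) hs (by linarith)
  obtain ⟨C₃, hC₃, h₃⟩ := sum_down (d := d) (s := d - α - s) (by linarith)
  refine ⟨2 ^ (d : ℝ) * (C₁ * 3 ^ (d : ℝ)) + 2 ^ (d : ℝ) * (C₂ * 1) + 2 ^ (d : ℝ) * C₃,
    by positivity, fun F x ρ hρ => ?_⟩
  set D := ρ + ‖x‖ with hD
  have hx0 := norm_nonneg x
  have hD1 : 1 ≤ D := by linarith
  have hD0 : 0 < D := by linarith
  rw [← Finset.sum_filter_add_sum_filter_not F (fun z => ‖z‖ ≤ 2 * D),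
    ← Finset.sum_filter_add_sum_filter_not (F.filter (fun z => ‖z‖ ≤ 2 * D))
      (fun z => D ≤ 2 * (ρ + ‖x - z‖)), add_mul, add_mul]
  refine add_le_add (add_le_add ?_ ?_) ?_
  · calc _ ≤ ∑ z ∈ (F.filter (fun z => ‖z‖ ≤ 2 * D)).filter (fun z => D ≤ 2 * (ρ + ‖x - z‖)),
          (1 + ‖z - 0‖) ^ (α - d) * (2 ^ (d : ℝ) * D ^ (s - d)) := by
          refine Finset.sum_le_sum fun z hz => ?_
          rw [sub_zero]
          refine mul_le_mul_of_nonneg_left ?_ (by positivity)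
          exact rpow_cmp hD0 one_le_two (by linarith) (by linarith) (Finset.mem_filter.1 hz).2
      _ ≤ (C₁ * (3 * D) ^ α) * (2 ^ (d : ℝ) * D ^ (s - d)) := by
          rw [← Finset.sum_mul]
          refine mul_le_mul_of_nonneg_right ?_ (by positivity)
          refine h₁ _ 0 1 _ le_rfl (by positivity) fun z hz => ?_
          have := (Finset.mem_filter.1 (Finset.mem_filter.1 hz).1).2
          rw [sub_zero]; linarith
      _ ≤ (C₁ * (3 ^ (d : ℝ) * D ^ α)) * (2 ^ (d : ℝ) * D ^ (s - d)) := by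
          gcongr
          exact rpow_cmp' (by positivity) hD0.le (by norm_num) hα.le (by linarith) le_rfl
      _ = 2 ^ (d : ℝ) * (C₁ * 3 ^ (d : ℝ)) * D ^ (α + s - d) := by
          rw [add_sub_assoc, Real.rpow_add hD0]; ring
  · calc _ ≤ ∑ z ∈ (F.filter (fun z => ‖z‖ ≤ 2 * D)).filter (fun z => ¬ D ≤ 2 * (ρ + ‖x - z‖)),
          (2 ^ (d : ℝ) * D ^ (α - d)) * (ρ + ‖z - x‖) ^ (s - d) := by
          refine Finset.sum_le_sum fun z hz => ?_
          rw [norm_sub_rev z x]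
          refine mul_le_mul_of_nonneg_right ?_ (by positivity)
          have h1 := (Finset.mem_filter.1 hz).2
          have h2 : ‖x‖ ≤ ‖z‖ + ‖x - z‖ := by
            have := norm_add_le z (x - z)
            rwa [add_sub_cancel] at this
          exact rpow_cmp hD0 one_le_two (by linarith) (by linarith) (by linarith)
      _ ≤ (2 ^ (d : ℝ) * D ^ (α - d)) * (C₂ * D ^ s) := by
          rw [← Finset.mul_sum]
          refine mul_le_mul_of_nonneg_left ?_ (by positivity)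
          refine h₂ _ x ρ _ hρ hD0.le fun z hz => ?_
          have h1 := (Finset.mem_filter.1 hz).2
          rw [norm_sub_rev z x]; linarith
      _ = 2 ^ (d : ℝ) * (C₂ * 1) * D ^ (α + s - d) := by
          rw [show α + s - d = (α - d) + s by ring, Real.rpow_add hD0]; ring
  · calc _ ≤ ∑ z ∈ F.filter (fun z => ¬ ‖z‖ ≤ 2 * D),
          2 ^ (d : ℝ) * (1 + ‖z - 0‖) ^ (-(d - α - s) - d) := by
          refine Finset.sum_le_sum fun z hz => ?_
          have h1 := (Finset.mem_filter.1 hz).2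
          have h2 : ‖z‖ ≤ ‖x‖ + ‖x - z‖ := by
            have := norm_sub_le x (x - z)
            rwa [sub_sub_cancel] at this
          have hz0 : 0 < 1 + ‖z‖ := by positivity
          have h3 : (ρ + ‖x - z‖) ^ (s - d) ≤ 2 ^ (d : ℝ) * (1 + ‖z‖) ^ (s - d) :=
            rpow_cmp hz0 one_le_two (by linarith) (by linarith) (by linarith)
          rw [sub_zero, show -(d - α - s) - d = (α - d) + (s - d) by ring, Real.rpow_add hz0]
          calc _ ≤ (1 + ‖z‖) ^ (α - d) * (2 ^ (d : ℝ) * (1 + ‖z‖) ^ (s - d)) :=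
                mul_le_mul_of_nonneg_left h3 (by positivity)
            _ = _ := by ring
      _ ≤ 2 ^ (d : ℝ) * (C₃ * D ^ (-(d - α - s))) := by
          rw [← Finset.mul_sum]
          refine mul_le_mul_of_nonneg_left ?_ (by positivity)
          refine h₃ _ 0 1 _ le_rfl hD0 fun z hz => ?_
          have h1 := (Finset.mem_filter.1 hz).2
          rw [sub_zero]; linarith
      _ = 2 ^ (d : ℝ) * C₃ * D ^ (α + s - d) := by
          rw [show -(d - α - s) = α + s - d by ring]; ring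

/-- the kernel -/
noncomputable def ph (s : ℝ) (z : Fin d → ℤ) : ℝ := (1 + ‖z‖) ^ (s - d)

theorem ph_pos (s : ℝ) (z : Fin d → ℤ) : 0 < ph s z := by unfold ph; positivity

theorem ph_neg (s : ℝ) (z : Fin d → ℤ) : ph s (-z) = ph s z := by simp [ph]

theorem ph_sub (s : ℝ) (x y : Fin d → ℤ) : ph s (x - y) = ph s (y - x) := by
  simp [ph, norm_sub_rev x y]

theorem triple_aux {s t : ℝ} (hs : 0 < s) (ht : 0 < t) (hd : s + t < d) : ∃ C : ℝ, 0 ≤ C ∧
    ∀ (F : Finset (Fin d → ℤ)) (x y : Fin d → ℤ), ‖x‖ ≤ ‖y‖ →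
      ∑ u ∈ F, ph (s + t) u * ph s (x - u) * ph t (y - u) ≤ C * (ph (s + t) x * ph (s + t) (x - y)) := by
  classical
  obtain ⟨C₁, hC₁, h₁⟩ := conv (d := d) hs ht hd
  obtain ⟨C₂, hC₂, h₂⟩ := sum_up (d := d) (s := s + t) (by linarith) hd.le
  refine ⟨2 ^ (d : ℝ) * C₁ + C₂ * 2 ^ (d : ℝ) * 2 ^ (d : ℝ) * 2 ^ (d : ℝ), by positivity,
    fun F x y hxy => ?_⟩
  have hx0 : 0 < 1 + ‖x‖ := by positivity
  have hy0 : 0 < 1 + ‖y‖ := by positivity
  rw [← Finset.sum_filter_add_sum_filter_not F (fun u => ‖x‖ ≤ 2 * ‖u‖), add_mul]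
  refine add_le_add ?_ ?_
  · calc _ ≤ ∑ u ∈ F.filter (fun u => ‖x‖ ≤ 2 * ‖u‖),
          (2 ^ (d : ℝ) * ph (s + t) x) * (ph s (x - u) * ph t (y - u)) := by
          refine Finset.sum_le_sum fun u hu => ?_
          rw [mul_assoc]
          refine mul_le_mul_of_nonneg_right ?_ (mul_pos (ph_pos _ _) (ph_pos _ _)).le
          have h1 := (Finset.mem_filter.1 hu).2
          exact rpow_cmp hx0 one_le_two (by linarith) (by linarith) (by linarith)
      _ ≤ (2 ^ (d : ℝ) * ph (s + t) x) * (C₁ * ph (s + t) (x - y)) := by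
          rw [← Finset.mul_sum]
          refine mul_le_mul_of_nonneg_left ?_ (mul_pos (by positivity) (ph_pos _ _)).le
          have := h₁ ((F.filter (fun u => ‖x‖ ≤ 2 * ‖u‖)).image (fun u => x - u)) (x - y) 1 le_rfl
          rw [Finset.sum_image (fun a _ b _ h => sub_right_injective h)] at this
          refine le_trans (le_of_eq (Finset.sum_congr rfl fun u _ => ?_)) this
          have e : x - y - (x - u) = -(y - u) := by abel
          rw [e, norm_neg]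
          rfl
      _ = _ := by ring
  · calc _ ≤ ∑ u ∈ F.filter (fun u => ¬ ‖x‖ ≤ 2 * ‖u‖),
          (1 + ‖u - 0‖) ^ (s + t - d) * ((2 ^ (d : ℝ) * ph s x) * (2 ^ (d : ℝ) * ph t y)) := by
          refine Finset.sum_le_sum fun u hu => ?_
          have h1 := (Finset.mem_filter.1 hu).2
          have h2 : ‖x‖ ≤ ‖u‖ + ‖x - u‖ := by
            have := norm_add_le u (x - u)
            rwa [add_sub_cancel] at this
          have h3 : ‖y‖ ≤ ‖u‖ + ‖y - u‖ := by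
            have := norm_add_le u (y - u)
            rwa [add_sub_cancel] at this
          rw [sub_zero, mul_assoc]
          refine mul_le_mul_of_nonneg_left ?_ (ph_pos _ _).le
          refine mul_le_mul ?_ ?_ (ph_pos _ _).le (mul_pos (by positivity) (ph_pos _ _)).le
          · exact rpow_cmp hx0 one_le_two (by linarith) (by linarith) (by linarith)
          · exact rpow_cmp hy0 one_le_two (by linarith) (by linarith) (by linarith)
      _ ≤ (C₂ * (1 + ‖x‖) ^ (s + t)) * ((2 ^ (d : ℝ) * ph s x) * (2 ^ (d : ℝ) * ph t y)) := by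
          rw [← Finset.sum_mul]
          refine mul_le_mul_of_nonneg_right ?_
            (mul_pos (mul_pos (by positivity) (ph_pos _ _)) (mul_pos (by positivity) (ph_pos _ _))).le
          refine h₂ _ 0 1 _ le_rfl hx0.le fun u hu => ?_
          have h1 := (Finset.mem_filter.1 hu).2
          have := norm_nonneg u
          rw [sub_zero]; linarith
      _ = (C₂ * 2 ^ (d : ℝ) * 2 ^ (d : ℝ)) * (ph (s + t) x * ((1 + ‖x‖) ^ s * ph t y)) := by
          have e : (1 + ‖x‖) ^ (s + t) * ph s x = ph (s + t) x * (1 + ‖x‖) ^ s := by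
            unfold ph
            rw [← Real.rpow_add hx0, ← Real.rpow_add hx0]
            congr 1; ring
          linear_combination (C₂ * 2 ^ (d : ℝ) * 2 ^ (d : ℝ) * ph t y) * e
      _ ≤ (C₂ * 2 ^ (d : ℝ) * 2 ^ (d : ℝ)) * (ph (s + t) x * (2 ^ (d : ℝ) * ph (s + t) (x - y))) := by
          refine mul_le_mul_of_nonneg_left (mul_le_mul_of_nonneg_left ?_ (ph_pos _ _).le)
            (by positivity)
          have h1 : (1 + ‖x‖) ^ s ≤ (1 + ‖y‖) ^ s := Real.rpow_le_rpow hx0.le (by linarith) hs.le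
          have h2 : (1 + ‖y‖) ^ s * ph t y = ph (s + t) y := by
            unfold ph
            rw [← Real.rpow_add hy0]
            congr 1; ring
          have h3 : ph (s + t) y ≤ 2 ^ (d : ℝ) * ph (s + t) (x - y) := by
            have := norm_sub_le x y
            exact rpow_cmp (by positivity) one_le_two (by linarith) (by linarith) (by linarith)
          calc _ ≤ (1 + ‖y‖) ^ s * ph t y := mul_le_mul_of_nonneg_right h1 (ph_pos _ _).le
            _ ≤ _ := by rw [h2]; exact h3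
      _ = _ := by ring

theorem triple {s t : ℝ} (hs : 0 < s) (ht : 0 < t) (hd : s + t < d) : ∃ C : ℝ, 0 ≤ C ∧
    ∀ (F : Finset (Fin d → ℤ)) (x y : Fin d → ℤ),
      ∑ u ∈ F, ph (s + t) u * ph s (x - u) * ph t (y - u)
        ≤ C * ((ph (s + t) x + ph (s + t) y) * ph (s + t) (x - y)) := by
  obtain ⟨C₁, hC₁, h₁⟩ := triple_aux (d := d) hs ht hd
  obtain ⟨C₂, hC₂, h₂⟩ := triple_aux (d := d) ht hs (by linarith)
  refine ⟨C₁ + C₂, by positivity, fun F x y => ?_⟩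
  have p1 := ph_pos (s + t) x
  have p2 := ph_pos (s + t) y
  have p3 := ph_pos (s + t) (x - y)
  rcases le_total ‖x‖ ‖y‖ with h | h
  · refine (h₁ F x y h).trans ?_
    have : 0 ≤ C₁ * (ph (s + t) y * ph (s + t) (x - y))
      + C₂ * ((ph (s + t) x + ph (s + t) y) * ph (s + t) (x - y)) := by positivity
    linarith
  · have := h₂ F y x h
    rw [add_comm t s, ph_sub _ y x] at this
    refine le_trans (le_of_eq (Finset.sum_congr rfl fun u _ => by ring)) (this.trans ?_)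
    have : 0 ≤ C₂ * (ph (s + t) x * ph (s + t) (x - y))
      + C₁ * ((ph (s + t) x + ph (s + t) y) * ph (s + t) (x - y)) := by positivity
    linarith

theorem conv_lower {α s : ℝ} (hα : 0 < α) (hs : 0 < s) (hd : α + s < d) : ∃ c : ℝ, 0 < c ∧
    ∀ x : Fin d → ℤ, ∃ F : Finset (Fin d → ℤ),
      c * ph (α + s) x ≤ ∑ z ∈ F, ph α z * ph s (x - z) := by
  refine ⟨(1 / 2) ^ d * (2 ^ (d : ℝ))⁻¹, by positivity, fun x => ?_⟩
  obtain ⟨F, hF1, hF2⟩ := exists_ball (d := d) ‖x‖ (norm_nonneg x)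
  have hx0 : 0 < 1 + ‖x‖ := by positivity
  refine ⟨F, ?_⟩
  have h1 : ∀ z ∈ F, ph α x * ((2 ^ (d : ℝ))⁻¹ * ph s x) ≤ ph α z * ph s (x - z) := by
    intro z hz
    have hz1 := hF1 z hz
    refine mul_le_mul ?_ ?_ (mul_pos (by positivity) (ph_pos _ _)).le (ph_pos _ _).le
    · exact Real.rpow_le_rpow_of_nonpos (by positivity) (by linarith) (by linarith)
    · rw [inv_mul_le_iff₀ (by positivity)]
      have := norm_sub_le x z
      exact rpow_cmp (by positivity) one_le_two (by linarith) (by linarith) (by linarith)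
  refine le_trans ?_ (Finset.sum_le_sum h1)
  rw [Finset.sum_const, nsmul_eq_mul]
  refine le_trans (le_of_eq ?_) (mul_le_mul_of_nonneg_right hF2
    (mul_pos (ph_pos _ _) (mul_pos (by positivity) (ph_pos _ _))).le)
  have e : (1 + ‖x‖) ^ d * (ph α x * ph s x) = ph (α + s) x := by
    unfold ph
    rw [← Real.rpow_natCast, ← Real.rpow_add hx0, ← Real.rpow_add hx0]
    congr 1; ring
  rw [← e, div_pow, div_pow]
  ring

end Pool.Agent.H443Z.RW
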