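import Pool.Agent.H443Z.RWDefs

set_option autoImplicit false

namespace Pool.Agent.H443Z.RW

open MeasureTheory Set
open scoped ENNReal

variable {d : ℕ} {ν : Measure (Fin d → ℤ)} [IsProbabilityMeasure ν]

instance : IsProbabilityMeasure (law ν) := by unfold law; infer_instance

instance (N : ℕ) : IsProbabilityMeasure (lawN ν N) := by unfold lawN; infer_instance

/-- follow `ω` for `M` steps, then `ω'` -/
def splice (M : ℕ) (ω ω' : ℕ → Fin d → ℤ) : ℕ → Fin d → ℤ :=
  fun j => if j < M then ω j else ω' (j - M)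

theorem pos_splice_le {M n : ℕ} (h : n ≤ M) (ω ω' : ℕ → Fin d → ℤ) :
    pos (splice M ω ω') n = pos ω n := by
  refine Finset.sum_congr rfl fun j hj => ?_
  have := Finset.mem_range.1 hj
  simp only [splice]
  rw [if_pos (by omega)]

theorem pos_splice_add (M k : ℕ) (ω ω' : ℕ → Fin d → ℤ) :
    pos (splice M ω ω') (M + k) = pos ω M + pos ω' k := by
  have := pos_splice_le (le_refl M) ω ω'
  unfold pos at this ⊢
  rw [Finset.sum_range_add, this]
  congr 1
  refine Finset.sum_congr rfl fun j _ => ?_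
  simp [splice]

theorem measurable_pos (n : ℕ) : Measurable (fun ω : ℕ → Fin d → ℤ => pos ω n) :=
  Finset.measurable_sum _ fun j _ => measurable_pi_apply j

theorem measurable_fpos {β : Type*} [MeasurableSpace β] (f : (Fin d → ℤ) → β) (n : ℕ) :
    Measurable (fun ω : ℕ → Fin d → ℤ => f (pos ω n)) :=
  (Measurable.of_discrete (f := f)).comp (measurable_pos n)

theorem measurable_splice (M : ℕ) :
    Measurable (fun p : (ℕ → Fin d → ℤ) × (ℕ → Fin d → ℤ) => splice M p.1 p.2) := by
  refine measurable_pi_lambda _ fun j => ?_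
  unfold splice
  split_ifs
  · exact (measurable_pi_apply j).comp measurable_fst
  · exact (measurable_pi_apply _).comp measurable_snd

theorem mp_splice (M : ℕ) : MeasurePreserving
    (fun p : (ℕ → Fin d → ℤ) × (ℕ → Fin d → ℤ) => splice M p.1 p.2)
    ((law ν).prod (law ν)) (law ν) := by
  classical
  refine ⟨measurable_splice M, ?_⟩
  unfold law
  refine Measure.eq_infinitePi _ fun s t ht => ?_
  rw [Measure.map_apply (measurable_splice M) (MeasurableSet.pi s.countable_toSet fun i _ => ht i)]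
  have e : (fun p : (ℕ → Fin d → ℤ) × (ℕ → Fin d → ℤ) => splice M p.1 p.2) ⁻¹' Set.pi s t
      = Set.pi (s.filter (· < M)) t ×ˢ
        Set.pi ((s.filter (fun j => ¬ j < M)).image (· - M)) (fun j => t (j + M)) := by
    ext ⟨ω, ω'⟩
    simp only [mem_preimage, Set.mem_pi, Finset.mem_coe, mem_prod, Finset.coe_filter,
      mem_ofPred_eq, Finset.coe_image, mem_image, forall_exists_index, and_imp]
    constructor
    · intro h
      refine ⟨fun i hi hM => ?_, ?_⟩
      · have := h i hi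
        simpa [splice, hM] using this
      · rintro _ i hi hM rfl
        have := h i hi
        rw [Nat.sub_add_cancel (not_lt.1 hM)]
        simpa [splice, hM] using this
    · rintro ⟨h1, h2⟩ i hi
      by_cases hM : i < M
      · simpa [splice, hM] using h1 i hi hM
      · have := h2 _ i hi hM rfl
        rw [Nat.sub_add_cancel (not_lt.1 hM)] at this
        simpa [splice, hM] using this
  rw [e, Measure.prod_prod, Measure.infinitePi_pi _ (fun i _ => ht i),
    Measure.infinitePi_pi _ (fun i _ => ht _), Finset.prod_image,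
    ← Finset.prod_filter_mul_prod_filter_not s (· < M)]
  · congr 1
    refine Finset.prod_congr rfl fun j hj => ?_
    rw [Nat.sub_add_cancel (not_lt.1 (Finset.mem_filter.1 hj).2)]
  · intro a ha b hb h
    have h1 := (Finset.mem_filter.1 ha).2
    have h2 := (Finset.mem_filter.1 hb).2
    simp only at h
    omega

theorem lintegral_splice (M : ℕ) {G : (ℕ → Fin d → ℤ) → ℝ≥0∞} (hG : Measurable G) :
    ∫⁻ ω, G ω ∂law ν = ∫⁻ ω, ∫⁻ ω', G (splice M ω ω') ∂law ν ∂law ν := by
  rw [← (mp_splice (ν := ν) M).lintegral_comp hG]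
  exact lintegral_prod _ (hG.comp (measurable_splice M)).aemeasurable

omit [IsProbabilityMeasure ν] in
theorem green_sum (f : (Fin d → ℤ) → ℝ≥0∞) :
    ∑' n, ∫⁻ ω, f (pos ω n) ∂law ν = ∑' a, green ν a * f a := by
  have h : ∀ n, ∫⁻ ω, f (pos ω n) ∂law ν = ∑' a, law ν {ω | pos ω n = a} * f a := by
    intro n
    rw [← lintegral_map (Measurable.of_discrete) (measurable_pos n), lintegral_countable']
    refine tsum_congr fun a => ?_
    rw [Measure.map_apply (measurable_pos n) (measurableSet_singleton a), mul_comm]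
    rfl
  simp_rw [h]
  rw [ENNReal.tsum_comm]
  refine tsum_congr fun a => ?_
  rw [ENNReal.tsum_mul_right]
  rfl

theorem tsum_two (f : ℕ → ℕ → ℝ≥0∞) :
    ∑' n, ∑' m, f n m ≤ ∑' n, ∑' k, f n (n + k) + ∑' n, ∑' k, f (n + k) n := by
  have hs : Function.Surjective (Sum.elim (fun p : ℕ × ℕ => (p.1, p.1 + p.2))
      (fun p : ℕ × ℕ => (p.1 + p.2, p.1))) := by
    rintro ⟨n, m⟩
    rcases le_total n m with h | h
    · exact ⟨Sum.inl (n, m - n), by simp [h]⟩
    · exact ⟨Sum.inr (m, n - m), by simp [h]⟩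
  have := ENNReal.tsum_le_tsum_comp_of_surjective hs (fun p : ℕ × ℕ => f p.1 p.2)
  rw [ENNReal.tsum_prod', Summable.tsum_sum ENNReal.summable ENNReal.summable,
    ENNReal.tsum_prod', ENNReal.tsum_prod'] at this
  exact this

theorem green_two_aux (F : (Fin d → ℤ) → (Fin d → ℤ) → ℝ≥0∞) :
    ∑' n, ∑' k, ∫⁻ ω, F (pos ω n) (pos ω (n + k)) ∂law ν
      = ∑' a, green ν a * ∑' c, green ν c * F a (a + c) := by
  rw [← green_sum]
  refine tsum_congr fun n => ?_
  have hm : ∀ k, Measurable (fun ω : ℕ → Fin d → ℤ => F (pos ω n) (pos ω (n + k))) := fun k =>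
    (Measurable.of_discrete (f := fun p : (Fin d → ℤ) × (Fin d → ℤ) => F p.1 p.2)).comp
      ((measurable_pos n).prodMk (measurable_pos (n + k)))
  have h1 : ∀ k, ∫⁻ ω, F (pos ω n) (pos ω (n + k)) ∂law ν
      = ∫⁻ ω, (fun a => ∫⁻ ω', F a (a + pos ω' k) ∂law ν) (pos ω n) ∂law ν := by
    intro k
    rw [lintegral_splice n (hm k)]
    simp_rw [pos_splice_le (le_refl n), pos_splice_add]
  simp_rw [h1]
  rw [← lintegral_tsum fun k =>
    (measurable_fpos (fun a => ∫⁻ ω', F a (a + pos ω' k) ∂law ν) n).aemeasurable]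
  refine lintegral_congr fun ω => ?_
  exact green_sum (fun c => F (pos ω n) (pos ω n + c))

theorem green_two (F : (Fin d → ℤ) → (Fin d → ℤ) → ℝ≥0∞) :
    ∑' n, ∑' m, ∫⁻ ω, F (pos ω n) (pos ω m) ∂law ν
      ≤ ∑' a, green ν a * ∑' c, green ν c * F a (a + c)
        + ∑' a, green ν a * ∑' c, green ν c * F (a + c) a := by
  refine (tsum_two _).trans (le_of_eq ?_)
  rw [green_two_aux F, green_two_aux (fun a b => F b a)]

theorem hit_le (B : Set (Fin d → ℤ)) (f : (Fin d → ℤ) → ℝ≥0∞) (κ : ℝ≥0∞)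
    (hκ : ∀ b ∈ B, κ ≤ ∑' y, green ν y * f (b + y)) :
    law ν {ω | ∃ n, pos ω n ∈ B} * κ ≤ ∑' a, green ν a * f a := by
  classical
  set T : ℕ → Set (ℕ → Fin d → ℤ) := fun M => {ω | pos ω M ∈ B ∧ ∀ n < M, pos ω n ∉ B} with hT
  have hTm : ∀ M, MeasurableSet (T M) := by
    intro M
    have : T M = (fun ω => pos ω M) ⁻¹' B ∩ ⋂ n ∈ Set.Iio M, (fun ω => pos ω n) ⁻¹' Bᶜ := by
      ext ω; simp [hT]
    rw [this]
    exact (measurable_pos M (MeasurableSet.of_discrete)).inter
      (MeasurableSet.biInter (Set.to_countable _) fun n _ => measurable_pos n MeasurableSet.of_discrete)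
  set Φ : (ℕ → Fin d → ℤ) → ℝ≥0∞ := fun ω => ∑' n, f (pos ω n) with hΦ
  have hf : ∀ n, Measurable (fun ω : ℕ → Fin d → ℤ => f (pos ω n)) := fun n =>
    (Measurable.of_discrete (f := f)).comp (measurable_pos n)
  have hΦm : Measurable Φ := Measurable.tsum hf
  have h1 : ∀ M, law ν (T M) * κ ≤ ∫⁻ ω in T M, Φ ω ∂law ν := by
    intro M
    rw [← lintegral_indicator (hTm M), lintegral_splice M (hΦm.indicator (hTm M)), mul_comm,
      ← setLIntegral_const, ← lintegral_indicator (hTm M)]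
    refine lintegral_mono fun ω => ?_
    by_cases hω : ω ∈ T M
    · rw [Set.indicator_of_mem hω]
      refine (hκ _ hω.1).trans ?_
      rw [← green_sum (fun y => f (pos ω M + y)), ← lintegral_tsum fun k =>
        (measurable_fpos (fun y => f (pos ω M + y)) k).aemeasurable]
      refine lintegral_mono fun ω' => ?_
      have hω' : splice M ω ω' ∈ T M := by
        refine ⟨by rw [pos_splice_le le_rfl]; exact hω.1, fun n hn => ?_⟩
        rw [pos_splice_le hn.le]; exact hω.2 n hn
      rw [Set.indicator_of_mem hω']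
      simp only [← pos_splice_add]
      exact ENNReal.tsum_comp_le_tsum_of_injective (add_right_injective M)
        (fun n => f (pos (splice M ω ω') n))
    · rw [Set.indicator_of_notMem hω]
      exact zero_le
  have h2 : {ω : ℕ → Fin d → ℤ | ∃ n, pos ω n ∈ B} ⊆ ⋃ M, T M := by
    intro ω hω
    exact Set.mem_iUnion.2 ⟨Nat.find hω, Nat.find_spec hω, fun n hn => Nat.find_min hω hn⟩
  have hdisj : Pairwise (Function.onFun Disjoint T) := by
    intro M M' hne
    refine Set.disjoint_left.2 fun ω h h' => ?_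
    rcases lt_or_gt_of_ne hne with hlt | hlt
    · exact h'.2 M hlt h.1
    · exact h.2 M' hlt h'.1
  calc law ν {ω | ∃ n, pos ω n ∈ B} * κ ≤ (∑' M, law ν (T M)) * κ := by
        gcongr
        exact (measure_mono h2).trans (measure_iUnion_le _)
    _ = ∑' M, law ν (T M) * κ := ENNReal.tsum_mul_right.symm
    _ ≤ ∑' M, ∫⁻ ω in T M, Φ ω ∂law ν := ENNReal.tsum_le_tsum h1
    _ = ∫⁻ ω in ⋃ M, T M, Φ ω ∂law ν := (lintegral_iUnion hTm hdisj Φ).symm
    _ ≤ ∫⁻ ω, Φ ω ∂law ν := setLIntegral_le_lintegral _ _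
    _ = ∑' a, green ν a * f a := by
        rw [← green_sum, lintegral_tsum fun n => (hf n).aemeasurable]

theorem measurable_posN {N : ℕ} (n : Fin N → ℕ) :
    Measurable (fun ω : Fin N → ℕ → Fin d → ℤ => posN ω n) :=
  Finset.measurable_sum _ fun i _ => (measurable_pos (n i)).comp (measurable_pi_apply i)

theorem measurable_cons {N : ℕ} : Measurable
    (fun p : (ℕ → Fin d → ℤ) × (Fin N → ℕ → Fin d → ℤ) =>
      (Fin.cons p.1 p.2 : Fin (N + 1) → ℕ → Fin d → ℤ)) := by
  refine measurable_pi_lambda _ fun i => ?_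
  refine Fin.cases ?_ (fun j => ?_) i
  · simpa using measurable_fst
  · simp only [Fin.cons_succ]
    exact (measurable_pi_apply j).comp measurable_snd

theorem mp_cons {N : ℕ} : MeasurePreserving
    (fun p : (ℕ → Fin d → ℤ) × (Fin N → ℕ → Fin d → ℤ) =>
      (Fin.cons p.1 p.2 : Fin (N + 1) → ℕ → Fin d → ℤ))
    ((law ν).prod (lawN ν N)) (lawN ν (N + 1)) := by
  have := (measurePreserving_piFinSuccAbove (fun _ : Fin (N + 1) => law ν) 0).symm
  unfold lawN
  convert this using 1
  ext p : 1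
  simp [MeasurableEquiv.piFinSuccAbove, Fin.consEquiv]

theorem lintegral_cons {N : ℕ} {G : (Fin (N + 1) → ℕ → Fin d → ℤ) → ℝ≥0∞} (hG : Measurable G) :
    ∫⁻ ω, G ω ∂lawN ν (N + 1) = ∫⁻ ω₀, ∫⁻ ω', G (Fin.cons ω₀ ω') ∂lawN ν N ∂law ν := by
  rw [← (mp_cons (ν := ν)).lintegral_comp hG]
  exact lintegral_prod _ (hG.comp measurable_cons).aemeasurable

theorem lintegral_cons' {N : ℕ} {G : (Fin (N + 1) → ℕ → Fin d → ℤ) → ℝ≥0∞} (hG : Measurable G) :
    ∫⁻ ω, G ω ∂lawN ν (N + 1) = ∫⁻ ω', ∫⁻ ω₀, G (Fin.cons ω₀ ω') ∂law ν ∂lawN ν N := by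
  rw [← (mp_cons (ν := ν)).lintegral_comp hG]
  exact lintegral_prod_symm _ (hG.comp measurable_cons).aemeasurable

theorem posN_cons {N : ℕ} (ω₀ : ℕ → Fin d → ℤ) (ω' : Fin N → ℕ → Fin d → ℤ)
    (n : Fin (N + 1) → ℕ) :
    posN (Fin.cons ω₀ ω' : Fin (N + 1) → ℕ → Fin d → ℤ) n
      = pos ω₀ (n 0) + posN ω' (fun i => n i.succ) := by
  simp [posN, Fin.sum_univ_succ]

theorem mp_spliceN (N M : ℕ) : MeasurePreserving
    (fun p : (Fin N → ℕ → Fin d → ℤ) × (Fin N → ℕ → Fin d → ℤ) =>
      fun i => splice M (p.1 i) (p.2 i)) ((lawN ν N).prod (lawN ν N)) (lawN ν N) := by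
  have h1 := (measurePreserving_arrowProdEquivProdArrow _ _ (Fin N) (fun _ => law ν)
    (fun _ => law ν)).symm
  have h2 := measurePreserving_pi (fun _ : Fin N => (law ν).prod (law ν)) (fun _ => law ν)
    (fun _ => mp_splice (ν := ν) M)
  exact h2.comp h1

/-- A lower bound on hitting probabilities that is uniform in the starting point gives
almost sure hitting. -/
theorem zero_one (N : ℕ) (A : Set (Fin d → ℤ)) (c : ℝ≥0∞) (hc : 0 < c)
    (h : ∀ x, c ≤ lawN ν N {ω | ∃ n, x + posN ω n ∈ A}) :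
    lawN ν N {ω | ∀ n, posN ω n ∉ A} = 0 := by
  set H : Set (Fin N → ℕ → Fin d → ℤ) := {ω | ∀ n, posN ω n ∉ A} with hH
  set D : ℕ → Set (Fin N → ℕ → Fin d → ℤ) :=
    fun M => {ω | ∀ n : Fin N → ℕ, (∀ i, n i ≤ M) → posN ω n ∉ A} with hD
  have hDm : ∀ M, MeasurableSet (D M) := by
    intro M
    have : D M = ⋂ n ∈ {n : Fin N → ℕ | ∀ i, n i ≤ M}, (fun ω => posN ω n) ⁻¹' Aᶜ := by
      ext ω; simp [hD]
    rw [this]
    exact MeasurableSet.biInter (Set.to_countable _) fun n _ =>
      measurable_posN n MeasurableSet.of_discrete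
  have hx : ∀ x : Fin d → ℤ, MeasurableSet {ω : Fin N → ℕ → Fin d → ℤ | ∃ n, x + posN ω n ∈ A} := by
    intro x
    have : {ω : Fin N → ℕ → Fin d → ℤ | ∃ n, x + posN ω n ∈ A}
        = ⋃ n, (fun ω => posN ω n) ⁻¹' {y | x + y ∈ A} := by
      ext ω; simp
    rw [this]
    exact MeasurableSet.iUnion fun n => measurable_posN n MeasurableSet.of_discrete
  have hHD : H = ⋂ M, D M := by
    ext ω
    simp only [hH, hD, mem_ofPred_eq, mem_iInter]
    refine ⟨fun h M n _ => h n, fun h n => h (Finset.univ.sup n) n fun i => ?_⟩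
    exact Finset.le_sup (f := n) (Finset.mem_univ i)
  have hHm : MeasurableSet H := by rw [hHD]; exact MeasurableSet.iInter hDm
  have h1 : ∀ M, lawN ν N H ≤ (1 - c) * lawN ν N (D M) := by
    intro M
    rw [← (mp_spliceN (ν := ν) N M).measure_preimage hHm.nullMeasurableSet,
      Measure.prod_apply ((mp_spliceN (ν := ν) N M).measurable hHm), ← setLIntegral_const,
      ← lintegral_indicator (hDm M)]
    refine lintegral_mono fun ω => ?_
    by_cases hω : ω ∈ D M
    · rw [Set.indicator_of_mem hω]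
      have hsub : Prod.mk ω ⁻¹' ((fun p : (Fin N → ℕ → Fin d → ℤ) × (Fin N → ℕ → Fin d → ℤ) =>
          fun i => splice M (p.1 i) (p.2 i)) ⁻¹' H)
          ⊆ {ω' | ∃ n, posN ω (fun _ => M) + posN ω' n ∈ A}ᶜ := by
        rintro ω' h' ⟨n, hn⟩
        apply h' (fun i => M + n i)
        simp only [posN, pos_splice_add, Finset.sum_add_distrib]
        exact hn
      refine (measure_mono hsub).trans ?_
      rw [prob_compl_eq_one_sub (hx _)]
      exact tsub_le_tsub_left (h _) _
    · have : Prod.mk ω ⁻¹' ((fun p : (Fin N → ℕ → Fin d → ℤ) × (Fin N → ℕ → Fin d → ℤ) =>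
          fun i => splice M (p.1 i) (p.2 i)) ⁻¹' H) = ∅ := by
        refine Set.eq_empty_of_forall_notMem fun ω' h' => hω fun n hn => ?_
        have := h' n
        simp only [posN] at this ⊢
        rwa [Finset.sum_congr rfl fun i _ => pos_splice_le (hn i) (ω i) (ω' i)] at this
      rw [this]
      simp
  have hanti : Antitone D := fun M M' hM ω hω n hn => hω n fun i => (hn i).trans hM
  have h2 := tendsto_measure_iInter_atTop (μ := lawN ν N) (fun M => (hDm M).nullMeasurableSet) hanti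
    ⟨0, measure_ne_top _ _⟩
  rw [← hHD] at h2
  have h3 : lawN ν N H ≤ (1 - c) * lawN ν N H :=
    ge_of_tendsto' (ENNReal.Tendsto.const_mul h2 (Or.inr (by simp))) h1
  by_contra hne
  have h4 : (1 - c) * lawN ν N H < 1 * lawN ν N H :=
    ENNReal.mul_lt_mul_left hne (measure_ne_top _ _)
      (ENNReal.sub_lt_self ENNReal.one_ne_top one_ne_zero hc.ne')
  rw [one_mul] at h4
  exact absurd h3 (not_le.2 h4)

end Pool.Agent.H443Z.RW
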