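import Pool.Agent.H443Z.RW1
import Pool.Agent.H443Z.RW2

set_option autoImplicit false

namespace Pool.Agent.H443Z.RW

open MeasureTheory Set
open scoped ENNReal

variable {d : ℕ} {ν : Measure (Fin d → ℤ)} [IsProbabilityMeasure ν]

/-- two-sided bound for the Green function -/
structure GB (ν : Measure (Fin d → ℤ)) (α c C : ℝ) : Prop where
  hc : 0 < c
  hC : 0 ≤ C
  lo : ∀ z, ENNReal.ofReal (c * ph α z) ≤ green ν z
  up : ∀ z, green ν z ≤ ENNReal.ofReal (C * ph α z)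

theorem one_le_norm {z : Fin d → ℤ} (hz : z ≠ 0) : 1 ≤ ‖z‖ := by
  obtain ⟨i, hi⟩ := Function.ne_iff.1 hz
  refine le_trans ?_ (norm_le_pi_norm z i)
  rw [Int.norm_eq_abs]
  have : 1 ≤ |z i| := Int.one_le_abs hi
  exact_mod_cast this

theorem gb_of_bt {α : ℝ} (hα0 : 0 < α) (hα : α < d) (h : BarlowTaylor ν α) : ∃ c C, GB ν α c C := by
  obtain ⟨hfin, A, B, hA, hAB, h⟩ := h
  have h0 : 1 ≤ green ν 0 := by
    refine le_trans ?_ (ENNReal.le_tsum 0)
    simp [pos]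
  refine ⟨min A 1, (green ν 0).toReal + B * 2 ^ (d : ℝ), lt_min hA one_pos,
    add_nonneg ENNReal.toReal_nonneg (mul_nonneg (by linarith) (by positivity)), fun z => ?_,
    fun z => ?_⟩
  · by_cases hz : z = 0
    · subst hz
      refine le_trans ?_ h0
      simp [ph]
    · refine le_trans (ENNReal.ofReal_le_ofReal ?_) (h z hz).1
      have h1 := one_le_norm hz
      refine mul_le_mul (min_le_left _ _) ?_ (ph_pos _ _).le hA.le
      rw [show -(d : ℝ) + α = α - d by ring]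
      exact Real.rpow_le_rpow_of_nonpos (by linarith) (by linarith) (by linarith)
  · by_cases hz : z = 0
    · subst hz
      have : 0 ≤ B * 2 ^ (d : ℝ) := mul_nonneg (by linarith) (by positivity)
      conv_lhs => rw [← ENNReal.ofReal_toReal (hfin 0).ne]
      refine ENNReal.ofReal_le_ofReal ?_
      simp only [ph, norm_zero, add_zero, Real.one_rpow, mul_one]
      linarith
    · refine le_trans (h z hz).2 (ENNReal.ofReal_le_ofReal ?_)
      have h1 := one_le_norm hz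
      have h2 : ‖z‖ ^ (α - d) ≤ 2 ^ (d : ℝ) * ph α z :=
        rpow_cmp (by positivity) one_le_two (by linarith) (by linarith) (by linarith)
      rw [show -(d : ℝ) + α = α - d by ring]
      have h3 : 0 ≤ (green ν 0).toReal * ph α z := mul_nonneg ENNReal.toReal_nonneg (ph_pos _ _).le
      have h4 : B * ‖z‖ ^ (α - d) ≤ B * (2 ^ (d : ℝ) * ph α z) :=
        mul_le_mul_of_nonneg_left h2 (by linarith)
      linarith

theorem tsum_ofReal_le {X : Type*} {f : X → ℝ} (hf : ∀ z, 0 ≤ f z) {M : ℝ}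
    (h : ∀ F : Finset X, ∑ z ∈ F, f z ≤ M) : ∑' z, ENNReal.ofReal (f z) ≤ ENNReal.ofReal M := by
  rw [ENNReal.tsum_eq_iSup_sum]
  refine iSup_le fun F => ?_
  rw [← ENNReal.ofReal_sum_of_nonneg fun z _ => hf z]
  exact ENNReal.ofReal_le_ofReal (h F)

theorem measurableSet_hit {N : ℕ} (P : (Fin d → ℤ) → Prop) :
    MeasurableSet {ω : Fin N → ℕ → Fin d → ℤ | ∃ n, P (posN ω n)} := by
  have : {ω : Fin N → ℕ → Fin d → ℤ | ∃ n, P (posN ω n)}
      = ⋃ n, (fun ω => posN ω n) ⁻¹' {y | P y} := by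
    ext ω; simp
  rw [this]
  exact MeasurableSet.iUnion fun n => measurable_posN n MeasurableSet.of_discrete

theorem hit_step {α c C : ℝ} (hα : α < d) (hG : GB ν α c C) (N : ℕ) (x : Fin d → ℤ) {r : ℝ}
    (hr : 0 ≤ r) :
    lawN ν (N + 1) {ω | ∃ n, ‖posN ω n - x‖ ≤ r} * ENNReal.ofReal (c * (1 / 2) ^ d * (1 + r) ^ α)
      ≤ ∑' a, green ν a * lawN ν N {ω | ∃ n, ‖posN ω n - (x - a)‖ ≤ 2 * r} := by
  classical
  have hm := measurableSet_hit (N := N + 1) (fun y => ‖y - x‖ ≤ r)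
  have hm2 : ∀ a, MeasurableSet {ω : Fin N → ℕ → Fin d → ℤ | ∃ n, ‖posN ω n - (x - a)‖ ≤ 2 * r} :=
    fun a => measurableSet_hit (fun y => ‖y - (x - a)‖ ≤ 2 * r)
  rw [← lintegral_indicator_one hm, lintegral_cons' (measurable_one.indicator hm),
    ← lintegral_mul_const' _ _ ENNReal.ofReal_ne_top]
  simp_rw [← lintegral_indicator_one (hm2 _)]
  have e : ∀ a, green ν a * ∫⁻ ω, ({ω : Fin N → ℕ → Fin d → ℤ |
      ∃ n, ‖posN ω n - (x - a)‖ ≤ 2 * r}).indicator 1 ω ∂lawN ν N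
      = ∫⁻ ω, green ν a * ({ω : Fin N → ℕ → Fin d → ℤ |
      ∃ n, ‖posN ω n - (x - a)‖ ≤ 2 * r}).indicator 1 ω ∂lawN ν N := fun a =>
    (lintegral_const_mul _ (measurable_one.indicator (hm2 a))).symm
  simp_rw [e]
  rw [← lintegral_tsum fun a =>
    ((measurable_one.indicator (hm2 a)).const_mul (green ν a)).aemeasurable]
  refine lintegral_mono fun ω' => ?_
  refine le_trans ?_ (hit_le (ν := ν) {z | ∃ m, ‖z + posN ω' m - x‖ ≤ r}
    (fun a => ({ω : Fin N → ℕ → Fin d → ℤ | ∃ n, ‖posN ω n - (x - a)‖ ≤ 2 * r}).indicator 1 ω')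
    (ENNReal.ofReal (c * (1 / 2) ^ d * (1 + r) ^ α)) ?_)
  · gcongr
    have hm3 : MeasurableSet {ω : ℕ → Fin d → ℤ |
        ∃ n, pos ω n ∈ {z | ∃ m, ‖z + posN ω' m - x‖ ≤ r}} := by
      rw [Set.ofPred_exists]
      exact MeasurableSet.iUnion fun n => measurable_pos n MeasurableSet.of_discrete
    rw [← lintegral_indicator_one hm3]
    refine lintegral_mono fun ω₀ => ?_
    by_cases h : (Fin.cons ω₀ ω' : Fin (N + 1) → ℕ → Fin d → ℤ) ∈
        {ω : Fin (N + 1) → ℕ → Fin d → ℤ | ∃ n, ‖posN ω n - x‖ ≤ r}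
    · rw [Set.indicator_of_mem h]
      obtain ⟨n, hn⟩ := h
      rw [posN_cons] at hn
      rw [Set.indicator_of_mem (show ω₀ ∈ {ω : ℕ → Fin d → ℤ |
        ∃ n, pos ω n ∈ {z | ∃ m, ‖z + posN ω' m - x‖ ≤ r}} from ⟨n 0, _, hn⟩)]
      exact le_rfl
    · rw [Set.indicator_of_notMem h]
      exact zero_le
  · rintro b ⟨m, hm⟩
    obtain ⟨F, hF1, hF2⟩ := exists_ball (d := d) r hr
    refine le_trans ?_ (ENNReal.sum_le_tsum F)
    have hr1 : 0 < 1 + r := by linarith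
    have h1 : ∀ y ∈ F, ENNReal.ofReal (c * (1 + r) ^ (α - d)) ≤ green ν y *
        ({ω : Fin N → ℕ → Fin d → ℤ | ∃ n, ‖posN ω n - (x - (b + y))‖ ≤ 2 * r}).indicator 1 ω' := by
      intro y hy
      have hy1 := hF1 y hy
      rw [Set.indicator_of_mem, Pi.one_apply, mul_one]
      · refine le_trans (ENNReal.ofReal_le_ofReal ?_) (hG.lo y)
        refine mul_le_mul_of_nonneg_left ?_ hG.hc.le
        exact Real.rpow_le_rpow_of_nonpos (by positivity) (by linarith) (by linarith)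
      · refine ⟨m, ?_⟩
        have e : posN ω' m - (x - (b + y)) = (b + posN ω' m - x) + y := by abel
        rw [e]
        refine (norm_add_le _ _).trans ?_
        linarith
    refine le_trans ?_ (Finset.sum_le_sum h1)
    rw [Finset.sum_const, nsmul_eq_mul, ← ENNReal.ofReal_natCast,
      ← ENNReal.ofReal_mul (by positivity)]
    refine ENNReal.ofReal_le_ofReal ?_
    have hc := hG.hc
    refine le_trans (le_of_eq ?_) (mul_le_mul_of_nonneg_right hF2 (by positivity))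
    have e : (1 + r) ^ d * (1 + r) ^ (α - d) = (1 + r) ^ α := by
      rw [← Real.rpow_natCast, ← Real.rpow_add hr1]
      congr 1; ring
    rw [← e, div_pow, div_pow]
    ring

theorem hit_bound {α c C ε : ℝ} (hα0 : 0 < α) (hG : GB ν α c C) (hε : 0 < ε) (N : ℕ)
    (hN : ε + N * α < d) : ∃ K : ℝ, 0 ≤ K ∧ ∀ (x : Fin d → ℤ) (r : ℝ), 0 ≤ r →
      lawN ν N {ω | ∃ n, ‖posN ω n - x‖ ≤ r} ≤ ENNReal.ofReal
        (K * ((1 + r) ^ (d - (ε + N * α)) * (1 + r + ‖x‖) ^ (ε + N * α - d))) := by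
  induction N with
  | zero =>
    refine ⟨2 ^ (d : ℝ), by positivity, fun x r hr => ?_⟩
    simp only [Nat.cast_zero, zero_mul, add_zero] at hN ⊢
    by_cases h : ‖x‖ ≤ r
    · refine prob_le_one.trans ?_
      rw [← ENNReal.ofReal_one]
      refine ENNReal.ofReal_le_ofReal ?_
      have hr1 : 0 < 1 + r := by linarith
      have hx := norm_nonneg x
      have h1 : (1 + r) ^ (ε - d) ≤ 1 ^ (d : ℝ) * (1 + r) ^ (ε - d) := by simp
      have h2 : (2 * (1 + r)) ^ (ε - d) ≤ (1 + r + ‖x‖) ^ (ε - d) :=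
        Real.rpow_le_rpow_of_nonpos (by linarith) (by linarith) (by linarith)
      have h3 : (1 + r) ^ (ε - d) ≤ 2 ^ (d : ℝ) * (2 * (1 + r)) ^ (ε - d) :=
        rpow_cmp (by linarith) one_le_two (by linarith) (by linarith) le_rfl
      have h4 : (1 + r) ^ (d - ε) * (1 + r) ^ (ε - d) = 1 := by
        rw [← Real.rpow_add hr1]; simp
      calc (1 : ℝ) = (1 + r) ^ (d - ε) * (1 + r) ^ (ε - d) := h4.symm
        _ ≤ (1 + r) ^ (d - ε) * (2 ^ (d : ℝ) * (1 + r + ‖x‖) ^ (ε - d)) := by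
          refine mul_le_mul_of_nonneg_left (h3.trans ?_) (by positivity)
          exact mul_le_mul_of_nonneg_left h2 (by positivity)
        _ = _ := by ring
    · have : {ω : Fin 0 → ℕ → Fin d → ℤ | ∃ n, ‖posN ω n - x‖ ≤ r} = ∅ := by
        refine Set.eq_empty_of_forall_notMem ?_
        rintro ω ⟨n, hn⟩
        apply h
        simpa [posN] using hn
      rw [this]
      simp
  | succ N ih =>
    push_cast at hN
    have hNα : 0 ≤ N * α := by positivity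
    obtain ⟨K, hK, ih⟩ := ih (by linarith)
    obtain ⟨C₁, hC₁, h₁⟩ := conv (d := d) hα0 (s := ε + N * α) (by linarith) (by linarith)
    have hc := hG.hc
    have hC := hG.hC
    refine ⟨C * K * C₁ * 2 ^ (d : ℝ) / (c * (1 / 2) ^ d), by positivity, fun x r hr => ?_⟩
    have hr1 : 0 < 1 + r := by linarith
    have hx := norm_nonneg x
    have h2 := hit_step (by linarith) hG N x hr
    have h3 : ∑' a, green ν a * lawN ν N {ω | ∃ n, ‖posN ω n - (x - a)‖ ≤ 2 * r}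
        ≤ ENNReal.ofReal (C * K * (1 + 2 * r) ^ (d - (ε + N * α)) *
          (C₁ * (1 + 2 * r + ‖x‖) ^ (α + (ε + N * α) - d))) := by
      refine le_trans (ENNReal.tsum_le_tsum fun a => ?_) (tsum_ofReal_le
        (f := fun a => C * K * (1 + 2 * r) ^ (d - (ε + N * α)) *
          ((1 + ‖a‖) ^ (α - d) * (1 + 2 * r + ‖x - a‖) ^ (ε + N * α - d)))
        (fun a => by positivity) fun F => ?_)
      · refine (mul_le_mul' (hG.up a) (ih (x - a) (2 * r) (by linarith))).trans ?_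
        rw [← ENNReal.ofReal_mul (mul_nonneg hC (ph_pos _ _).le)]
        refine le_of_eq (congrArg _ ?_)
        unfold ph
        ring
      · rw [← Finset.mul_sum]
        exact mul_le_mul_of_nonneg_left (h₁ F x _ (by linarith)) (by positivity)
    have hκ : 0 < c * (1 / 2) ^ d * (1 + r) ^ α := by positivity
    have h4 := h2.trans h3
    rw [← ENNReal.le_div_iff_mul_le (Or.inl (by simpa using hκ)) (Or.inl ENNReal.ofReal_ne_top),
      ← ENNReal.ofReal_div_of_pos hκ] at h4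
    refine h4.trans (ENNReal.ofReal_le_ofReal ?_)
    rw [div_le_iff₀ hκ]
    push_cast
    have h5 : (1 + 2 * r) ^ (d - (ε + N * α)) ≤ 2 ^ (d : ℝ) * (1 + r) ^ (d - (ε + N * α)) :=
      rpow_cmp' (by linarith) hr1.le one_le_two (by linarith) (by linarith) (by linarith)
    have h6 : (1 + 2 * r + ‖x‖) ^ (α + (ε + N * α) - d) ≤ (1 + r + ‖x‖) ^ (ε + (N + 1) * α - d) := by
      rw [show α + (ε + N * α) - d = ε + (N + 1) * α - d by ring]
      exact Real.rpow_le_rpow_of_nonpos (by linarith) (by linarith) (by linarith)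
    have h7 : (1 + r) ^ (d - (ε + N * α)) = (1 + r) ^ (d - (ε + (N + 1) * α)) * (1 + r) ^ α := by
      rw [← Real.rpow_add hr1]
      congr 1; ring
    calc _ ≤ C * K * (2 ^ (d : ℝ) * (1 + r) ^ (d - (ε + N * α))) *
          (C₁ * (1 + r + ‖x‖) ^ (ε + (N + 1) * α - d)) := by gcongr
      _ = _ := by rw [h7]; field_simp

theorem norm_le_of_mem_box {k : ℕ} {x : Fin d → ℤ} (h : x ∈ box d k) : ‖x‖ ≤ 2 ^ k := by
  rw [pi_norm_le_iff_of_nonneg (by positivity)]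
  intro i
  rw [Int.norm_eq_abs]
  have : |x i| ≤ 2 ^ k := abs_le.2 ⟨(h i).1, (h i).2.le⟩
  exact_mod_cast this

theorem le_norm_of_notMem_box {k : ℕ} {x : Fin d → ℤ} (h : x ∉ box d k) : (2 : ℝ) ^ k ≤ ‖x‖ := by
  by_contra hc
  apply h
  intro i
  have h1 : ‖x i‖ < 2 ^ k := lt_of_le_of_lt (norm_le_pi_norm x i) (not_le.1 hc)
  rw [Int.norm_eq_abs] at h1
  have h2 : |x i| < 2 ^ k := by exact_mod_cast h1
  exact ⟨(abs_lt.1 h2).1.le, (abs_lt.1 h2).2⟩

theorem exists_shell (x : Fin d → ℤ) : ∃ k, x ∈ shell d k := by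
  classical
  have h : ∃ k, x ∈ box d k := by
    obtain ⟨k, hk⟩ := pow_unbounded_of_one_lt ‖x‖ (one_lt_two (α := ℝ))
    exact ⟨k, by_contra fun hc => absurd (le_norm_of_notMem_box hc) (not_le.2 hk)⟩
  have h1 := Nat.find_spec h
  have h2 := fun m => Nat.find_min h (m := m)
  generalize Nat.find h = k at h1 h2
  cases k with
  | zero => exact ⟨0, h1⟩
  | succ k => exact ⟨k + 1, h1, h2 k (by omega)⟩

theorem shell_subset (k : ℕ) : shell d k ⊆ box d k := by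
  cases k with
  | zero => exact subset_rfl
  | succ k => exact Set.sdiff_subset

theorem norm_sub_le_of_cube {l : ℕ} {a x y : Fin d → ℤ} (hx : x ∈ cube l a) (hy : y ∈ cube l a) :
    ‖x - y‖ ≤ 2 ^ l := by
  rw [pi_norm_le_iff_of_nonneg (by positivity)]
  intro i
  rw [Int.norm_eq_abs, Pi.sub_apply]
  have h1 := hx i
  have h2 := hy i
  have : |x i - y i| ≤ 2 ^ l := by
    rw [abs_le]
    constructor <;> nlinarith [h1.1, h1.2, h2.1, h2.2]
  exact_mod_cast this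

theorem shell_hit {α c C γ : ℝ} (hα0 : 0 < α) (hG : GB ν α c C) (N : ℕ) (hγ0 : 0 < γ)
    (hγ : γ < d - α * N) : ∃ K : ℝ≥0∞, K ≠ ∞ ∧ ∀ (A : Set (Fin d → ℤ)) (k : ℕ),
      lawN ν N {ω | ∃ n, posN ω n ∈ A ∩ shell d (k + 1)} ≤ K * content γ A (k + 1) := by
  obtain ⟨K, hK, h⟩ := hit_bound hα0 hG (ε := d - α * N - γ) (by linarith) N (by linarith)
  have e1 : d - (d - α * N - γ + N * α) = γ := by ring
  have e2 : d - α * N - γ + N * α - d = -γ := by ring
  rw [e1, e2] at h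
  refine ⟨ENNReal.ofReal ((K + 1) * 8 ^ γ), ENNReal.ofReal_ne_top, fun A k => ?_⟩
  unfold content
  rw [ENNReal.mul_iInf_of_ne (by simp; positivity) ENNReal.ofReal_ne_top]
  refine le_iInf fun F => ?_
  rw [ENNReal.mul_iInf_of_ne (by simp; positivity) ENNReal.ofReal_ne_top]
  refine le_iInf fun hF => ?_
  have hsub : {ω : Fin N → ℕ → Fin d → ℤ | ∃ n, posN ω n ∈ A ∩ shell d (k + 1)} ⊆
      ⋃ p ∈ F, {ω | ∃ n, posN ω n ∈ cube p.1 p.2 ∩ shell d (k + 1)} := by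
    rintro ω ⟨n, hn⟩
    obtain ⟨p, hp, h1⟩ := Set.mem_iUnion₂.1 (hF hn)
    exact Set.mem_iUnion₂.2 ⟨p, hp, n, h1, hn.2⟩
  refine (measure_mono hsub).trans ((measure_biUnion_finset_le _ _).trans ?_)
  rw [Finset.mul_sum]
  refine Finset.sum_le_sum fun p _ => ?_
  rcases (cube p.1 p.2 ∩ shell d (k + 1)).eq_empty_or_nonempty with h0 | ⟨x, hx1, hx2⟩
  · simp [h0]
  have hsub2 : {ω : Fin N → ℕ → Fin d → ℤ | ∃ n, posN ω n ∈ cube p.1 p.2 ∩ shell d (k + 1)} ⊆
      {ω | ∃ n, ‖posN ω n - x‖ ≤ 2 ^ p.1} := by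
    rintro ω ⟨n, hn⟩
    exact ⟨n, norm_sub_le_of_cube hn.1 hx1⟩
  refine (measure_mono hsub2).trans ((h x _ (by positivity)).trans ?_)
  rw [← ENNReal.ofReal_mul (by positivity)]
  refine ENNReal.ofReal_le_ofReal ?_
  have h1 := le_norm_of_notMem_box hx2.2
  have h2 : (1 : ℝ) ≤ 2 ^ p.1 := one_le_pow₀ one_le_two
  have h3 : (1 + (2 : ℝ) ^ p.1) ^ γ ≤ (2 * 2 ^ p.1) ^ γ :=
    Real.rpow_le_rpow (by positivity) (by linarith) hγ0.le
  have h4 : (1 + (2 : ℝ) ^ p.1 + ‖x‖) ^ (-γ) ≤ ((2 : ℝ) ^ k) ^ (-γ) :=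
    Real.rpow_le_rpow_of_nonpos (by positivity) (by linarith) (by linarith)
  have h5 : (2 * (2 : ℝ) ^ p.1) ^ γ * ((2 : ℝ) ^ k) ^ (-γ)
      = 8 ^ γ * 2 ^ (γ * ((p.1 : ℝ) - ((k + 1 : ℕ) : ℝ) - 1)) := by
    rw [← pow_succ', show (8 : ℝ) = 2 ^ (3 : ℕ) by norm_num, ← Real.rpow_natCast,
      ← Real.rpow_natCast, ← Real.rpow_natCast, ← Real.rpow_mul (by norm_num),
      ← Real.rpow_mul (by norm_num), ← Real.rpow_mul (by norm_num),
      ← Real.rpow_add (by norm_num), ← Real.rpow_add (by norm_num)]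
    congr 1
    push_cast
    ring
  calc _ ≤ (K + 1) * ((2 * (2 : ℝ) ^ p.1) ^ γ * ((2 : ℝ) ^ k) ^ (-γ)) := by
        gcongr
        linarith
    _ = _ := by rw [h5]; ring

theorem q2 {α : ℝ} (hα0 : 0 < α) (N : ℕ) (hN : 1 ≤ N) (hd : α * N < d) (h : BarlowTaylor ν α)
    (A : Set (Fin d → ℤ)) (hA : Dim A < ENNReal.ofReal (d - α * N)) :
    ∀ᵐ ω ∂lawN ν N, Bornology.IsBounded (Set.range (posN ω) ∩ A) := by
  have hN' : (1 : ℝ) ≤ N := by exact_mod_cast hN
  obtain ⟨c, C, hG⟩ := gb_of_bt hα0 (by nlinarith) h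
  unfold Dim at hA
  simp only [iInf_lt_iff] at hA
  obtain ⟨γ, hγ0, hγ1, hγ2⟩ := hA
  rw [ENNReal.ofReal_lt_ofReal_iff (by linarith)] at hγ2
  obtain ⟨K, hK, hK2⟩ := shell_hit hα0 hG N hγ0 hγ2
  have hsum : ∑' k, lawN ν N {ω | ∃ n, posN ω n ∈ A ∩ shell d (k + 1)} ≠ ∞ := by
    refine ne_top_of_le_ne_top ?_ (ENNReal.tsum_le_tsum (hK2 A))
    rw [ENNReal.tsum_mul_left]
    exact ENNReal.mul_ne_top hK hγ1.ne
  filter_upwards [ae_eventually_notMem hsum] with ω hω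
  obtain ⟨k₀, hk₀⟩ := Filter.eventually_atTop.1 hω
  refine (Metric.isBounded_closedBall (x := (0 : Fin d → ℤ)) (r := 2 ^ k₀)).subset ?_
  rintro _ ⟨⟨n, rfl⟩, hA⟩
  obtain ⟨k, hk⟩ := exists_shell (posN ω n)
  have hle : k ≤ k₀ := by
    by_contra hc
    obtain ⟨k', rfl⟩ : ∃ k', k = k' + 1 := ⟨k - 1, by omega⟩
    exact hk₀ k' (by omega) ⟨n, hA, hk⟩
  rw [mem_closedBall_zero_iff]
  exact (norm_le_of_mem_box (shell_subset k hk)).trans (pow_le_pow_right₀ one_le_two hle)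

end Pool.Agent.H443Z.RW
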