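import Pool.Agent.H443Z.RW3

set_option autoImplicit false

namespace Pool.Agent.H443Z.RW

open MeasureTheory Set
open scoped ENNReal

variable {d : ℕ} {ν : Measure (Fin d → ℤ)} [IsProbabilityMeasure ν]

/-- number of visits of the additive walk to a point -/
noncomputable def occ : (N : ℕ) → (Fin N → ℕ → Fin d → ℤ) → (Fin d → ℤ) → ℝ≥0∞
  | 0, _, z => if z = 0 then 1 else 0
  | N + 1, ω, z => ∑' n, occ N (fun i => ω i.succ) (z - pos (ω 0) n)

theorem measurable_occ₂ (N : ℕ) :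
    Measurable (fun p : (Fin N → ℕ → Fin d → ℤ) × (Fin d → ℤ) => occ N p.1 p.2) := by
  induction N with
  | zero =>
    refine measurable_from_prod_countable_left fun z => ?_
    exact measurable_const (a := (if z = 0 then 1 else 0 : ℝ≥0∞))
  | succ N ih =>
    refine measurable_from_prod_countable_left fun z => ?_
    simp only [occ]
    refine Measurable.tsum fun n => ?_
    have h1 : Measurable (fun ω : Fin (N + 1) → ℕ → Fin d → ℤ => fun i : Fin N => ω i.succ) :=
      measurable_pi_lambda _ fun i => measurable_pi_apply _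
    have h2 : Measurable (fun ω : Fin (N + 1) → ℕ → Fin d → ℤ => z - pos (ω 0) n) :=
      (measurable_fpos (fun y => z - y) n).comp (measurable_pi_apply 0)
    exact ih.comp (h1.prodMk h2)

theorem measurable_occ (N : ℕ) (z : Fin d → ℤ) :
    Measurable (fun ω : Fin N → ℕ → Fin d → ℤ => occ N ω z) :=
  (measurable_occ₂ N).comp (measurable_id.prodMk measurable_const)

theorem exists_of_occ (N : ℕ) (ω : Fin N → ℕ → Fin d → ℤ) (z : Fin d → ℤ) (h : occ N ω z ≠ 0) :
    ∃ n, posN ω n = z := by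
  induction N generalizing z with
  | zero =>
    refine ⟨fun i => i.elim0, ?_⟩
    by_contra hc
    apply h
    simp only [occ]
    rw [if_neg]
    rintro rfl
    exact hc (by simp [posN])
  | succ N ih =>
    simp only [occ, ne_eq, ENNReal.tsum_eq_zero, not_forall] at h
    obtain ⟨n, hn⟩ := h
    obtain ⟨m, hm⟩ := ih _ _ hn
    refine ⟨Fin.cons n m, ?_⟩
    simp only [posN, Fin.sum_univ_succ, Fin.cons_zero, Fin.cons_succ] at hm ⊢
    rw [hm]; abel

theorem occ_cons (N : ℕ) (ω₀ : ℕ → Fin d → ℤ) (ω' : Fin N → ℕ → Fin d → ℤ) (z : Fin d → ℤ) :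
    occ (N + 1) (Fin.cons ω₀ ω' : Fin (N + 1) → ℕ → Fin d → ℤ) z
      = ∑' n, occ N ω' (z - pos ω₀ n) := by
  simp [occ]

/-- first moment -/
noncomputable def G1 (ν : Measure (Fin d → ℤ)) (N : ℕ) (z : Fin d → ℤ) : ℝ≥0∞ :=
  ∫⁻ ω, occ N ω z ∂lawN ν N

/-- second moment -/
noncomputable def T2 (ν : Measure (Fin d → ℤ)) (N : ℕ) (x y : Fin d → ℤ) : ℝ≥0∞ :=
  ∫⁻ ω, occ N ω x * occ N ω y ∂lawN ν N

theorem G1_succ (N : ℕ) (z : Fin d → ℤ) :
    G1 ν (N + 1) z = ∑' a, green ν a * G1 ν N (z - a) := by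
  rw [G1, lintegral_cons (measurable_occ _ _), ← green_sum (fun a => G1 ν N (z - a)),
    ← lintegral_tsum fun n => (measurable_fpos (fun a => G1 ν N (z - a)) n).aemeasurable]
  refine lintegral_congr fun ω₀ => ?_
  simp_rw [occ_cons]
  exact lintegral_tsum fun n => (measurable_occ _ _).aemeasurable

theorem T2_succ (N : ℕ) (x y : Fin d → ℤ) :
    T2 ν (N + 1) x y ≤ ∑' a, green ν a * ∑' c, green ν c * T2 ν N (x - a) (y - (a + c))
      + ∑' a, green ν a * ∑' c, green ν c * T2 ν N (x - (a + c)) (y - a) := by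
  refine le_trans (le_of_eq ?_) (green_two (fun a b => T2 ν N (x - a) (y - b)))
  have hm : ∀ n m, Measurable (fun ω : ℕ → Fin d → ℤ => T2 ν N (x - pos ω n) (y - pos ω m)) :=
    fun n m => (Measurable.of_discrete
      (f := fun p : (Fin d → ℤ) × (Fin d → ℤ) => T2 ν N (x - p.1) (y - p.2))).comp
      ((measurable_pos n).prodMk (measurable_pos m))
  have hmul : ∀ (M : ℕ) (a b : Fin d → ℤ),
      Measurable (fun ω : Fin M → ℕ → Fin d → ℤ => occ M ω a * occ M ω b) :=
    fun M a b => (measurable_occ _ _).mul (measurable_occ _ _)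
  rw [T2, lintegral_cons (hmul _ x y)]
  simp_rw [← lintegral_tsum fun m => (hm _ m).aemeasurable]
  rw [← lintegral_tsum fun n => (Measurable.tsum fun m => hm n m).aemeasurable]
  refine lintegral_congr fun ω₀ => ?_
  simp_rw [occ_cons, ← ENNReal.tsum_mul_right, ← ENNReal.tsum_mul_left]
  rw [lintegral_tsum fun n =>
    (Measurable.tsum fun m => hmul _ _ _).aemeasurable]
  refine tsum_congr fun n => ?_
  exact lintegral_tsum fun m => (hmul _ _ _).aemeasurable

/-- the kernel with values in `ℝ≥0∞` -/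
noncomputable def Ph (s : ℝ) (z : Fin d → ℤ) : ℝ≥0∞ := ENNReal.ofReal (ph s z)

theorem Ph_sub (s : ℝ) (x y : Fin d → ℤ) : Ph s (x - y) = Ph s (y - x) := by
  rw [Ph, Ph, ph_sub]

theorem convE {α s : ℝ} (hα : 0 < α) (hs : 0 < s) (hd : α + s < d) : ∃ K : ℝ≥0∞, K ≠ ∞ ∧
    ∀ x : Fin d → ℤ, ∑' a, Ph α a * Ph s (x - a) ≤ K * Ph (α + s) x := by
  obtain ⟨C, hC, h⟩ := conv (d := d) hα hs hd
  refine ⟨ENNReal.ofReal C, ENNReal.ofReal_ne_top, fun x => ?_⟩
  simp only [Ph]
  simp_rw [← ENNReal.ofReal_mul (ph_pos _ _).le]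
  rw [← ENNReal.ofReal_mul hC]
  exact tsum_ofReal_le (fun a => (mul_pos (ph_pos _ _) (ph_pos _ _)).le) fun F => h F x 1 le_rfl

theorem tripleE {s t : ℝ} (hs : 0 < s) (ht : 0 < t) (hd : s + t < d) : ∃ K : ℝ≥0∞, K ≠ ∞ ∧
    ∀ x y : Fin d → ℤ, ∑' u, Ph (s + t) u * Ph s (x - u) * Ph t (y - u)
      ≤ K * ((Ph (s + t) x + Ph (s + t) y) * Ph (s + t) (x - y)) := by
  obtain ⟨C, hC, h⟩ := triple (d := d) hs ht hd
  refine ⟨ENNReal.ofReal C, ENNReal.ofReal_ne_top, fun x y => ?_⟩
  simp only [Ph]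
  simp_rw [← ENNReal.ofReal_mul (ph_pos _ _).le,
    ← ENNReal.ofReal_mul (mul_pos (ph_pos _ _) (ph_pos _ _)).le]
  rw [← ENNReal.ofReal_add (ph_pos _ _).le (ph_pos _ _).le,
    ← ENNReal.ofReal_mul (add_pos (ph_pos _ _) (ph_pos _ _)).le, ← ENNReal.ofReal_mul hC]
  exact tsum_ofReal_le (fun a => (mul_pos (mul_pos (ph_pos _ _) (ph_pos _ _)) (ph_pos _ _)).le)
    fun F => h F x y

theorem G1_lower {α c C : ℝ} (hα0 : 0 < α) (hG : GB ν α c C) (N : ℕ) (hN : α * (N + 1) < d) :
    ∃ c' : ℝ, 0 < c' ∧ ∀ z, ENNReal.ofReal (c' * ph (α * (N + 1)) z) ≤ G1 ν (N + 1) z := by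
  induction N with
  | zero =>
    refine ⟨c, hG.hc, fun z => ?_⟩
    rw [G1_succ]
    refine le_trans ?_ (ENNReal.le_tsum z)
    simpa [G1, occ] using hG.lo z
  | succ N ih =>
    push_cast at hN ⊢
    have hNα : 0 < α * (N + 1) := by positivity
    obtain ⟨c', hc', ih⟩ := ih (by linarith)
    obtain ⟨c₂, hc₂, h₂⟩ := conv_lower (d := d) hα0 hNα (by linarith)
    have hc := hG.hc
    refine ⟨c * c' * c₂, by positivity, fun z => ?_⟩
    obtain ⟨F, hF⟩ := h₂ z
    rw [G1_succ]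
    refine le_trans ?_ (ENNReal.sum_le_tsum F)
    refine le_trans ?_ (Finset.sum_le_sum fun a _ => mul_le_mul' (hG.lo a) (ih (z - a)))
    simp_rw [← ENNReal.ofReal_mul (mul_pos hc (ph_pos _ _)).le]
    rw [← ENNReal.ofReal_sum_of_nonneg fun a _ =>
      (mul_pos (mul_pos hc (ph_pos _ _)) (mul_pos hc' (ph_pos _ _))).le]
    refine ENNReal.ofReal_le_ofReal ?_
    rw [show α * (N + 1 + 1) = α + α * (N + 1) by ring]
    calc c * c' * c₂ * ph (α + α * (N + 1)) z = c * c' * (c₂ * ph (α + α * (N + 1)) z) := by ring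
      _ ≤ c * c' * ∑ a ∈ F, ph α a * ph (α * (N + 1)) (z - a) :=
        mul_le_mul_of_nonneg_left hF (by positivity)
      _ = _ := by
        rw [Finset.mul_sum]
        exact Finset.sum_congr rfl fun a _ => by ring

omit [IsProbabilityMeasure ν] in
theorem half_step {α c C s : ℝ} (hα0 : 0 < α) (hs : 0 < s) (hd : s + α < d) (hG : GB ν α c C)
    {K : ℝ≥0∞} (hK : K ≠ ∞) : ∃ K' : ℝ≥0∞, K' ≠ ∞ ∧
      ∀ T : (Fin d → ℤ) → (Fin d → ℤ) → ℝ≥0∞,
        (∀ x y, T x y ≤ K * ((Ph s x + Ph s y) * Ph s (x - y))) → ∀ x y,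
        ∑' a, green ν a * ∑' b, green ν b * T (x - a) (y - (a + b))
          ≤ K' * ((Ph (s + α) x + Ph (s + α) y) * Ph (s + α) (x - y)) := by
  obtain ⟨K₁, hK₁, h₁⟩ := convE (d := d) hα0 hs (by linarith)
  obtain ⟨K₂, hK₂, h₂⟩ := tripleE (d := d) hs hα0 hd
  rw [add_comm α s] at h₁
  set Cg := ENNReal.ofReal C with hCg
  have hg : ∀ a, green ν a ≤ Cg * Ph α a := fun a => by
    rw [hCg, Ph, ← ENNReal.ofReal_mul hG.hC]; exact hG.up a
  have hCg' : Cg ≠ ∞ := ENNReal.ofReal_ne_top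
  refine ⟨Cg * Cg * K * (K₁ * K₁ + K₁ * K₂), by finiteness, fun T hT x y => ?_⟩
  have e1 : ∀ a b : Fin d → ℤ, x - a - (y - (a + b)) = x - (y - b) := fun a b => by abel
  have e2 : ∀ a b : Fin d → ℤ, y - (a + b) = (y - b) - a := fun a b => by abel
  have e3 : ∀ b : Fin d → ℤ, Ph s (x - (y - b)) = Ph s ((y - x) - b) := fun b => by
    rw [Ph_sub]; congr 1; abel
  calc _ ≤ ∑' a, (Cg * Ph α a) * ∑' b, (Cg * Ph α b) *
        (K * ((Ph s (x - a) + Ph s (y - b - a)) * Ph s (x - (y - b)))) := by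
        refine ENNReal.tsum_le_tsum fun a => mul_le_mul' (hg a) (ENNReal.tsum_le_tsum fun b =>
          mul_le_mul' (hg b) ?_)
        rw [← e1 a b, ← e2 a b]
        exact hT _ _
    _ = Cg * Cg * K * ((∑' a, Ph α a * Ph s (x - a)) * (∑' b, Ph α b * Ph s ((y - x) - b))
        + ∑' b, (∑' a, Ph α a * Ph s (y - b - a)) * Ph s (x - (y - b)) * Ph α b) := by
        simp_rw [← ENNReal.tsum_mul_right, ← ENNReal.tsum_mul_left]
        rw [ENNReal.tsum_comm (f := fun b a =>
          Ph α a * Ph s (y - b - a) * Ph s (x - (y - b)) * Ph α b), ← ENNReal.tsum_add,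
          ← ENNReal.tsum_mul_left]
        refine tsum_congr fun a => ?_
        rw [← ENNReal.tsum_add, ← ENNReal.tsum_mul_left]
        refine tsum_congr fun b => ?_
        rw [← e3]
        ring
    _ ≤ Cg * Cg * K * ((K₁ * Ph (s + α) x) * (K₁ * Ph (s + α) (y - x))
        + K₁ * (K₂ * ((Ph (s + α) x + Ph (s + α) y) * Ph (s + α) (x - y)))) := by
        gcongr
        · exact h₁ x
        · exact h₁ _
        · calc _ ≤ ∑' b, (K₁ * Ph (s + α) (y - b)) * Ph s (x - (y - b)) * Ph α b := by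
                refine ENNReal.tsum_le_tsum fun b => ?_
                gcongr
                exact h₁ _
            _ = K₁ * ∑' u, Ph (s + α) u * Ph s (x - u) * Ph α (y - u) := by
                rw [← ENNReal.tsum_mul_left, ← (Equiv.subLeft y).tsum_eq]
                refine tsum_congr fun u => ?_
                simp only [Equiv.subLeft_apply, sub_sub_cancel]
                ring
            _ ≤ _ := by
                gcongr
                exact h₂ x y
    _ ≤ Cg * Cg * K * ((K₁ * (Ph (s + α) x + Ph (s + α) y)) * (K₁ * Ph (s + α) (x - y))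
        + K₁ * (K₂ * ((Ph (s + α) x + Ph (s + α) y) * Ph (s + α) (x - y)))) := by
        rw [Ph_sub _ y x]
        gcongr
        exact le_self_add
    _ = _ := by ring

theorem T2_upper {α c C : ℝ} (hα0 : 0 < α) (hG : GB ν α c C) (N : ℕ) (hN : α * (N + 1) < d) :
    ∃ K : ℝ≥0∞, K ≠ ∞ ∧ ∀ x y, T2 ν (N + 1) x y ≤
      K * ((Ph (α * (N + 1)) x + Ph (α * (N + 1)) y) * Ph (α * (N + 1)) (x - y)) := by
  induction N with
  | zero =>
    have hg : ∀ a, green ν a ≤ ENNReal.ofReal C * Ph α a := fun a => by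
      rw [Ph, ← ENNReal.ofReal_mul hG.hC]; exact hG.up a
    refine ⟨ENNReal.ofReal C * ENNReal.ofReal C, by finiteness, fun x y => ?_⟩
    refine (T2_succ 0 x y).trans ?_
    have h0 : ∀ a b : Fin d → ℤ, T2 ν 0 a b = (if a = 0 then 1 else 0) * (if b = 0 then 1 else 0) := by
      intro a b
      simp [T2, occ]
    simp only [h0, Nat.cast_zero, zero_add, mul_one]
    rw [tsum_eq_single x (fun a ha => by simp [sub_ne_zero.2 ha.symm]),
      tsum_eq_single (y - x) (fun b hb => by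
        rw [if_neg (c := y - (x + b) = 0), mul_zero, mul_zero]
        intro e; apply hb; rw [sub_eq_zero] at e; rw [e]; abel),
      tsum_eq_single y (fun a ha => by simp [sub_ne_zero.2 ha.symm]),
      tsum_eq_single (x - y) (fun b hb => by
        rw [if_neg (c := x - (y + b) = 0), zero_mul, mul_zero]
        intro e; apply hb; rw [sub_eq_zero] at e; rw [e]; abel)]
    simp only [sub_self, if_true, add_sub_cancel, mul_one]
    calc _ ≤ (ENNReal.ofReal C * Ph α x) * (ENNReal.ofReal C * Ph α (y - x))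
          + (ENNReal.ofReal C * Ph α y) * (ENNReal.ofReal C * Ph α (x - y)) :=
          add_le_add (mul_le_mul' (hg _) (hg _)) (mul_le_mul' (hg _) (hg _))
      _ = _ := by rw [Ph_sub _ y x]; ring
  | succ N ih =>
    push_cast at hN ⊢
    have hNα : 0 < α * (N + 1) := by positivity
    obtain ⟨K, hK, ih⟩ := ih (by linarith)
    obtain ⟨K', hK', h⟩ := half_step hα0 hNα (by linarith) hG hK
    refine ⟨K' + K', by finiteness, fun x y => ?_⟩
    rw [show α * (N + 1 + 1) = α * (N + 1) + α by ring, add_mul]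
    refine (T2_succ _ x y).trans (add_le_add (h _ ih x y) ?_)
    have := h (fun a b => T2 ν (N + 1) b a) (fun a b => by
      rw [add_comm (Ph _ a), Ph_sub _ a b]; exact ih b a) y x
    rwa [add_comm (Ph _ y), Ph_sub _ y x] at this

end Pool.Agent.H443Z.RW
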