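import Pool.Agent.H443Z.RW4

set_option autoImplicit false

namespace Pool.Agent.H443Z.RW

open Finset

theorem sum_biUnion_le' {Y Z : Type*} [DecidableEq Z] (S : Finset Y) (F : Y → Finset Z) (w : Z → ℝ)
    (hw : ∀ p, 0 ≤ w p) : ∑ p ∈ S.biUnion F, w p ≤ ∑ b ∈ S, ∑ p ∈ F b, w p := by
  classical
  induction S using Finset.induction_on with
  | empty => simp
  | insert b S hb ih =>
    rw [Finset.biUnion_insert, Finset.sum_insert hb]
    have h1 := Finset.sum_union_inter (s₁ := F b) (s₂ := S.biUnion F) (f := w)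
    have h2 : 0 ≤ ∑ p ∈ F b ∩ S.biUnion F, w p := Finset.sum_nonneg fun p _ => hw p
    linarith

theorem glue {X Y Z : Type*} [DecidableEq Y] (S : Finset X) (f : X → Y) (μ : X → ℝ) (w : Z → ℝ)
    (hw : ∀ p, 0 ≤ w p) (Cov : X → Z → Prop)
    (h : ∀ b ∈ S.image f, ∃ F : Finset Z, (∀ x ∈ S, f x = b → ∃ p ∈ F, Cov x p) ∧
      ∑ p ∈ F, w p ≤ ∑ x ∈ S.filter (fun x => f x = b), μ x) :
    ∃ F : Finset Z, (∀ x ∈ S, ∃ p ∈ F, Cov x p) ∧ ∑ p ∈ F, w p ≤ ∑ x ∈ S, μ x := by
  classical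
  choose! F hF1 hF2 using h
  refine ⟨(S.image f).biUnion F, fun x hx => ?_, ?_⟩
  · obtain ⟨p, hp, hp'⟩ := hF1 (f x) (Finset.mem_image_of_mem f hx) x hx rfl
    exact ⟨p, Finset.mem_biUnion.2 ⟨f x, Finset.mem_image_of_mem f hx, hp⟩, hp'⟩
  · refine (sum_biUnion_le' _ _ _ hw).trans ?_
    rw [← Finset.sum_fiberwise_of_maps_to (s := S) (t := S.image f) (g := f)
      (fun x hx => Finset.mem_image_of_mem f hx)]
    exact Finset.sum_le_sum hF2

theorem frostman_aux {X Y : Type*} [DecidableEq Y] (T : Finset X) (lev : ℕ → X → Y)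
    (h0 : Function.Injective (lev 0))
    (hl : ∀ l x y, lev l x = lev l y → lev (l + 1) x = lev (l + 1) y)
    (w : ℕ → ℝ) (hw : ∀ l, 0 ≤ w l) (L : ℕ) :
    ∃ μ : X → ℝ, (∀ x, 0 ≤ μ x) ∧
      (∀ l ≤ L, ∀ a, ∑ x ∈ T.filter (fun x => lev l x = a), μ x ≤ w l) ∧
      ∀ a, ∃ F : Finset (ℕ × Y), (∀ x ∈ T, lev L x = a → ∃ p ∈ F, lev p.1 x = p.2) ∧
        ∑ p ∈ F, w p.1 ≤ ∑ x ∈ T.filter (fun x => lev L x = a), μ x := by
  classical
  induction L with
  | zero =>
    refine ⟨fun _ => w 0, fun _ => hw 0, fun l hl a => ?_, fun a => ?_⟩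
    · obtain rfl : l = 0 := by omega
      have : (T.filter (fun x => lev 0 x = a)).card ≤ 1 := by
        rw [Finset.card_le_one]
        intro x hx y hy
        exact h0 ((Finset.mem_filter.1 hx).2.trans (Finset.mem_filter.1 hy).2.symm)
      rw [Finset.sum_const, nsmul_eq_mul]
      have h1 : ((T.filter (fun x => lev 0 x = a)).card : ℝ) ≤ 1 := by exact_mod_cast this
      nlinarith [hw 0]
    · rcases (T.filter (fun x => lev 0 x = a)).eq_empty_or_nonempty with he | ⟨x, hx⟩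
      · refine ⟨∅, fun x hx hxa => ?_, by simp [he]⟩
        have : x ∈ T.filter (fun x => lev 0 x = a) := Finset.mem_filter.2 ⟨hx, hxa⟩
        rw [he] at this
        simp at this
      · refine ⟨{(0, a)}, fun x _ hxa => ⟨(0, a), Finset.mem_singleton_self _, hxa⟩, ?_⟩
        rw [Finset.sum_singleton]
        exact Finset.single_le_sum (f := fun _ => w 0) (fun _ _ => hw 0) hx
  | succ L ih =>
    obtain ⟨μ, hμ0, hμ1, hμ2⟩ := ih
    set M : Y → ℝ := fun a => ∑ x ∈ T.filter (fun x => lev (L + 1) x = a), μ x with hM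
    set t : Y → ℝ := fun a => if M a ≤ w (L + 1) then 1 else w (L + 1) / M a with ht
    have ht0 : ∀ a, 0 ≤ t a := fun a => by
      simp only [ht]
      split_ifs with h
      · exact zero_le_one
      · exact div_nonneg (hw _) ((hw _).trans (not_le.1 h).le)
    have ht1 : ∀ a, t a ≤ 1 := fun a => by
      simp only [ht]
      split_ifs with h
      · exact le_rfl
      · exact div_le_one_of_le₀ (not_le.1 h).le ((hw _).trans (not_le.1 h).le)
    have hs : ∀ a, ∑ x ∈ T.filter (fun x => lev (L + 1) x = a), μ x * t (lev (L + 1) x)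
        = M a * t a := fun a => by
      simp only [hM]
      rw [Finset.sum_mul]
      exact Finset.sum_congr rfl fun x hx => by rw [(Finset.mem_filter.1 hx).2]
    refine ⟨fun x => μ x * t (lev (L + 1) x), fun x => mul_nonneg (hμ0 x) (ht0 _),
      fun l hl a => ?_, fun a => ?_⟩
    · rcases Nat.lt_or_ge l (L + 1) with h | h
      · refine le_trans (Finset.sum_le_sum fun x _ => ?_) (hμ1 l (by omega) a)
        exact mul_le_of_le_one_right (hμ0 x) (ht1 _)
      · obtain rfl : l = L + 1 := by omega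
        rw [hs]
        simp only [ht]
        split_ifs with h
        · rwa [mul_one]
        · rw [mul_div_cancel₀]
          exact (lt_of_le_of_lt (hw _) (not_le.1 h)).ne'
    · rw [hs]
      by_cases h : M a ≤ w (L + 1)
      · have e : t a = 1 := by simp only [ht]; rw [if_pos h]
        rw [e, mul_one]
        obtain ⟨F, hF1, hF2⟩ := glue (T.filter (fun x => lev (L + 1) x = a)) (lev L) μ
          (fun p : ℕ × Y => w p.1) (fun p => hw _) (fun x p => lev p.1 x = p.2) (by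
            intro b hb
            obtain ⟨x₀, hx₀, rfl⟩ := Finset.mem_image.1 hb
            obtain ⟨F, hF1, hF2⟩ := hμ2 (lev L x₀)
            refine ⟨F, fun x hx hxb => hF1 x (Finset.mem_filter.1 hx).1 hxb, hF2.trans_eq ?_⟩
            refine Finset.sum_congr ?_ fun _ _ => rfl
            ext x
            simp only [Finset.mem_filter]
            constructor
            · rintro ⟨h1, h2⟩
              exact ⟨⟨h1, (hl L _ _ h2).trans (Finset.mem_filter.1 hx₀).2⟩, h2⟩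
            · rintro ⟨⟨h1, _⟩, h2⟩
              exact ⟨h1, h2⟩)
        exact ⟨F, fun x hx hxa => hF1 x (Finset.mem_filter.2 ⟨hx, hxa⟩), hF2⟩
      · refine ⟨{(L + 1, a)}, fun x _ hxa => ⟨(L + 1, a), Finset.mem_singleton_self _, hxa⟩, ?_⟩
        have e : t a = w (L + 1) / M a := by simp only [ht]; rw [if_neg h]
        rw [Finset.sum_singleton, e, mul_div_cancel₀]
        exact (lt_of_le_of_lt (hw _) (not_le.1 h)).ne'

theorem frostman_abs {X Y : Type*} [DecidableEq Y] (T : Finset X) (lev : ℕ → X → Y)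
    (h0 : Function.Injective (lev 0))
    (hl : ∀ l x y, lev l x = lev l y → lev (l + 1) x = lev (l + 1) y)
    (w : ℕ → ℝ) (hw : ∀ l, 0 ≤ w l) (L : ℕ) :
    ∃ μ : X → ℝ, (∀ x, 0 ≤ μ x) ∧
      (∀ l ≤ L, ∀ a, ∑ x ∈ T.filter (fun x => lev l x = a), μ x ≤ w l) ∧
      ∃ F : Finset (ℕ × Y), (∀ x ∈ T, ∃ p ∈ F, lev p.1 x = p.2) ∧
        ∑ p ∈ F, w p.1 ≤ ∑ x ∈ T, μ x := by
  obtain ⟨μ, h1, h2, h3⟩ := frostman_aux T lev h0 hl w hw L
  exact ⟨μ, h1, h2, glue T (lev L) μ (fun p : ℕ × Y => w p.1) (fun p => hw _)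
    (fun x p => lev p.1 x = p.2) fun b _ => h3 b⟩

variable {d : ℕ}

/-- index of the dyadic cube of side `2^l` that contains `x` -/
def lev (l : ℕ) (x : Fin d → ℤ) : Fin d → ℤ := fun j => x j / 2 ^ l

theorem mem_cube_lev (l : ℕ) (x : Fin d → ℤ) : x ∈ cube l (lev l x) := by
  intro j
  have h : (0 : ℤ) < 2 ^ l := by positivity
  exact ⟨Int.ediv_mul_le _ h.ne', Int.lt_ediv_add_one_mul_self _ h⟩

theorem lev_zero_inj : Function.Injective (lev (d := d) 0) := by
  intro x y h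
  funext j
  simpa [lev] using congrFun h j

theorem lev_succ (l : ℕ) (x y : Fin d → ℤ) (h : lev l x = lev l y) :
    lev (l + 1) x = lev (l + 1) y := by
  funext j
  have := congrFun h j
  simp only [lev] at this ⊢
  rw [pow_succ, ← Int.ediv_ediv_of_nonneg (by positivity), ← Int.ediv_ediv_of_nonneg (by positivity),
    this]

theorem lev_close {l : ℕ} {x y : Fin d → ℤ} (h : ‖y - x‖ < 2 ^ l) :
    ‖lev l x - lev l y‖ < (2 : ℕ) := by
  rw [pi_norm_lt_iff (by norm_num)]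
  intro j
  have h1 : ‖(y - x) j‖ < 2 ^ l := lt_of_le_of_lt (norm_le_pi_norm _ j) h
  rw [Int.norm_eq_abs, Pi.sub_apply] at h1 ⊢
  have h2 : |y j - x j| < 2 ^ l := by exact_mod_cast h1
  have hx := mem_cube_lev l x j
  have hy := mem_cube_lev l y j
  have hp : (0 : ℤ) < 2 ^ l := by positivity
  rw [abs_lt] at h2
  have h3 : |lev l x j - lev l y j| < 2 := by
    rw [abs_lt]
    constructor
    · by_contra hc
      nlinarith [not_lt.1 hc]
    · by_contra hc
      nlinarith [not_lt.1 hc]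
  exact_mod_cast h3

theorem ball_mass (T : Finset (Fin d → ℤ)) (μ : (Fin d → ℤ) → ℝ) (l : ℕ)
    {w : ℝ} (hw : 0 ≤ w) (P : (Fin d → ℤ) → Prop) [DecidablePred P] (hμ : ∀ x, 0 ≤ μ x)
    (h : ∀ a, ∑ x ∈ T.filter (fun x => lev l x = a), μ x ≤ w) (y : Fin d → ℤ)
    (hP : ∀ x, P x → ‖y - x‖ < 2 ^ l) : ∑ x ∈ T.filter P, μ x ≤ 4 ^ d * w := by
  rw [← Finset.sum_fiberwise_of_maps_to (s := T.filter P) (t := (T.filter P).image (lev l))
    (g := lev l) (fun x hx => Finset.mem_image_of_mem _ hx)]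
  have hc := card_le 2 (lev l y) ((T.filter P).image (lev l)) (by
    intro z hz
    obtain ⟨x, hx, rfl⟩ := Finset.mem_image.1 hz
    exact lev_close (hP x (Finset.mem_filter.1 hx).2))
  have hc' : (((T.filter P).image (lev l)).card : ℝ) ≤ 4 ^ d := by exact_mod_cast hc
  refine (Finset.sum_le_card_nsmul _ _ w fun a _ => ?_).trans ?_
  · refine le_trans (Finset.sum_le_sum_of_subset_of_nonneg ?_ fun x _ _ => hμ x) (h a)
    exact Finset.filter_subset_filter _ (Finset.filter_subset _ _)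
  · rw [nsmul_eq_mul]
    exact mul_le_mul_of_nonneg_right hc' hw

theorem finite_shell (k : ℕ) : (shell d k).Finite := by
  refine (Finset.finite_toSet (Fintype.piFinset fun _ : Fin d =>
    Finset.Ico (-2 ^ k : ℤ) (2 ^ k))).subset fun x hx => ?_
  rw [Finset.mem_coe, Fintype.mem_piFinset]
  intro j
  exact Finset.mem_Ico.2 (shell_subset k hx j)

/-- Frostman measure on a shell, with the bound on its potential -/
theorem frostman {β γ : ℝ} (hβ : 0 < β) (hγ : β < γ) : ∃ C : ℝ, 0 ≤ C ∧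
    ∀ (A : Set (Fin d → ℤ)) (k : ℕ), ∃ (T : Finset (Fin d → ℤ)) (μ : (Fin d → ℤ) → ℝ),
      (∀ x ∈ T, x ∈ A ∩ shell d (k + 1)) ∧ (∀ x, 0 ≤ μ x) ∧
      content γ A (k + 1) ≤ ENNReal.ofReal (∑ x ∈ T, μ x) ∧
      ∀ y : Fin d → ℤ, ‖y‖ ≤ 3 * 2 ^ k →
        ((2 : ℝ) ^ k) ^ β * ∑ x ∈ T, μ x * (1 + ‖y - x‖) ^ (-β) ≤ C := by
  classical
  obtain ⟨C, hC, hgeo⟩ := geom_up (s := γ - β) (by linarith)
  refine ⟨4 ^ d * (C * 6 ^ (γ - β)), by positivity, fun A k => ?_⟩
  have hfin : (A ∩ shell d (k + 1)).Finite := (finite_shell (k + 1)).subset Set.inter_subset_right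
  obtain ⟨μ, h1, h2, F, hF1, hF2⟩ := frostman_abs hfin.toFinset lev lev_zero_inj lev_succ
    (fun l => (2 : ℝ) ^ (γ * ((l : ℝ) - ((k + 1 : ℕ) : ℝ) - 1))) (fun l => by positivity) (k + 3)
  refine ⟨hfin.toFinset, μ, fun x hx => hfin.mem_toFinset.1 hx, h1, ?_, fun y hy => ?_⟩
  · unfold content
    refine iInf₂_le_of_le F ?_ ?_
    · intro x hx
      obtain ⟨p, hp, hp'⟩ := hF1 x (hfin.mem_toFinset.2 hx)
      simp only [Set.mem_iUnion]
      exact ⟨p, hp, hp' ▸ mem_cube_lev _ _⟩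
    · rw [← ENNReal.ofReal_sum_of_nonneg fun p _ => by positivity]
      exact ENNReal.ofReal_le_ofReal hF2
  · obtain ⟨J, hJ1, hJ2⟩ := dyadic hfin.toFinset (fun x => 1 + ‖y - x‖) μ (e := -β) (by linarith)
      (fun x _ => by linarith [norm_nonneg (y - x)]) (fun x _ => h1 x) _ (fun j => le_rfl)
    have hk : (1 : ℝ) ≤ 2 ^ k := one_le_pow₀ one_le_two
    have hJ : ∀ j ∈ J, (2 : ℝ) ^ j ≤ 6 * 2 ^ k := fun j hj => by
      obtain ⟨x, hx, hx1, -⟩ := hJ1 j hj
      have h3 := norm_le_of_mem_box (shell_subset _ (hfin.mem_toFinset.1 hx).2)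
      have h4 := norm_sub_le y x
      rw [pow_succ] at h3
      linarith
    have hJ' : ∀ j ∈ J, j + 1 ≤ k + 3 := fun j hj => by
      have h3 : (2 : ℝ) ^ j < 2 ^ (k + 3) := by
        have := hJ j hj
        rw [pow_add]
        linarith
      have := (pow_lt_pow_iff_right₀ one_lt_two).1 h3
      omega
    refine (mul_le_mul_of_nonneg_left hJ2 (by positivity)).trans ?_
    rw [Finset.mul_sum]
    have hterm : ∀ j ∈ J, ((2 : ℝ) ^ k) ^ β *
        ((∑ x ∈ hfin.toFinset.filter (fun x => 1 + ‖y - x‖ < 2 ^ (j + 1)), μ x) * ((2 : ℝ) ^ j) ^ (-β))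
        ≤ 4 ^ d * ((2 : ℝ) ^ k) ^ (-(γ - β)) * ((2 : ℝ) ^ j) ^ (γ - β) := fun j hj => by
      have h3 := ball_mass hfin.toFinset μ (j + 1) (by positivity)
        (fun x => 1 + ‖y - x‖ < 2 ^ (j + 1)) h1 (h2 (j + 1) (hJ' j hj)) y (fun x hx => by linarith)
      have h4 : ((2 : ℝ) ^ k) ^ β * ((2 : ℝ) ^ (γ * (((j + 1 : ℕ) : ℝ) - ((k + 1 : ℕ) : ℝ) - 1))
          * ((2 : ℝ) ^ j) ^ (-β)) ≤ ((2 : ℝ) ^ k) ^ (-(γ - β)) * ((2 : ℝ) ^ j) ^ (γ - β) := by
        simp only [← Real.rpow_natCast]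
        rw [← Real.rpow_mul (by norm_num), ← Real.rpow_mul (by norm_num),
          ← Real.rpow_mul (by norm_num), ← Real.rpow_mul (by norm_num),
          ← Real.rpow_add (by norm_num), ← Real.rpow_add (by norm_num),
          ← Real.rpow_add (by norm_num)]
        refine Real.rpow_le_rpow_of_exponent_le one_le_two ?_
        push_cast
        nlinarith
      calc _ ≤ ((2 : ℝ) ^ k) ^ β * ((4 ^ d *
            (2 : ℝ) ^ (γ * (((j + 1 : ℕ) : ℝ) - ((k + 1 : ℕ) : ℝ) - 1))) * ((2 : ℝ) ^ j) ^ (-β)) := by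
            gcongr
        _ = 4 ^ d * (((2 : ℝ) ^ k) ^ β * ((2 : ℝ) ^ (γ * (((j + 1 : ℕ) : ℝ) - ((k + 1 : ℕ) : ℝ) - 1))
          * ((2 : ℝ) ^ j) ^ (-β))) := by ring
        _ ≤ _ := by
            rw [mul_assoc]
            gcongr
    refine (Finset.sum_le_sum hterm).trans ?_
    rw [← Finset.mul_sum, mul_assoc]
    refine mul_le_mul_of_nonneg_left ?_ (by positivity)
    have h5 := hgeo J (6 * 2 ^ k) (by positivity) hJ
    rw [Real.mul_rpow (by norm_num) (by positivity)] at h5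
    have h6 : 0 < ((2 : ℝ) ^ k) ^ (γ - β) := by positivity
    rw [Real.rpow_neg (by positivity), inv_mul_le_iff₀ h6]
    linarith

end Pool.Agent.H443Z.RW
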