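import Pool.Agent.H443Z.RW5

set_option autoImplicit false

namespace Pool.Agent.H443Z.RW

open MeasureTheory
open scoped ENNReal

theorem paley {Ω : Type*} [MeasurableSpace Ω] (μ : Measure Ω) {L : Ω → ℝ≥0∞} (hL : Measurable L)
    {H : Set Ω} (hH : MeasurableSet H) (h0 : ∀ ω, ω ∉ H → L ω = 0) :
    (∫⁻ ω, L ω ∂μ) ^ 2 ≤ (∫⁻ ω, L ω * L ω ∂μ) * μ H := by
  have h := ENNReal.lintegral_mul_le_Lp_mul_Lq μ Real.HolderConjugate.two_two hL.aemeasurable
    ((measurable_const (a := (1 : ℝ≥0∞))).indicator hH).aemeasurable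
  have e1 : ∫⁻ ω, (L * H.indicator fun _ => (1 : ℝ≥0∞)) ω ∂μ = ∫⁻ ω, L ω ∂μ := by
    refine lintegral_congr fun ω => ?_
    by_cases hω : ω ∈ H
    · simp [hω]
    · simp [h0 ω hω]
  have e2 : ∫⁻ ω, (H.indicator (fun _ => (1 : ℝ≥0∞)) ω) ^ (2 : ℝ) ∂μ = μ H := by
    rw [← lintegral_indicator_one hH]
    refine lintegral_congr fun ω => ?_
    by_cases hω : ω ∈ H
    · simp [hω]
    · simp [hω]
  have e3 : ∫⁻ ω, L ω ^ (2 : ℝ) ∂μ = ∫⁻ ω, L ω * L ω ∂μ := by
    refine lintegral_congr fun ω => ?_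
    rw [ENNReal.rpow_two, sq]
  rw [e1, e2, e3, ← ENNReal.mul_rpow_of_nonneg _ _ (by norm_num)] at h
  have h2 := pow_le_pow_left' h 2
  rwa [← ENNReal.rpow_two (_ ^ _), ← ENNReal.rpow_mul, show (1 / 2 : ℝ) * 2 = 1 by norm_num,
    ENNReal.rpow_one] at h2

variable {d : ℕ} {ν : Measure (Fin d → ℤ)} [IsProbabilityMeasure ν]

theorem second_moment {α c C : ℝ} (hα0 : 0 < α) (hG : GB ν α c C) (N : ℕ)
    (hN : α * (N + 1) < d) {E : ℝ} (hE : 0 < E) : ∃ c₀ : ℝ≥0∞, 0 < c₀ ∧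
      ∀ {ι : Type} (U : Finset ι) (p : ι → Fin d → ℤ) (ρ : ι → ℝ), (∀ i, 0 ≤ ρ i) →
        0 < ∑ i ∈ U, ρ i →
        (∀ i ∈ U, ∑ j ∈ U, ρ j * (ph (α * (N + 1)) (p i - p j) / ph (α * (N + 1)) (p j))
          ≤ E * ∑ i ∈ U, ρ i) →
        c₀ ≤ lawN ν (N + 1) {ω | ∃ n, ∃ i ∈ U, posN ω n = p i} := by
  obtain ⟨c', hc', h1⟩ := G1_lower hα0 hG N hN
  obtain ⟨K, hK, h2⟩ := T2_upper hα0 hG N hN
  set s := α * (N + 1) with hs
  set K' : ℝ := K.toReal + 1 with hK'
  have hK'0 : 0 < K' := by positivity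
  have h2' : ∀ x y, T2 ν (N + 1) x y ≤ ENNReal.ofReal (K' * ((ph s x + ph s y) * ph s (x - y))) := by
    intro x y
    refine (h2 x y).trans ?_
    rw [ENNReal.ofReal_mul hK'0.le, ENNReal.ofReal_mul (add_pos (ph_pos _ _) (ph_pos _ _)).le,
      ENNReal.ofReal_add (ph_pos _ _).le (ph_pos _ _).le]
    refine mul_le_mul' ?_ le_rfl
    conv_lhs => rw [← ENNReal.ofReal_toReal hK]
    exact ENNReal.ofReal_le_ofReal (by linarith)
  refine ⟨ENNReal.ofReal (c' ^ 2 / (2 * K' * E)), ENNReal.ofReal_pos.2 (by positivity),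
    fun {ι} U p ρ hρ hm hen => ?_⟩
  set m := ∑ i ∈ U, ρ i with hmdef
  set a : ι → ℝ := fun i => ρ i / ph s (p i) with ha
  have ha0 : ∀ i, 0 ≤ a i := fun i => div_nonneg (hρ i) (ph_pos _ _).le
  have hmeas : Measurable (fun ω : Fin (N + 1) → ℕ → Fin d → ℤ =>
      ∑ i ∈ U, ENNReal.ofReal (a i) * occ (N + 1) ω (p i)) :=
    Finset.measurable_sum _ fun i _ => (measurable_occ _ _).const_mul _
  have hP := paley (lawN ν (N + 1)) hmeas (measurableSet_hit (fun y => ∃ i ∈ U, y = p i)) (by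
    intro ω hω
    refine Finset.sum_eq_zero fun i hi => ?_
    have : occ (N + 1) ω (p i) = 0 := by
      by_contra hc
      obtain ⟨n, hn⟩ := exists_of_occ _ _ _ hc
      exact hω ⟨n, i, hi, hn⟩
    rw [this, mul_zero])
  have hlow : ENNReal.ofReal (c' * m) ≤
      ∫⁻ ω, ∑ i ∈ U, ENNReal.ofReal (a i) * occ (N + 1) ω (p i) ∂lawN ν (N + 1) := by
    rw [lintegral_finset_sum _ fun i _ => (measurable_occ _ _).const_mul _, hmdef, Finset.mul_sum,
      ENNReal.ofReal_sum_of_nonneg fun i _ => mul_nonneg hc'.le (hρ i)]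
    refine Finset.sum_le_sum fun i _ => ?_
    rw [lintegral_const_mul _ (measurable_occ _ _)]
    refine le_trans (le_of_eq ?_) (mul_le_mul' le_rfl (h1 (p i)))
    rw [← ENNReal.ofReal_mul (ha0 i)]
    congr 1
    have := (ph_pos s (p i)).ne'
    simp only [ha]
    field_simp
  have hmul : ∀ x y : Fin d → ℤ, Measurable (fun ω : Fin (N + 1) → ℕ → Fin d → ℤ =>
      occ (N + 1) ω x * occ (N + 1) ω y) := fun x y => (measurable_occ _ _).mul (measurable_occ _ _)
  have hup : ∫⁻ ω, (∑ i ∈ U, ENNReal.ofReal (a i) * occ (N + 1) ω (p i)) *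
      (∑ i ∈ U, ENNReal.ofReal (a i) * occ (N + 1) ω (p i)) ∂lawN ν (N + 1)
      ≤ ENNReal.ofReal (2 * K' * E * m ^ 2) := by
    have e : ∀ ω : Fin (N + 1) → ℕ → Fin d → ℤ,
        (∑ i ∈ U, ENNReal.ofReal (a i) * occ (N + 1) ω (p i)) *
        (∑ i ∈ U, ENNReal.ofReal (a i) * occ (N + 1) ω (p i))
        = ∑ i ∈ U, ∑ j ∈ U, ENNReal.ofReal (a i * a j) *
          (occ (N + 1) ω (p i) * occ (N + 1) ω (p j)) := fun ω => by
      rw [Finset.sum_mul_sum]
      refine Finset.sum_congr rfl fun i _ => Finset.sum_congr rfl fun j _ => ?_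
      rw [ENNReal.ofReal_mul (ha0 i)]
      ring
    simp_rw [e]
    rw [lintegral_finset_sum _ fun i _ =>
      Finset.measurable_sum _ fun j _ => (hmul _ _).const_mul _]
    have hnn : ∀ i j, 0 ≤ a i * a j * (K' * ((ph s (p i) + ph s (p j)) * ph s (p i - p j))) :=
      fun i j => mul_nonneg (mul_nonneg (ha0 i) (ha0 j)) (mul_nonneg hK'0.le
        (mul_pos (add_pos (ph_pos _ _) (ph_pos _ _)) (ph_pos _ _)).le)
    calc _ ≤ ∑ i ∈ U, ENNReal.ofReal (∑ j ∈ U,
          a i * a j * (K' * ((ph s (p i) + ph s (p j)) * ph s (p i - p j)))) := by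
          refine Finset.sum_le_sum fun i _ => ?_
          rw [lintegral_finset_sum _ fun j _ => (hmul _ _).const_mul _,
            ENNReal.ofReal_sum_of_nonneg fun j _ => hnn i j]
          refine Finset.sum_le_sum fun j _ => ?_
          rw [lintegral_const_mul _ (hmul _ _), ENNReal.ofReal_mul (mul_nonneg (ha0 i) (ha0 j))]
          exact mul_le_mul' le_rfl (h2' _ _)
      _ ≤ _ := by
          rw [← ENNReal.ofReal_sum_of_nonneg fun i _ => Finset.sum_nonneg fun j _ => hnn i j]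
          refine ENNReal.ofReal_le_ofReal ?_
          have e2 : ∀ i j, a i * a j * (K' * ((ph s (p i) + ph s (p j)) * ph s (p i - p j)))
              = K' * (ρ i * (ρ j * (ph s (p i - p j) / ph s (p j))))
                + K' * (ρ j * (ρ i * (ph s (p j - p i) / ph s (p i)))) := fun i j => by
            have := (ph_pos s (p i)).ne'
            have := (ph_pos s (p j)).ne'
            rw [ph_sub s (p j)]
            simp only [ha]
            field_simp
          simp_rw [e2, Finset.sum_add_distrib]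
          rw [Finset.sum_comm (f := fun i j => K' * (ρ j * (ρ i * (ph s (p j - p i) / ph s (p i)))))]
          have h3 : ∑ i ∈ U, ∑ j ∈ U, K' * (ρ i * (ρ j * (ph s (p i - p j) / ph s (p j))))
              ≤ K' * E * m ^ 2 := by
            calc _ ≤ ∑ i ∈ U, K' * (ρ i * (E * m)) := by
                  refine Finset.sum_le_sum fun i hi => ?_
                  rw [← Finset.mul_sum, ← Finset.mul_sum]
                  exact mul_le_mul_of_nonneg_left (mul_le_mul_of_nonneg_left (hen i hi) (hρ i))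
                    hK'0.le
              _ = _ := by
                  rw [← Finset.mul_sum, ← Finset.sum_mul, ← hmdef]
                  ring
          linarith
  have h4 := (pow_le_pow_left' hlow 2).trans (hP.trans (mul_le_mul' hup le_rfl))
  have h5 : ENNReal.ofReal (c' * m) ^ 2
      = ENNReal.ofReal (2 * K' * E * m ^ 2) * ENNReal.ofReal (c' ^ 2 / (2 * K' * E)) := by
    rw [← ENNReal.ofReal_pow (by positivity), ← ENNReal.ofReal_mul (by positivity)]
    congr 1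
    field_simp
  rw [h5] at h4
  exact (ENNReal.mul_le_mul_iff_right (ENNReal.ofReal_pos.2 (by positivity)).ne'
    ENNReal.ofReal_ne_top).1 h4

theorem exists_tail (m : ℕ → ℝ) (hm : ∀ k, 0 ≤ m k) (h : ∑' k, ENNReal.ofReal (m k) = ∞) (k₀ : ℕ) :
    ∃ I : Finset ℕ, (∀ k ∈ I, k₀ ≤ k) ∧ 1 ≤ ∑ k ∈ I, m k := by
  by_contra hc
  push Not at hc
  have := tsum_ofReal_le hm (M := ∑ k ∈ Finset.range k₀, m k + 1) fun F => by
    rw [← Finset.sum_filter_add_sum_filter_not F (fun k => k < k₀)]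
    refine add_le_add (Finset.sum_le_sum_of_subset_of_nonneg ?_ fun k _ _ => hm k)
      (hc _ fun k hk => not_lt.1 (Finset.mem_filter.1 hk).2).le
    intro k hk
    exact Finset.mem_range.2 (Finset.mem_filter.1 hk).2
  rw [h] at this
  exact ENNReal.ofReal_ne_top (top_le_iff.1 this)

theorem hit_uniform {α c C γ : ℝ} (hα0 : 0 < α) (hG : GB ν α c C) (N : ℕ)
    (hN : α * (N + 1) < d) (hγ : d - α * (N + 1) < γ) (A : Set (Fin d → ℤ))
    (hA : ∑' k : ℕ, content γ A (k + 1) = ∞) (R : ℝ) : ∃ c₀ : ℝ≥0∞, 0 < c₀ ∧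
      ∀ x, c₀ ≤ lawN ν (N + 1) {ω | ∃ n, x + posN ω n ∈ A ∩ {y | R ≤ ‖y‖}} := by
  classical
  set β : ℝ := d - α * (N + 1) with hβ
  have hβ0 : 0 < β := by linarith
  obtain ⟨C₀, hC₀, hF⟩ := frostman (d := d) hβ0 hγ
  obtain ⟨C₁, hC₁, hgeo⟩ := geom_up (s := 1) one_pos
  choose T μ hT hμ hcont hpot using hF A
  obtain ⟨c₀, hc₀, hsm⟩ := second_moment hα0 hG N hN
    (E := 4 ^ β * (2 ^ β + C₀ * (6 * C₁))) (by positivity)
  refine ⟨c₀, hc₀, fun x => ?_⟩
  obtain ⟨k₀, hk₀⟩ := pow_unbounded_of_one_lt (max R ‖x‖) (one_lt_two (α := ℝ))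
  obtain ⟨I, hI, hI1⟩ := exists_tail (fun k => ∑ y ∈ T k, μ k y)
    (fun k => Finset.sum_nonneg fun y _ => hμ k y)
    (top_le_iff.1 (hA ▸ ENNReal.tsum_le_tsum hcont)) k₀
  have hlo : ∀ k, ∀ y ∈ T k, (2 : ℝ) ^ k ≤ ‖y‖ := fun k y hy =>
    le_norm_of_notMem_box (hT k y hy).2.2
  have hhi : ∀ k, ∀ y ∈ T k, ‖y‖ ≤ 2 * 2 ^ k := fun k y hy => by
    have := norm_le_of_mem_box (hT k y hy).2.1
    rwa [pow_succ'] at this
  have hk : ∀ k ∈ I, max R ‖x‖ ≤ 2 ^ k := fun k hk =>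
    hk₀.le.trans (pow_le_pow_right₀ one_le_two (hI k hk))
  have hsum : ∑ i ∈ I.sigma T, μ i.1 i.2 = ∑ k ∈ I, ∑ y ∈ T k, μ k y := Finset.sum_sigma _ _ _
  refine (hsm (I.sigma T) (fun i => i.2 - x) (fun i => μ i.1 i.2) (fun i => hμ _ _)
    (by rw [hsum]; linarith) ?_).trans (measure_mono ?_)
  · rintro ⟨k₁, y⟩ hi
    have hy0 : 0 < ‖y‖ := lt_of_lt_of_le (by positivity) (hlo _ _ (Finset.mem_sigma.1 hi).2)
    rw [hsum, Finset.sum_sigma]
    simp only [sub_sub_sub_cancel_right]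
    set near : ℕ → Prop := fun k => (2 : ℝ) ^ k ≤ 2 * ‖y‖ ∧ ‖y‖ ≤ 3 * 2 ^ k with hnear
    have hterm : ∀ k ∈ I, ∑ z ∈ T k, μ k z * (ph (α * (N + 1)) (y - z) / ph (α * (N + 1)) (z - x))
        ≤ 4 ^ β * (2 ^ β * ∑ z ∈ T k, μ k z + if near k then C₀ else 0) := by
      intro k hkI
      have hk1 : (1 : ℝ) ≤ 2 ^ k := one_le_pow₀ one_le_two
      have h1 : ∑ z ∈ T k, μ k z * (ph (α * (N + 1)) (y - z) / ph (α * (N + 1)) (z - x))
          ≤ 4 ^ β * (((2 : ℝ) ^ k) ^ β * ∑ z ∈ T k, μ k z * (1 + ‖y - z‖) ^ (-β)) := by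
        rw [Finset.mul_sum, Finset.mul_sum]
        refine Finset.sum_le_sum fun z hz => ?_
        have e : α * (N + 1) - d = -β := by rw [hβ]; ring
        have h2 : (1 + ‖z - x‖) ^ β ≤ (4 * (2 : ℝ) ^ k) ^ β := by
          refine Real.rpow_le_rpow (by positivity) ?_ hβ0.le
          have := norm_sub_le z x
          have := hhi k z hz
          have := (le_max_right _ _).trans (hk k hkI)
          linarith
        rw [Real.mul_rpow (by norm_num) (by positivity)] at h2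
        rw [ph, ph, e, Real.rpow_neg (x := 1 + ‖z - x‖) (by positivity), div_inv_eq_mul]
        have := hμ k z
        calc _ ≤ μ k z * ((1 + ‖y - z‖) ^ (-β) * (4 ^ β * ((2 : ℝ) ^ k) ^ β)) := by gcongr
          _ = _ := by ring
      refine h1.trans (mul_le_mul_of_nonneg_left ?_ (by positivity))
      have hm0 : 0 ≤ ∑ z ∈ T k, μ k z := Finset.sum_nonneg fun y _ => hμ k y
      by_cases hn : near k
      · rw [if_pos hn]
        have := hpot k y hn.2
        have : 0 ≤ 2 ^ β * ∑ z ∈ T k, μ k z := by positivity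
        linarith
      · rw [if_neg hn, add_zero, Finset.mul_sum, Finset.mul_sum]
        refine Finset.sum_le_sum fun z hz => ?_
        have h3 : (2 : ℝ) ^ k ≤ 2 * (1 + ‖y - z‖) := by
          have h4 := hlo k z hz
          have h5 := hhi k z hz
          have h6 := norm_sub_norm_le y z
          have h7 := norm_sub_norm_le z y
          rw [norm_sub_rev] at h7
          simp only [hnear, not_and_or, not_le] at hn
          rcases hn with hn | hn <;> linarith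
        have h4 : ((2 : ℝ) ^ k) ^ β ≤ (2 * (1 + ‖y - z‖)) ^ β :=
          Real.rpow_le_rpow (by positivity) h3 hβ0.le
        rw [Real.mul_rpow (by norm_num) (by positivity)] at h4
        have h5 : 0 < (1 + ‖y - z‖) ^ β := by positivity
        have := hμ k z
        rw [Real.rpow_neg (by positivity)]
        calc _ ≤ (2 ^ β * (1 + ‖y - z‖) ^ β) * (μ k z * ((1 + ‖y - z‖) ^ β)⁻¹) := by gcongr
          _ = _ := by field_simp
    refine (Finset.sum_le_sum hterm).trans ?_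
    rw [← Finset.mul_sum, mul_assoc, Finset.sum_add_distrib, ← Finset.mul_sum, ← Finset.sum_filter]
    refine mul_le_mul_of_nonneg_left ?_ (by positivity)
    have h8 := hgeo (I.filter near) (2 * ‖y‖) (by positivity)
      (fun j hj => (Finset.mem_filter.1 hj).2.1)
    simp only [Real.rpow_one] at h8
    have h9 : ∑ _k ∈ I.filter near, ‖y‖ ≤ ∑ k ∈ I.filter near, 3 * (2 : ℝ) ^ k :=
      Finset.sum_le_sum fun k hk => (Finset.mem_filter.1 hk).2.2
    rw [← Finset.mul_sum, Finset.sum_const, nsmul_eq_mul] at h9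
    have h10 : ((I.filter near).card : ℝ) ≤ 6 * C₁ := by
      refine le_of_mul_le_mul_right ?_ hy0
      linarith
    rw [Finset.sum_const, nsmul_eq_mul, add_mul]
    have h11 : ((I.filter near).card : ℝ) * C₀ ≤ 6 * C₁ * C₀ := mul_le_mul_of_nonneg_right h10 hC₀
    have h12 : C₀ * (6 * C₁) * 1 ≤ C₀ * (6 * C₁) * ∑ k ∈ I, ∑ y ∈ T k, μ k y :=
      mul_le_mul_of_nonneg_left hI1 (by positivity)
    linarith
  · rintro ω ⟨n, ⟨k, y⟩, hi, hn⟩
    obtain ⟨hkI, hy⟩ := Finset.mem_sigma.1 hi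
    refine ⟨n, ?_⟩
    rw [hn, add_sub_cancel]
    exact ⟨(hT k y hy).1, ((le_max_left _ _).trans (hk k hkI)).trans (hlo k y hy)⟩

theorem q1 {α : ℝ} (hα0 : 0 < α) (N : ℕ) (hN : 1 ≤ N) (hd : α * N < d) (h : BarlowTaylor ν α)
    (A : Set (Fin d → ℤ)) (hA : ENNReal.ofReal (d - α * N) < Dim A) :
    ∀ᵐ ω ∂lawN ν N, ¬ Bornology.IsBounded (Set.range (posN ω) ∩ A) := by
  have hN' : (1 : ℝ) ≤ N := by exact_mod_cast hN
  obtain ⟨c, C, hG⟩ := gb_of_bt hα0 (by nlinarith) h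
  obtain ⟨γ, hγ0, hγ1, hγ2⟩ := ENNReal.lt_iff_exists_real_btwn.1 hA
  rw [ENNReal.ofReal_lt_ofReal_iff_of_nonneg (by linarith)] at hγ1
  have hinf : ∑' k : ℕ, content γ A (k + 1) = ∞ := by
    by_contra hc
    refine absurd hγ2 (not_lt.2 ?_)
    unfold Dim
    exact iInf_le_of_le γ (iInf_le_of_le (by linarith) (iInf_le_of_le (lt_top_iff_ne_top.2 hc) le_rfl))
  obtain ⟨N, rfl⟩ : ∃ M, N = M + 1 := ⟨N - 1, by omega⟩
  push_cast at hd hγ1
  have key : ∀ R : ℕ, ∀ᵐ ω ∂lawN ν (N + 1), ∃ n, posN ω n ∈ A ∩ {y | (R : ℝ) ≤ ‖y‖} := by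
    intro R
    obtain ⟨c₀, hc₀, h₀⟩ := hit_uniform hα0 hG N hd hγ1 A hinf R
    have := zero_one (N + 1) _ c₀ hc₀ h₀
    rw [ae_iff]
    simpa only [not_exists] using this
  filter_upwards [ae_all_iff.2 key] with ω hω hb
  obtain ⟨M, hM⟩ := hb.exists_norm_le
  obtain ⟨R, hR⟩ := exists_nat_gt M
  obtain ⟨n, hn1, hn2⟩ := hω R
  have := hM _ ⟨⟨n, rfl⟩, hn1⟩
  simp only [Set.mem_setOf_eq] at hn2
  linarith

end Pool.Agent.H443Z.RW
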