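import Mathlib

set_option autoImplicit false

namespace Pool.Agent.H443Z.RW

open MeasureTheory
open scoped ENNReal

variable {d : ℕ}

/-- The position after `n` steps of the walk with increments `ω 0, ω 1, …`, started at the origin. -/
def pos (ω : ℕ → Fin d → ℤ) (n : ℕ) : Fin d → ℤ := ∑ j ∈ Finset.range n, ω j

/-- The law of an i.i.d. sequence of increments with common law `ν`. -/
noncomputable def law (ν : Measure (Fin d → ℤ)) : Measure (ℕ → Fin d → ℤ) :=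
  Measure.infinitePi (fun _ : ℕ => ν)

/-- The Green function `g(0, x)`. -/
noncomputable def green (ν : Measure (Fin d → ℤ)) (x : Fin d → ℤ) : ℝ≥0∞ :=
  ∑' n : ℕ, law ν {ω | pos ω n = x}

/-- The walk is transient and satisfies the Barlow-Taylor condition with index `α`. -/
def BarlowTaylor (ν : Measure (Fin d → ℤ)) (α : ℝ) : Prop :=
  (∀ x, green ν x < ∞) ∧ ∃ A B : ℝ, 0 < A ∧ A ≤ B ∧ ∀ x : Fin d → ℤ, x ≠ 0 →
    ENNReal.ofReal (A * ‖x‖ ^ (-(d : ℝ) + α)) ≤ green ν x ∧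
      green ν x ≤ ENNReal.ofReal (B * ‖x‖ ^ (-(d : ℝ) + α))

/-- The law of the increments of `N` independent copies of the walk. -/
noncomputable def lawN (ν : Measure (Fin d → ℤ)) (N : ℕ) : Measure (Fin N → ℕ → Fin d → ℤ) :=
  Measure.pi (fun _ : Fin N => law ν)

/-- The additive random walk at the time `n ∈ ℕ^N`. -/
def posN {N : ℕ} (ω : Fin N → ℕ → Fin d → ℤ) (n : Fin N → ℕ) : Fin d → ℤ := ∑ i, pos (ω i) (n i)

/-- The box `[-2^k, 2^k)^d`. -/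
def box (d k : ℕ) : Set (Fin d → ℤ) := {x | ∀ j, -2 ^ k ≤ x j ∧ x j < 2 ^ k}

/-- The shells `S_0 = V_0`, `S_{k+1} = V_{k+1} \ V_k`. -/
def shell (d : ℕ) : ℕ → Set (Fin d → ℤ)
  | 0 => box d 0
  | k + 1 => box d (k + 1) \ box d k

/-- The dyadic cube `∏ [a_j 2^l, (a_j + 1) 2^l)`. -/
def cube (l : ℕ) (a : Fin d → ℤ) : Set (Fin d → ℤ) :=
  {x | ∀ j, a j * 2 ^ l ≤ x j ∧ x j < (a j + 1) * 2 ^ l}

/-- `N_γ(A, S_k)`: the least value of `∑ 2^(γ (l_i - k - 1))` over finite covers of `A ∩ S_k` by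
dyadic cubes of side `2^(l_i) ≥ 1`. -/
noncomputable def content (γ : ℝ) (A : Set (Fin d → ℤ)) (k : ℕ) : ℝ≥0∞ :=
  ⨅ (F : Finset (ℕ × (Fin d → ℤ))) (_ : A ∩ shell d k ⊆ ⋃ p ∈ F, cube p.1 p.2),
    ∑ p ∈ F, ENNReal.ofReal ((2 : ℝ) ^ (γ * ((p.1 : ℝ) - k - 1)))

/-- The macroscopic Hausdorff dimension. -/
noncomputable def Dim (A : Set (Fin d → ℤ)) : ℝ≥0∞ :=
  ⨅ (γ : ℝ) (_ : 0 < γ) (_ : ∑' k : ℕ, content γ A (k + 1) < ∞), ENNReal.ofReal γ

end Pool.Agent.H443Z.RW
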